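import Pool.Agent.Helper40.Haagerup.Multiplier

/-!
The trace of the group von Neumann algebra and the Haagerup property obtained from positive
definite kernels.
-/

noncomputable section

open scoped InnerProductSpace ComplexOrder CStarAlgebra
open Filter Topology

namespace Pool.Helper40.Haagerup

section Trace

variable {G : Type} [Group G] {H : Type} [NormedAddCommGroup H] [InnerProductSpace ℂ H]
  [CompleteSpace H]

/-- The vector state at `e 1`. -/
def vecState (e : HilbertBasis G ℂ H) : (H →L[ℂ] H) →ₚ[ℂ] ℂ where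
  toFun T := ⟪e 1, T (e 1)⟫_ℂ
  map_add' S T := by simp [inner_add_right]
  map_smul' c T := by simp [inner_smul_right]
  monotone' S T h := by
    change ⟪e 1, S (e 1)⟫_ℂ ≤ ⟪e 1, T (e 1)⟫_ℂ
    rw [← sub_nonneg, ← inner_sub_right, ← ContinuousLinearMap.sub_apply]
    have h1 : (0 : H →L[ℂ] H) ≤ T - S := sub_nonneg.mpr h
    rw [ContinuousLinearMap.nonneg_iff_isPositive] at h1
    exact h1.inner_nonneg_right (e 1)

lemma vecState_apply (e : HilbertBasis G ℂ H) (T : H →L[ℂ] H) :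
    vecState e T = ⟪e 1, T (e 1)⟫_ℂ := rfl

instance instClosedVN (e : HilbertBasis G ℂ H) : IsClosed (vN e : Set (H →L[ℂ] H)) :=
  isClosed_vN e

/-- The canonical trace. -/
def tauN (e : HilbertBasis G ℂ H) : vN e →ₚ[ℂ] ℂ := restrictFunctional (vecState e) (vN e)

lemma tauN_apply (e : HilbertBasis G ℂ H) (a : vN e) :
    tauN e a = ⟪e 1, (a : H →L[ℂ] H) (e 1)⟫_ℂ := rfl

lemma tauN_star_mul (e : HilbertBasis G ℂ H) (a b : vN e) :
    tauN e (star a * b) = ⟪(a : H →L[ℂ] H) (e 1), (b : H →L[ℂ] H) (e 1)⟫_ℂ := by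
  rw [tauN_apply]
  change ⟪e 1, (star (a : H →L[ℂ] H) * (b : H →L[ℂ] H)) (e 1)⟫_ℂ = _
  rw [ContinuousLinearMap.star_eq_adjoint, ContinuousLinearMap.mul_apply,
    ContinuousLinearMap.adjoint_inner_right]

lemma isFaithfulTracialState_tauN (e : HilbertBasis G ℂ H) :
    IsFaithfulTracialState (tauN e) where
  map_one := by
    rw [tauN_apply]
    change ⟪e 1, e 1⟫_ℂ = 1
    rw [inner_self_eq_norm_sq_to_K, e.orthonormal.1 1]
    simp
  tracial a b := trace_mul_comm a.2 b.2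
  faithful a ha := by
    rw [tauN_star_mul, inner_self_eq_zero] at ha
    apply Subtype.ext
    apply vN_ext' (e := e) a.2 (vN e).zero_mem
    rw [ha]
    rfl

lemma inner_toGNS_tauN (e : HilbertBasis G ℂ H) (a b : vN e) :
    ⟪toGNS (tauN e) a, toGNS (tauN e) b⟫_ℂ =
      ⟪(a : H →L[ℂ] H) (e 1), (b : H →L[ℂ] H) (e 1)⟫_ℂ := by
  rw [inner_toGNS, tauN_star_mul]

lemma norm_toGNS_tauN (e : HilbertBasis G ℂ H) (a : vN e) :
    ‖toGNS (tauN e) a‖ = ‖(a : H →L[ℂ] H) (e 1)‖ := by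
  have h1 := inner_toGNS_tauN e a a
  rw [inner_self_eq_norm_sq_to_K, inner_self_eq_norm_sq_to_K] at h1
  have h2 : ‖toGNS (tauN e) a‖ ^ 2 = ‖(a : H →L[ℂ] H) (e 1)‖ ^ 2 := by exact_mod_cast h1
  exact (pow_left_inj₀ (norm_nonneg _) (norm_nonneg _) two_ne_zero).mp h2

/-- `toGNS` as a linear map. -/
def toGNSₗ {A : Type} [CStarAlgebra A] [PartialOrder A] [StarOrderedRing A]
    (τ : A →ₚ[ℂ] ℂ) : A →ₗ[ℂ] τ.GNS where
  toFun := toGNS τ
  map_add' := toGNS_add τ
  map_smul' := toGNS_smul τ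

/-- Evaluation at `e 1`. -/
def evalOne (e : HilbertBasis G ℂ H) : vN e →ₗ[ℂ] H where
  toFun a := (a : H →L[ℂ] H) (e 1)
  map_add' a b := rfl
  map_smul' c a := rfl

/-- The isometry from the GNS space to `H`. -/
def JN (e : HilbertBasis G ℂ H) : (tauN e).GNS →L[ℂ] H :=
  (evalOne e).extendOfNorm (toGNSₗ (tauN e))

lemma JN_toGNS (e : HilbertBasis G ℂ H) (a : vN e) :
    JN e (toGNS (tauN e) a) = (a : H →L[ℂ] H) (e 1) := by
  refine LinearMap.extendOfNorm_eq (f := evalOne e) (e := toGNSₗ (tauN e))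
    (denseRange_toGNS (tauN e)) ⟨1, fun x => ?_⟩ a
  rw [one_mul]
  exact (norm_toGNS_tauN e x).ge

lemma inner_JN (e : HilbertBasis G ℂ H) (u w : (tauN e).GNS) :
    ⟪JN e u, JN e w⟫_ℂ = ⟪u, w⟫_ℂ := by
  refine (denseRange_toGNS (tauN e)).induction_on₂ (p := fun u w => ⟪JN e u, JN e w⟫_ℂ = ⟪u, w⟫_ℂ)
    ?_ ?_ u w
  · apply isClosed_eq <;> fun_prop
  · intro a b
    rw [JN_toGNS, JN_toGNS, inner_toGNS_tauN]

lemma adjoint_JN (e : HilbertBasis G ℂ H) (u : (tauN e).GNS) :
    (JN e).adjoint (JN e u) = u := by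
  apply ext_inner_left ℂ
  intro w
  rw [ContinuousLinearMap.adjoint_inner_right, inner_JN]

end Trace

section Kernel

variable {G : Type} [Group G] {H : Type} [NormedAddCommGroup H] [InnerProductSpace ℂ H]
  [CompleteSpace H]

/-- A right-invariant normalised positive definite kernel on `G`, given by its feature map. -/
structure InvKernel (G : Type) [Group G] (D : Type) where
  v : G → lp (fun _ : D => ℂ) 2
  unit : ∀ x, ⟪v x, v x⟫_ℂ = 1
  inv : ∀ x y g, ⟪v (y * g), v (x * g)⟫_ℂ = ⟪v y, v x⟫_ℂ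

variable {D : Type}

lemma feat_mem (e : HilbertBasis G ℂ H) (k : InvKernel G D) (x : G) :
    Memℓp (fun d => (k.v x d) • e x) 2 := by
  apply (lp.memℓp (k.v x)).mono'
  intro d
  rw [norm_smul, e.orthonormal.1 x, mul_one]

/-- The orthonormal family attached to a kernel. -/
def feat (e : HilbertBasis G ℂ H) (k : InvKernel G D) (x : G) : lp (fun _ : D => H) 2 :=
  ⟨fun d => (k.v x d) • e x, feat_mem e k x⟩

lemma inner_feat_amp (e : HilbertBasis G ℂ H) (k : InvKernel G D) (T : H →L[ℂ] H) (x y : G) :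
    ⟪feat e k y, amp D H T (feat e k x)⟫_ℂ = ⟪k.v y, k.v x⟫_ℂ * ⟪e y, T (e x)⟫_ℂ := by
  rw [lp.inner_eq_tsum, lp.inner_eq_tsum, ← tsum_mul_right]
  congr 1
  funext d
  change ⟪(k.v y d) • e y, T ((k.v x d) • e x)⟫_ℂ = _
  rw [map_smul, inner_smul_left, inner_smul_right]
  simp only [RCLike.inner_apply]
  ring

lemma orthonormal_feat (e : HilbertBasis G ℂ H) (k : InvKernel G D) :
    Orthonormal ℂ (feat e k) := by
  classical
  rw [orthonormal_iff_ite]
  intro y x
  have h1 := inner_feat_amp e k 1 x y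
  rw [map_one] at h1
  simp only [ContinuousLinearMap.one_apply] at h1
  rw [h1]
  have := orthonormal_iff_ite.mp e.orthonormal
  rw [this]
  split_ifs with h
  · rw [h, k.unit, one_mul]
  · simp

/-- The isometry of the Stinespring form. -/
def Viso (e : HilbertBasis G ℂ H) (k : InvKernel G D) : H →L[ℂ] lp (fun _ : D => H) 2 :=
  (isoOf e (orthonormal_feat e k)).toContinuousLinearMap

lemma Viso_apply (e : HilbertBasis G ℂ H) (k : InvKernel G D) (x : G) :
    Viso e k (e x) = feat e k x := isoOf_apply e (orthonormal_feat e k) x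

lemma norm_Viso_le (e : HilbertBasis G ℂ H) (k : InvKernel G D) : ‖Viso e k‖ ≤ 1 :=
  LinearIsometry.norm_toContinuousLinearMap_le _

/-- The multiplier operator. -/
def multOp (e : HilbertBasis G ℂ H) (k : InvKernel G D) (T : H →L[ℂ] H) : H →L[ℂ] H :=
  (Viso e k).adjoint ∘L (amp D H T) ∘L (Viso e k)

lemma inner_multOp (e : HilbertBasis G ℂ H) (k : InvKernel G D) (T : H →L[ℂ] H) (x y : G) :
    ⟪e y, multOp e k T (e x)⟫_ℂ = ⟪k.v y, k.v x⟫_ℂ * ⟪e y, T (e x)⟫_ℂ := by
  unfold multOp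
  simp only [ContinuousLinearMap.comp_apply]
  rw [ContinuousLinearMap.adjoint_inner_right, Viso_apply, Viso_apply, inner_feat_amp]

lemma multOp_mem (e : HilbertBasis G ℂ H) (k : InvKernel G D) {T : H →L[ℂ] H} (hT : T ∈ vN e) :
    multOp e k T ∈ vN e := by
  intro x y g
  rw [inner_multOp, inner_multOp, hT x y g, k.inv]

/-- The multiplier as a linear map of the group von Neumann algebra. -/
def multN (e : HilbertBasis G ℂ H) (k : InvKernel G D) : vN e →ₗ[ℂ] vN e where
  toFun a := ⟨multOp e k a, multOp_mem e k a.2⟩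
  map_add' a b := by
    apply Subtype.ext
    simp [multOp]
  map_smul' c a := by
    apply Subtype.ext
    simp [multOp]

/-- The multiplier as a completely positive map. -/
def multCP (e : HilbertBasis G ℂ H) (k : InvKernel G D) : vN e →CP vN e :=
  cpOfStinespring (vN e).subtype Subtype.val_injective ((amp D H).comp (vN e).subtype)
    (Viso e k) (multN e k) (fun _ => rfl)

lemma multCP_apply (e : HilbertBasis G ℂ H) (k : InvKernel G D) (a : vN e) :
    ((multCP e k a : vN e) : H →L[ℂ] H) = multOp e k a := rfl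

lemma norm_multCP_le (e : HilbertBasis G ℂ H) (k : InvKernel G D) (a : vN e) :
    ‖multCP e k a‖ ≤ ‖a‖ := by
  change ‖multOp e k a‖ ≤ ‖(a : H →L[ℂ] H)‖
  unfold multOp
  have h1 := norm_Viso_le e k
  have h2 : ‖(Viso e k).adjoint‖ ≤ 1 := by
    rw [LinearIsometryEquiv.norm_map]; exact h1
  have h3 : ‖amp D H (a : H →L[ℂ] H)‖ ≤ ‖(a : H →L[ℂ] H)‖ := norm_ampFun_le _
  calc ‖(Viso e k).adjoint ∘L (amp D H (a : H →L[ℂ] H)) ∘L (Viso e k)‖
      ≤ ‖(Viso e k).adjoint‖ * ‖(amp D H (a : H →L[ℂ] H)) ∘L (Viso e k)‖ :=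
        ContinuousLinearMap.opNorm_comp_le _ _
    _ ≤ 1 * (‖(a : H →L[ℂ] H)‖ * 1) := by
        gcongr
        calc ‖(amp D H (a : H →L[ℂ] H)) ∘L (Viso e k)‖
            ≤ ‖amp D H (a : H →L[ℂ] H)‖ * ‖Viso e k‖ := ContinuousLinearMap.opNorm_comp_le _ _
          _ ≤ _ := by gcongr
    _ = _ := by ring

lemma tauN_multCP (e : HilbertBasis G ℂ H) (k : InvKernel G D) (a : vN e) :
    tauN e (multCP e k a) = tauN e a := by
  rw [tauN_apply, tauN_apply, multCP_apply, inner_multOp, k.unit, one_mul]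

/-- The positive definite function of a kernel. -/
def InvKernel.phi (k : InvKernel G D) (x : G) : ℂ := ⟪k.v x, k.v 1⟫_ℂ

lemma InvKernel.norm_v (k : InvKernel G D) (x : G) : ‖k.v x‖ = 1 := by
  have h := k.unit x
  rw [inner_self_eq_norm_sq_to_K] at h
  have h3 : ((‖k.v x‖ ^ 2 : ℝ) : ℂ) = 1 := by
    rw [Complex.ofReal_pow]
    exact h
  have h2 : ‖k.v x‖ ^ 2 = 1 := Complex.ofReal_eq_one.mp h3
  exact (pow_eq_one_iff_of_nonneg (norm_nonneg _) two_ne_zero).mp h2

lemma InvKernel.norm_phi_le (k : InvKernel G D) (x : G) : ‖k.phi x‖ ≤ 1 := by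
  have := norm_inner_le_norm (𝕜 := ℂ) (k.v x) (k.v 1)
  rw [k.norm_v, k.norm_v, one_mul] at this
  exact this

lemma multOp_e_one (e : HilbertBasis G ℂ H) (k : InvKernel G D) (T : H →L[ℂ] H) :
    multOp e k T (e 1) = diag e k.phi 1 k.norm_phi_le (T (e 1)) := by
  apply vec_ext e
  intro x
  rw [inner_multOp, inner_diag]
  rfl

/-- The compact extension of the multiplier to the GNS space. -/
def multGNS (e : HilbertBasis G ℂ H) (k : InvKernel G D) : (tauN e).GNS →L[ℂ] (tauN e).GNS :=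
  (JN e).adjoint ∘L (diag e k.phi 1 k.norm_phi_le) ∘L (JN e)

lemma multGNS_toGNS (e : HilbertBasis G ℂ H) (k : InvKernel G D) (a : vN e) :
    multGNS e k (toGNS (tauN e) a) = toGNS (tauN e) (multCP e k a) := by
  unfold multGNS
  simp only [ContinuousLinearMap.comp_apply]
  rw [JN_toGNS, ← multOp_e_one, ← multCP_apply, ← JN_toGNS, adjoint_JN]

lemma isCompact_multGNS (e : HilbertBasis G ℂ H) (k : InvKernel G D)
    (h0 : ∀ ε > 0, {x | ε ≤ ‖k.phi x‖}.Finite) : IsCompactOperator (multGNS e k) := by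
  have h1 := isCompact_diag e k.phi 1 zero_le_one k.norm_phi_le h0
  exact (h1.comp_clm (JN e)).clm_comp (JN e).adjoint

lemma tendsto_diag (e : HilbertBasis G ℂ H) {ι : Type} {l : Filter ι} (c : ι → G → ℂ)
    (hc : ∀ i x, ‖c i x‖ ≤ 2) (h : ∀ x, Tendsto (fun i => c i x) l (𝓝 0)) (u : H) :
    Tendsto (fun i => ‖diag e (c i) 2 (hc i) u‖) l (𝓝 0) := by
  have h1 : Tendsto (fun i => ‖diag e (c i) 2 (hc i) u‖ ^ 2) l (𝓝 0) := by
    have h2 : ∀ i, ‖diag e (c i) 2 (hc i) u‖ ^ 2 = ∑' x, ‖c i x * ⟪e x, u⟫_ℂ‖ ^ 2 := by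
      intro i
      rw [← (hasSum_norm_sq e (diag e (c i) 2 (hc i) u)).tsum_eq]
      simp only [inner_diag]
    simp only [h2]
    have h3 : (0:ℝ) = ∑' x : G, (0:ℝ) := by simp
    rw [h3]
    apply tendsto_tsum_of_dominated_convergence (bound := fun x => 4 * ‖⟪e x, u⟫_ℂ‖ ^ 2)
    · exact (hasSum_norm_sq e u).summable.mul_left 4
    · intro x
      have h4 := ((h x).mul_const ⟪e x, u⟫_ℂ).norm.pow 2
      simpa using h4
    · refine Eventually.of_forall fun i x => ?_
      rw [Real.norm_of_nonneg (by positivity), norm_mul, mul_pow]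
      have := hc i x
      gcongr
      calc ‖c i x‖ ^ 2 ≤ 2 ^ 2 := by gcongr
        _ = 4 := by norm_num
  have h5 := h1.sqrt
  simpa using h5

/-- If `G` carries a net of `c₀` invariant kernels converging to `1`, then its group von Neumann
algebra with the canonical trace has the Haagerup property. -/
theorem haagerup_of_kernels (e : HilbertBasis G ℂ H) (ι : Type) [Preorder ι] [IsDirectedOrder ι]
    [Nonempty ι] (k : ι → InvKernel G D)
    (h0 : ∀ i, ∀ ε > 0, {x | ε ≤ ‖(k i).phi x‖}.Finite)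
    (h1 : ∀ x, Tendsto (fun i => (k i).phi x) atTop (𝓝 1)) :
    HaagerupProperty (tauN e) := by
  refine ⟨ι, inferInstance, inferInstance, inferInstance, fun i => multCP e (k i),
    fun i a => norm_multCP_le e (k i) a, fun i a _ => (tauN_multCP e (k i) a).le,
    fun i => ⟨multGNS e (k i), isCompact_multGNS e (k i) (h0 i), multGNS_toGNS e (k i)⟩, ?_⟩
  intro a
  have hc : ∀ i x, ‖(k i).phi x - 1‖ ≤ 2 := by
    intro i x
    calc ‖(k i).phi x - 1‖ ≤ ‖(k i).phi x‖ + ‖(1:ℂ)‖ := norm_sub_le _ _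
      _ ≤ 1 + 1 := by
        gcongr
        · exact (k i).norm_phi_le x
        · simp
      _ = 2 := by norm_num
  have h2 := tendsto_diag e (l := atTop) (fun i x => (k i).phi x - 1) hc (by
    intro x
    simpa using (h1 x).sub_const 1) ((a : H →L[ℂ] H) (e 1))
  convert h2 using 1
  funext i
  rw [norm_toGNS_tauN]
  congr 1
  apply vec_ext e
  intro x
  rw [inner_diag]
  change ⟪e x, (((multCP e (k i) a : vN e) : H →L[ℂ] H) - (a : H →L[ℂ] H)) (e 1)⟫_ℂ = _
  rw [ContinuousLinearMap.sub_apply, inner_sub_right, multCP_apply, inner_multOp]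
  unfold InvKernel.phi
  ring

end Kernel

end Pool.Helper40.Haagerup
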