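import Pool.Agent.Helper40.Haagerup.Lamp
import Pool.Agent.Helper40.Haagerup.GroupTrace

/-!
The subalgebra `B`, the elimination of coordinates, and separability.
-/

noncomputable section

open scoped InnerProductSpace ComplexOrder symmDiff Pointwise
open Filter Topology TopologicalSpace

namespace Pool.Helper40.Haagerup

variable {α W : Type} [DecidableEq α] [DecidableEq W]
variable {H : Type} [NormedAddCommGroup H] [InnerProductSpace ℂ H] [CompleteSpace H]
variable (e : HilbertBasis (Lamp α W) ℂ H)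

/-- sign of a coordinate -/
def cw (w : W) (x : Lamp α W) : ℂ := if w ∈ x.S then -1 else 1

omit [DecidableEq α] in
lemma norm_cw_le (w : W) (x : Lamp α W) : ‖cw w x‖ ≤ 1 := by
  unfold cw; split_ifs <;> simp

omit [DecidableEq α] in
lemma cw_mul_self (w : W) (x : Lamp α W) : cw w x * cw w x = 1 := by
  unfold cw; split_ifs <;> simp

/-- The symmetry `U_w`. -/
def Uw (w : W) : H →L[ℂ] H := diag e (cw w) 1 (norm_cw_le w)

omit [CompleteSpace H] in
lemma Uw_basis (w : W) (x : Lamp α W) : Uw e w (e x) = cw w x • e x := diag_apply e _ _ _ x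

omit [CompleteSpace H] in
lemma inner_Uw (w : W) (x : Lamp α W) (u : H) : ⟪e x, Uw e w u⟫_ℂ = cw w x * ⟪e x, u⟫_ℂ :=
  inner_diag e _ _ _ u x

omit [CompleteSpace H] in
lemma Uw_Uw (w : W) (u : H) : Uw e w (Uw e w u) = u := by
  apply vec_ext e
  intro x
  rw [inner_Uw, inner_Uw, ← mul_assoc, cw_mul_self, one_mul]

omit [CompleteSpace H] in
lemma Uw_sq (w : W) : Uw e w * Uw e w = 1 := by
  ext u; exact Uw_Uw e w u

omit [CompleteSpace H] in
lemma norm_Uw_apply_le (w : W) (u : H) : ‖Uw e w u‖ ≤ ‖u‖ := by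
  have h1 := (Uw e w).le_opNorm u
  have h2 : ‖Uw e w‖ ≤ 1 := norm_diag_le e _ 1 zero_le_one _
  calc _ ≤ ‖Uw e w‖ * ‖u‖ := h1
    _ ≤ 1 * ‖u‖ := by gcongr
    _ = _ := one_mul _

omit [CompleteSpace H] in
lemma norm_Uw_apply (w : W) (u : H) : ‖Uw e w u‖ = ‖u‖ := by
  apply le_antisymm (norm_Uw_apply_le e w u)
  conv_lhs => rw [← Uw_Uw e w u]
  exact norm_Uw_apply_le e w _

lemma star_Uw (w : W) : star (Uw e w) = Uw e w := by
  apply mat_ext e
  intro x y
  classical
  rw [ContinuousLinearMap.star_eq_adjoint, ContinuousLinearMap.adjoint_inner_right,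
    Uw_basis, Uw_basis, inner_smul_left, inner_smul_right]
  by_cases h : y = x
  · subst h
    congr 1
    unfold cw; split_ifs <;> simp
  · rw [orthonormal_iff_ite.mp e.orthonormal, if_neg h]
    simp

variable {e} in
lemma commute_of_supp {T : H →L[ℂ] H} (hT : T ∈ vN e) {w : W}
    (h : ∀ z : Lamp α W, w ∈ z.S → co e T z = 0) : Uw e w * T = T * Uw e w := by
  apply mat_ext e
  intro x y
  simp only [ContinuousLinearMap.mul_apply]
  rw [inner_Uw, Uw_basis, map_smul, inner_smul_right, mat_eq_co hT]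
  by_cases hw : w ∈ (y * x⁻¹).S
  · rw [h _ hw]; simp
  · congr 1
    simp only [Lamp.mul_S, Lamp.inv_S, Finset.mem_symmDiff] at hw
    unfold cw
    by_cases h1 : w ∈ y.S <;> by_cases h2 : w ∈ x.S <;> simp_all

variable {e} in
omit [CompleteSpace H] in
lemma supp_of_commute {T : H →L[ℂ] H} {w : W} (h : Uw e w * T = T * Uw e w) (z : Lamp α W)
    (hz : w ∈ z.S) : co e T z = 0 := by
  have h1 := congrArg (fun S => ⟪e z, S (e 1)⟫_ℂ) h
  simp only [ContinuousLinearMap.mul_apply] at h1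
  rw [inner_Uw, Uw_basis, map_smul, inner_smul_right] at h1
  have e1 : cw w z = -1 := by simp [cw, hz]
  have e2 : cw w (1 : Lamp α W) = 1 := by simp [cw]
  rw [e1, e2] at h1
  unfold co
  linear_combination (-1/2 : ℂ) * h1

/-- Operators of the group von Neumann algebra depending only on the coordinates in `C`. -/
def NC (C : Set W) : StarSubalgebra ℂ (H →L[ℂ] H) where
  carrier := {T | T ∈ vN e ∧ ∀ w ∉ C, Uw e w * T = T * Uw e w}
  mul_mem' := by
    rintro S T ⟨hS, hS'⟩ ⟨hT, hT'⟩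
    refine ⟨mul_mem hS hT, fun w hw => ?_⟩
    rw [← mul_assoc, hS' w hw, mul_assoc, hT' w hw, mul_assoc]
  add_mem' := by
    rintro S T ⟨hS, hS'⟩ ⟨hT, hT'⟩
    refine ⟨add_mem hS hT, fun w hw => ?_⟩
    rw [mul_add, add_mul, hS' w hw, hT' w hw]
  algebraMap_mem' := by
    intro c
    refine ⟨algebraMap_mem _ c, fun w _ => ?_⟩
    exact (Algebra.commutes c (Uw e w)).symm
  star_mem' := by
    rintro T ⟨hT, hT'⟩
    refine ⟨star_mem hT, fun w hw => ?_⟩
    have h1 := congrArg star (hT' w hw)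
    rw [star_mul, star_mul, star_Uw] at h1
    exact h1.symm

/-- The central element. -/
def lS (S : Finset W) : Lamp α W := ⟨∅, 1, S⟩

lemma lS_mul (S R : Finset W) : (lS S : Lamp α W) * lS R = lS (S ∆ R) := by
  ext1
  · simp only [lS, Lamp.mul_A, Finset.smul_finset_empty]
    exact bot_symmDiff _
  · simp [lS]
  · simp [lS]

lemma lS_comm (S : Finset W) (x : Lamp α W) : lS S * x = x * lS S := by
  ext1
  · simp only [lS, Lamp.mul_A, Finset.smul_finset_empty]
    rw [show (1 : FreeGroup α) • x.A = x.A from one_smul _ _,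
      show (∅ : Finset (FreeGroup α)) ∆ x.A = x.A from bot_symmDiff _,
      show x.A ∆ (∅ : Finset (FreeGroup α)) = x.A from symmDiff_bot _]
  · simp [lS]
  · simp only [Lamp.mul_S]
    exact symmDiff_comm _ _

lemma lS_inv (S : Finset W) : (lS S : Lamp α W)⁻¹ = lS S := by
  ext1 <;> simp [lS]

lemma lS_empty : (lS ∅ : Lamp α W) = 1 := rfl

variable {e} in
lemma lam_lS_comm (S : Finset W) {T : H →L[ℂ] H} (hT : T ∈ vN e) :
    lam e (lS S) * T = T * lam e (lS S) := by
  apply mat_ext e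
  intro x y
  simp only [ContinuousLinearMap.mul_apply, lam_apply]
  have h1 : ⟪e y, lam e (lS S) (T (e x))⟫_ℂ = ⟪e ((lS S)⁻¹ * y), T (e x)⟫_ℂ := by
    rw [← ContinuousLinearMap.adjoint_inner_left, ← ContinuousLinearMap.star_eq_adjoint,
      star_lam, lam_apply]
  rw [h1, mat_eq_co hT, mat_eq_co hT, lS_inv, mul_inv_rev, lS_inv, lS_comm S x⁻¹ |>.symm,
    lS_comm S y, mul_assoc]

/-- The averaging projection `q_Z`. -/
def qZ (Z : Finset W) : H →L[ℂ] H := ((2 : ℂ) ^ Z.card)⁻¹ • ∑ S ∈ Z.powerset, lam e (lS S)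

/-- The projection `x_w = (1 - λ_w)/2`. -/
def xw (w : W) : H →L[ℂ] H := (2 : ℂ)⁻¹ • (1 - lam e (lS {w}))

/-- The projection `p_w = (1 + λ_w)/2`. -/
def pw (w : W) : H →L[ℂ] H := (2 : ℂ)⁻¹ • (1 + lam e (lS {w}))

lemma qZ_mem (Z : Finset W) : qZ e Z ∈ vN e := by
  unfold qZ
  exact SMulMemClass.smul_mem _ (sum_mem fun S _ => lam_mem _)

lemma xw_mem (w : W) : xw e w ∈ vN e := by
  unfold xw
  exact SMulMemClass.smul_mem _ (sub_mem (one_mem _) (lam_mem _))

lemma pw_mem (w : W) : pw e w ∈ vN e := by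
  unfold pw
  exact SMulMemClass.smul_mem _ (add_mem (one_mem _) (lam_mem _))

variable {e} in
lemma qZ_comm (Z : Finset W) {T : H →L[ℂ] H} (hT : T ∈ vN e) : qZ e Z * T = T * qZ e Z := by
  unfold qZ
  rw [smul_mul_assoc, mul_smul_comm, Finset.sum_mul, Finset.mul_sum]
  congr 1
  exact Finset.sum_congr rfl fun S _ => lam_lS_comm S hT

variable {e} in
lemma xw_comm (w : W) {T : H →L[ℂ] H} (hT : T ∈ vN e) : xw e w * T = T * xw e w := by
  unfold xw
  rw [smul_mul_assoc, mul_smul_comm, sub_mul, mul_sub, one_mul, mul_one, lam_lS_comm _ hT]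

variable {e} in
lemma pw_comm (w : W) {T : H →L[ℂ] H} (hT : T ∈ vN e) : pw e w * T = T * pw e w := by
  unfold pw
  rw [smul_mul_assoc, mul_smul_comm, add_mul, mul_add, one_mul, mul_one, lam_lS_comm _ hT]

lemma lam_lS_mul (S R : Finset W) : lam e (lS S) * lam e (lS R) = lam e (lS (S ∆ R)) := by
  rw [← lam_mul, lS_mul]

lemma lam_lS_qZ {S Z : Finset W} (h : S ⊆ Z) : lam e (lS S) * qZ e Z = qZ e Z := by
  unfold qZ
  rw [mul_smul_comm, Finset.mul_sum]
  congr 1
  simp only [lam_lS_mul]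
  have h1 : ∀ R ∈ Z.powerset, lam e (lS (S ∆ R)) = (fun R => lam e (lS R)) (R ∆ S) := by
    intro R _
    simp only [symmDiff_comm S R]
  rw [Finset.sum_congr rfl h1]
  refine Finset.sum_nbij' (fun A => A ∆ S) (fun A => A ∆ S) ?_ ?_ ?_ ?_ ?_
  · intro A hA
    rw [Finset.mem_powerset] at *
    intro z hz
    rw [Finset.mem_symmDiff] at hz
    rcases hz with ⟨h', _⟩ | ⟨h', _⟩
    · exact hA h'
    · exact h h'
  · intro A hA
    rw [Finset.mem_powerset] at *
    intro z hz
    rw [Finset.mem_symmDiff] at hz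
    rcases hz with ⟨h', _⟩ | ⟨h', _⟩
    · exact hA h'
    · exact h h'
  · intro A _
    exact symmDiff_symmDiff_cancel_right S A
  · intro A _
    exact symmDiff_symmDiff_cancel_right S A
  · intro A _; rfl

lemma qZ_mul_qZ {Z Z' : Finset W} (h : Z ⊆ Z') : qZ e Z * qZ e Z' = qZ e Z' := by
  conv_lhs => rw [qZ]
  rw [smul_mul_assoc, Finset.sum_mul]
  have h1 : ∀ S ∈ Z.powerset, lam e (lS S) * qZ e Z' = qZ e Z' := fun S hS =>
    lam_lS_qZ e ((Finset.mem_powerset.mp hS).trans h)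
  rw [Finset.sum_congr rfl h1, Finset.sum_const, Finset.card_powerset, ← Nat.cast_smul_eq_nsmul ℂ,
    smul_smul]
  push_cast
  rw [inv_mul_cancel₀ (by positivity), one_smul]

lemma xw_qZ {w : W} {Z : Finset W} (h : w ∈ Z) : xw e w * qZ e Z = 0 := by
  unfold xw
  rw [smul_mul_assoc, sub_mul, one_mul, lam_lS_qZ e (by simpa using h), sub_self, smul_zero]

lemma star_qZ (Z : Finset W) : star (qZ e Z) = qZ e Z := by
  unfold qZ
  rw [star_smul, star_sum]
  congr 1
  · simp
  · refine Finset.sum_congr rfl fun S _ => ?_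
    rw [star_lam, lS_inv]

lemma norm_qZ_le (Z : Finset W) : ‖qZ e Z‖ ≤ 1 := by
  unfold qZ
  rw [norm_smul, norm_inv, norm_pow]
  have h1 : ‖∑ S ∈ Z.powerset, lam e (lS S)‖ ≤ 2 ^ Z.card := by
    refine (norm_sum_le _ _).trans ?_
    refine (Finset.sum_le_sum fun S _ => norm_lam_le (lS S)).trans ?_
    rw [Finset.sum_const, Finset.card_powerset, nsmul_eq_mul]
    push_cast
    simp
  have h2 : ‖(2:ℂ)‖ = 2 := by simp
  rw [h2, inv_mul_le_iff₀ (by positivity), mul_one]
  exact h1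

lemma qZ_insert {w : W} {Z : Finset W} (h : w ∉ Z) : qZ e (insert w Z) = qZ e Z * pw e w := by
  unfold qZ pw
  rw [Finset.sum_powerset_insert h, Finset.card_insert_of_notMem h, pow_succ, mul_inv,
    smul_mul_smul_comm]
  congr 1
  rw [mul_add, mul_one, Finset.sum_mul]
  congr 1
  refine Finset.sum_congr rfl fun S hS => ?_
  rw [lam_lS_mul]
  congr 2
  rw [Finset.mem_powerset] at hS
  ext z
  simp only [Finset.mem_insert, Finset.mem_symmDiff, Finset.mem_singleton]
  constructor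
  · rintro (rfl | h1)
    · right; exact ⟨rfl, fun h2 => h (hS h2)⟩
    · left
      refine ⟨h1, ?_⟩
      rintro rfl
      exact h (hS h1)
  · rintro (⟨h1, _⟩ | ⟨h1, _⟩)
    · exact Or.inr h1
    · exact Or.inl h1

lemma Uw_lam_lS {w : W} {S : Finset W} (h : w ∉ S) :
    Uw e w * lam e (lS S) = lam e (lS S) * Uw e w := by
  apply clm_ext e
  intro x
  simp only [ContinuousLinearMap.mul_apply, lam_apply, Uw_basis, map_smul]
  congr 1
  unfold cw
  simp [lS, Finset.mem_symmDiff, h]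

lemma Uw_qZ {w : W} {Z : Finset W} (h : w ∉ Z) : Uw e w * qZ e Z = qZ e Z * Uw e w := by
  unfold qZ
  rw [mul_smul_comm, smul_mul_assoc, Finset.mul_sum, Finset.sum_mul]
  congr 1
  refine Finset.sum_congr rfl fun S hS => Uw_lam_lS e ?_
  exact fun h' => h (Finset.mem_powerset.mp hS h')

lemma Uw_lam_self (w : W) : Uw e w * lam e (lS {w}) = - (lam e (lS {w}) * Uw e w) := by
  apply clm_ext e
  intro x
  simp only [ContinuousLinearMap.mul_apply, lam_apply, Uw_basis, map_smul,
    ContinuousLinearMap.neg_apply]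
  rw [← neg_smul]
  congr 1
  unfold cw
  by_cases hx : w ∈ x.S <;> simp [lS, Finset.mem_symmDiff, hx]

lemma pw_sq (w : W) : pw e w * pw e w = pw e w := by
  unfold pw
  rw [smul_mul_smul_comm, mul_add, add_mul, one_mul, mul_one, add_mul, one_mul, lam_lS_mul,
    symmDiff_self, Finset.bot_eq_empty, lS_empty, lam_one]
  have : (1 : H →L[ℂ] H) + lam e (lS {w}) + (lam e (lS {w}) + 1) =
      (2 : ℂ) • (1 + lam e (lS {w})) := by
    rw [two_smul]; abel
  rw [this, smul_smul]
  norm_num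

lemma star_pw (w : W) : star (pw e w) = pw e w := by
  unfold pw
  rw [star_smul, star_add, star_one, star_lam, lS_inv]
  simp

lemma Uw_pw (w : W) : Uw e w * pw e w * Uw e w = 1 - pw e w := by
  unfold pw
  rw [mul_smul_comm, smul_mul_assoc, mul_add, mul_one, add_mul, Uw_sq, Uw_lam_self, neg_mul,
    mul_assoc, Uw_sq, mul_one]
  have : (1 : H →L[ℂ] H) = (2:ℂ)⁻¹ • (1 + 1) := by
    rw [← two_smul ℂ (1 : H →L[ℂ] H), smul_smul]; norm_num
  nth_rewrite 2 [this]
  rw [← smul_sub]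
  congr 1
  abel

lemma norm_sq_pw (w : W) (u : H) : ‖u‖ ^ 2 = ‖pw e w u‖ ^ 2 + ‖(1 - pw e w) u‖ ^ 2 := by
  have h1 : ⟪pw e w u, (1 - pw e w) u⟫_ℂ = 0 := by
    rw [← star_pw, ContinuousLinearMap.star_eq_adjoint, ContinuousLinearMap.adjoint_inner_left,
      ← ContinuousLinearMap.star_eq_adjoint, star_pw, ← ContinuousLinearMap.mul_apply, mul_sub,
      mul_one, pw_sq, sub_self]
    simp
  have h2 : u = pw e w u + (1 - pw e w) u := by
    simp
  conv_lhs => rw [h2]
  have := norm_add_sq_eq_norm_sq_add_norm_sq_of_inner_eq_zero (𝕜 := ℂ) _ _ h1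
  simpa [sq] using this

variable {e} in
/-- Compressing by `p_w` does not decrease the norm of an operator commuting with `U_w`. -/
lemma norm_le_pw {R : H →L[ℂ] H} (hR : R ∈ vN e) {w : W} (hw : Uw e w * R = R * Uw e w) :
    ‖R‖ ≤ ‖R * pw e w‖ := by
  set c := ‖R * pw e w‖ with hc
  apply ContinuousLinearMap.opNorm_le_bound _ (norm_nonneg _)
  intro u
  apply le_of_sq_le_sq _ (by positivity)
  rw [norm_sq_pw e w (R u), mul_pow, norm_sq_pw e w u, mul_add]
  have h1 : pw e w (R u) = (R * pw e w) (pw e w u) := by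
    have : pw e w * R = R * pw e w * pw e w := by
      rw [pw_comm w hR, mul_assoc, pw_sq]
    exact congrArg (fun T => T u) this
  have h2 : (1 - pw e w) (R u) = Uw e w ((R * pw e w) (Uw e w ((1 - pw e w) u))) := by
    have e1 : (1 - pw e w) * (1 - pw e w) = 1 - pw e w := by
      rw [mul_sub, mul_one, sub_mul, one_mul, pw_sq, sub_self, sub_zero]
    have e2 : (1 - pw e w) * R = R * (1 - pw e w) := by
      rw [sub_mul, mul_sub, one_mul, mul_one, pw_comm w hR]
    have : (1 - pw e w) * R = Uw e w * (R * pw e w * (Uw e w * (1 - pw e w))) := by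
      calc (1 - pw e w) * R = R * (1 - pw e w) := e2
        _ = R * ((1 - pw e w) * (1 - pw e w)) := by rw [e1]
        _ = R * ((Uw e w * pw e w * Uw e w) * (1 - pw e w)) := by rw [Uw_pw]
        _ = (R * Uw e w) * (pw e w * (Uw e w * (1 - pw e w))) := by
            simp only [mul_assoc]
        _ = (Uw e w * R) * (pw e w * (Uw e w * (1 - pw e w))) := by rw [hw]
        _ = _ := by simp only [mul_assoc]
    exact congrArg (fun T => T u) this
  rw [h1, h2, norm_Uw_apply]
  have h3 : ‖(R * pw e w) (pw e w u)‖ ≤ c * ‖pw e w u‖ := (R * pw e w).le_opNorm _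
  have h4 : ‖(R * pw e w) (Uw e w ((1 - pw e w) u))‖ ≤ c * ‖(1 - pw e w) u‖ := by
    refine ((R * pw e w).le_opNorm _).trans ?_
    rw [norm_Uw_apply]
  rw [← mul_pow, ← mul_pow]
  gcongr

variable {e} in
lemma norm_le_qZ {R : H →L[ℂ] H} (hR : R ∈ vN e) {Z : Finset W}
    (hZ : ∀ w ∈ Z, Uw e w * R = R * Uw e w) : ‖R‖ ≤ ‖R * qZ e Z‖ := by
  induction Z using Finset.induction_on with
  | empty =>
    have : qZ e (∅ : Finset W) = 1 := by
      unfold qZ
      simp [lS_empty, lam_one]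
    rw [this, mul_one]
  | insert w Z hw ih =>
    rw [qZ_insert e hw, ← mul_assoc]
    refine (ih fun w' hw' => hZ w' (Finset.mem_insert_of_mem hw')).trans ?_
    apply norm_le_pw (mul_mem hR (qZ_mem e Z))
    rw [← mul_assoc, hZ w (Finset.mem_insert_self _ _), mul_assoc, Uw_qZ e hw, mul_assoc]

end Pool.Helper40.Haagerup
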