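import Pool.Agent.Helper40.Haagerup.AlgB

/-!
The subalgebra `B`: elimination of coordinates and separability.
-/

noncomputable section

open scoped InnerProductSpace ComplexOrder symmDiff Pointwise
open Filter Topology TopologicalSpace

namespace Pool.Helper40.Haagerup

variable {α W : Type} [DecidableEq α] [DecidableEq W]
variable {H : Type} [NormedAddCommGroup H] [InnerProductSpace ℂ H] [CompleteSpace H]
variable (e : HilbertBasis (Lamp α W) ℂ H) (T : W → (H →L[ℂ] H))

/-- Generators with coordinates in `C`. -/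
def gens (C : Set W) : Set (H →L[ℂ] H) :=
  {S | ∃ x : Lamp α W, (x.S : Set W) ⊆ C ∧ S = lam e x} ∪ {S | ∃ w ∈ C, S = T w * xw e w}

/-- The star algebra generated by the generators with coordinates in `C`. -/
def algC (C : Set W) : StarSubalgebra ℂ (H →L[ℂ] H) := StarAlgebra.adjoin ℂ (gens e T C)

/-- The closed algebra `B`. -/
def algB : StarSubalgebra ℂ (H →L[ℂ] H) := (algC e T Set.univ).topologicalClosure

lemma lam_mem_algC {C : Set W} {x : Lamp α W} (hx : (x.S : Set W) ⊆ C) : lam e x ∈ algC e T C :=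
  StarAlgebra.subset_adjoin ℂ _ (Or.inl ⟨x, hx, rfl⟩)

lemma Txw_mem_algC {C : Set W} {w : W} (hw : w ∈ C) : T w * xw e w ∈ algC e T C :=
  StarAlgebra.subset_adjoin ℂ _ (Or.inr ⟨w, hw, rfl⟩)

lemma lam_mem_algB (x : Lamp α W) : lam e x ∈ algB e T :=
  StarSubalgebra.le_topologicalClosure _ (lam_mem_algC e T (Set.subset_univ _))

lemma Txw_mem_algB (w : W) : T w * xw e w ∈ algB e T :=
  StarSubalgebra.le_topologicalClosure _ (Txw_mem_algC e T (Set.mem_univ _))

variable {T}

lemma algC_le_vN (hT : ∀ w, T w ∈ vN e) (C : Set W) : algC e T C ≤ vN e := by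
  apply StarAlgebra.adjoin_le
  rintro _ (⟨x, _, rfl⟩ | ⟨w, _, rfl⟩)
  · exact lam_mem x
  · exact mul_mem (hT w) (xw_mem e w)

lemma algB_le_vN (hT : ∀ w, T w ∈ vN e) : algB e T ≤ vN e :=
  StarSubalgebra.topologicalClosure_minimal (algC_le_vN e hT _) (isClosed_vN e)

lemma lam_mem_NC {C : Set W} {x : Lamp α W} (hx : (x.S : Set W) ⊆ C) : lam e x ∈ NC e C := by
  refine ⟨lam_mem x, fun w hw => ?_⟩
  apply commute_of_supp (lam_mem x)
  intro z hz
  unfold co
  rw [lam_apply, mul_one]
  classical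
  rw [orthonormal_iff_ite.mp e.orthonormal, if_neg]
  rintro rfl
  exact hw (hx hz)

lemma xw_mem_NC {C : Set W} {w : W} (hw : w ∈ C) : xw e w ∈ NC e C := by
  unfold xw
  apply SMulMemClass.smul_mem
  apply sub_mem (one_mem _)
  apply lam_mem_NC
  simpa [lS] using hw

lemma NC_mono {C C' : Set W} (h : C ⊆ C') : NC e C ≤ NC e C' := by
  rintro R ⟨h1, h2⟩
  exact ⟨h1, fun w hw => h2 w (fun h' => hw (h h'))⟩

lemma algC_le_NC (hT : ∀ w, T w ∈ NC e ∅) (C : Set W) : algC e T C ≤ NC e C := by
  apply StarAlgebra.adjoin_le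
  rintro _ (⟨x, hx, rfl⟩ | ⟨w, hw, rfl⟩)
  · exact lam_mem_NC e hx
  · exact mul_mem (NC_mono e (Set.empty_subset _) (hT w)) (xw_mem_NC e hw)

lemma elim_mono {Z Z' : Finset W} (h : Z ⊆ Z') {P P' : H →L[ℂ] H}
    (hP : P * qZ e Z = P' * qZ e Z) : P * qZ e Z' = P' * qZ e Z' := by
  rw [← qZ_mul_qZ e h, ← mul_assoc, hP, mul_assoc]

/-- Elimination of the coordinates outside `C`. -/
lemma elimination (hT : ∀ w, T w ∈ vN e) (C : Set W) {P : H →L[ℂ] H}
    (hP : P ∈ algC e T Set.univ) :
    ∃ Z : Finset W, (∀ w ∈ Z, w ∉ C) ∧ ∃ P' ∈ algC e T C, P * qZ e Z = P' * qZ e Z := by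
  classical
  unfold algC at hP
  induction hP using StarAlgebra.adjoin_induction with
  | mem P hP =>
    rcases hP with ⟨x, _, rfl⟩ | ⟨w, _, rfl⟩
    · refine ⟨x.S.filter (fun w => w ∉ C), fun w hw => (Finset.mem_filter.mp hw).2,
        lam e ⟨x.A, x.g, x.S.filter (fun w => w ∈ C)⟩, lam_mem_algC e T ?_, ?_⟩
      · intro w hw
        simp only [Finset.coe_filter, Set.mem_setOf_eq] at hw
        exact hw.2
      · have h1 : x = ⟨x.A, x.g, x.S.filter (fun w => w ∈ C)⟩ *
            lS (x.S.filter (fun w => w ∉ C)) := by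
          ext1
          · simp only [lS, Lamp.mul_A, Finset.smul_finset_empty]
            exact (symmDiff_bot _).symm
          · simp [lS]
          · simp only [lS, Lamp.mul_S]
            ext w
            simp only [Finset.mem_symmDiff, Finset.mem_filter]
            tauto
        have h2 : lam e x = lam e (⟨x.A, x.g, x.S.filter (fun w => w ∈ C)⟩ : Lamp α W) *
            lam e (lS (x.S.filter (fun w => w ∉ C))) := by
          rw [← lam_mul]
          exact congrArg (lam e) h1
        rw [h2, mul_assoc, lam_lS_qZ e (le_refl _)]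
    · by_cases hw : w ∈ C
      · exact ⟨∅, by simp, T w * xw e w, Txw_mem_algC e T hw, rfl⟩
      · refine ⟨{w}, by simpa using hw, 0, zero_mem _, ?_⟩
        rw [mul_assoc, xw_qZ e (Finset.mem_singleton_self w), mul_zero, zero_mul]
  | algebraMap c =>
    exact ⟨∅, by simp, algebraMap ℂ _ c, algebraMap_mem _ c, rfl⟩
  | add P Q _ _ hP hQ =>
    obtain ⟨Z, hZ, P', hP', h1⟩ := hP
    obtain ⟨Y, hY, Q', hQ', h2⟩ := hQ
    refine ⟨Z ∪ Y, ?_, P' + Q', add_mem hP' hQ', ?_⟩
    · intro w hw
      rcases Finset.mem_union.mp hw with h | h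
      · exact hZ w h
      · exact hY w h
    · rw [add_mul, add_mul, elim_mono e Finset.subset_union_left h1,
        elim_mono e Finset.subset_union_right h2]
  | mul P Q hP0 _ hP hQ =>
    obtain ⟨Z, hZ, P', hP', h1⟩ := hP
    obtain ⟨Y, hY, Q', hQ', h2⟩ := hQ
    refine ⟨Z ∪ Y, ?_, P' * Q', mul_mem hP' hQ', ?_⟩
    · intro w hw
      rcases Finset.mem_union.mp hw with h | h
      · exact hZ w h
      · exact hY w h
    · have e1 := elim_mono e Finset.subset_union_left h1 (Z' := Z ∪ Y)
      have e2 := elim_mono e Finset.subset_union_right h2 (Z' := Z ∪ Y)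
      have e3 := qZ_comm (e := e) (Z ∪ Y) (algC_le_vN e hT C hQ')
      rw [mul_assoc, e2, ← e3, ← mul_assoc, e1, mul_assoc, e3, ← mul_assoc]
  | star P hP0 hP =>
    obtain ⟨Z, hZ, P', hP', h1⟩ := hP
    refine ⟨Z, hZ, star P', star_mem hP', ?_⟩
    have e1 := qZ_comm (e := e) Z (algC_le_vN e hT Set.univ hP0)
    have e2 := qZ_comm (e := e) Z (algC_le_vN e hT C hP')
    have h2 := congrArg star h1
    rw [star_mul, star_mul, star_qZ] at h2
    rw [← qZ_comm (e := e) Z (star_mem (algC_le_vN e hT Set.univ hP0)),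
      ← qZ_comm (e := e) Z (star_mem (algC_le_vN e hT C hP'))]
    exact h2

lemma mem_closure_algC (hT : ∀ w, T w ∈ NC e ∅) {C : Set W} {R : H →L[ℂ] H}
    (hR : R ∈ algB e T) (hRC : R ∈ NC e C) : R ∈ closure (algC e T C : Set (H →L[ℂ] H)) := by
  rw [Metric.mem_closure_iff]
  intro ε hε
  have hR' : R ∈ closure (algC e T Set.univ : Set (H →L[ℂ] H)) := by
    rw [← StarSubalgebra.topologicalClosure_coe]; exact hR
  rw [Metric.mem_closure_iff] at hR'
  obtain ⟨P, hP, hPR⟩ := hR' ε hε
  obtain ⟨Z, hZ, P', hP', h1⟩ := elimination e (fun w => (hT w).1) C hP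
  refine ⟨P', hP', ?_⟩
  rw [dist_eq_norm] at hPR ⊢
  have h2 : R - P' ∈ NC e C := sub_mem hRC (algC_le_NC e hT C hP')
  calc ‖R - P'‖ ≤ ‖(R - P') * qZ e Z‖ := norm_le_qZ h2.1 fun w hw => h2.2 w (hZ w hw)
    _ = ‖(R - P) * qZ e Z‖ := by rw [sub_mul, sub_mul, h1]
    _ ≤ ‖R - P‖ * ‖qZ e Z‖ := norm_mul_le _ _
    _ ≤ ‖R - P‖ * 1 := by gcongr; exact norm_qZ_le e Z
    _ = ‖R - P‖ := mul_one _
    _ < ε := hPR

lemma countable_closure_of_countable {M : Type*} [Monoid M] {s : Set M} (hs : s.Countable) :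
    ((Submonoid.closure s : Submonoid M) : Set M).Countable := by
  haveI := hs.to_subtype
  have h1 : ((Submonoid.closure s : Submonoid M) : Set M) ⊆
      Set.range (fun l : List s => (l.map Subtype.val).prod) := by
    intro x hx
    obtain ⟨l, hl, rfl⟩ := Submonoid.exists_list_of_mem_closure hx
    refine ⟨l.attach.map (fun y => ⟨y.1, hl y.1 y.2⟩), ?_⟩
    simp [List.map_map, Function.comp_def]
  exact (Set.countable_range _).mono h1

lemma countable_gens [Countable α] {C : Set W} (hC : C.Countable) : (gens e T C).Countable := by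
  classical
  haveI := hC.to_subtype
  haveI : Countable (FreeGroup α) := by
    have : Function.Injective (FreeGroup.toWord : FreeGroup α → List (α × Bool)) :=
      FreeGroup.toWord_injective
    exact this.countable
  apply Set.Countable.union
  · have h1 : {S | ∃ x : Lamp α W, (x.S : Set W) ⊆ C ∧ S = lam e x} ⊆
        Set.range (fun p : (Finset (FreeGroup α) × FreeGroup α) × Finset C =>
          lam e (⟨p.1.1, p.1.2, p.2.map (Function.Embedding.subtype _)⟩ : Lamp α W)) := by
      rintro _ ⟨x, hx, rfl⟩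
      refine ⟨((x.A, x.g), x.S.subtype (· ∈ C)), ?_⟩
      simp only
      congr 1
      ext1
      · rfl
      · rfl
      · ext w
        simp only [Finset.subtype_map, Finset.mem_filter]
        exact ⟨fun h => h.1, fun h => ⟨h, hx h⟩⟩
    exact (Set.countable_range _).mono h1
  · have h1 : {S | ∃ w ∈ C, S = T w * xw e w} ⊆ (fun w => T w * xw e w) '' C := by
      rintro _ ⟨w, hw, rfl⟩
      exact ⟨w, hw, rfl⟩
    exact (hC.image _).mono h1

lemma isSeparable_algC [Countable α] {C : Set W} (hC : C.Countable) :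
    IsSeparable (closure (algC e T C : Set (H →L[ℂ] H))) := by
  apply IsSeparable.closure
  have h1 : (algC e T C : Set (H →L[ℂ] H)) =
      (Submodule.span ℂ (Submonoid.closure (gens e T C ∪ star (gens e T C)) :
        Set (H →L[ℂ] H)) : Set (H →L[ℂ] H)) := by
    have : (algC e T C).toSubalgebra = Algebra.adjoin ℂ (gens e T C ∪ star (gens e T C)) := rfl
    have h2 : (algC e T C : Set (H →L[ℂ] H)) =
        (Algebra.adjoin ℂ (gens e T C ∪ star (gens e T C)) : Set (H →L[ℂ] H)) := by
      rw [← this]; rfl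
    rw [h2, ← Subalgebra.coe_toSubmodule, Algebra.adjoin_eq_span]
  rw [h1]
  apply IsSeparable.span
  apply Set.Countable.isSeparable
  apply countable_closure_of_countable
  apply (countable_gens e hC).union
  have : star (gens e T C) = star '' (gens e T C) := Set.image_star.symm
  rw [this]
  exact (countable_gens e hC).image _

end Pool.Helper40.Haagerup
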