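import Mathlib

/-!
Positive definite functions on a group and the associated semi-inner product.
-/

noncomputable section

open scoped InnerProductSpace ComplexOrder

namespace Pool.Helper40.Haagerup

variable {G : Type} [Group G]

/-- The sesquilinear form of a function on a group. -/
def pdForm (φ : G → ℂ) (u v : G →₀ ℂ) : ℂ :=
  u.sum fun x c => v.sum fun y d => (starRingEnd ℂ) c * d * φ (x⁻¹ * y)

/-- Positive definite functions. -/
def IsPD (φ : G → ℂ) : Prop := ∀ u : G →₀ ℂ, 0 ≤ pdForm φ u u

lemma pdForm_add_left (φ : G → ℂ) (u u' v : G →₀ ℂ) :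
    pdForm φ (u + u') v = pdForm φ u v + pdForm φ u' v := by
  unfold pdForm
  rw [Finsupp.sum_add_index']
  · intro x; simp
  · intro x c c'
    rw [← Finsupp.sum_add]
    apply Finsupp.sum_congr
    intro y _
    rw [map_add]; ring

lemma pdForm_add_right (φ : G → ℂ) (u v v' : G →₀ ℂ) :
    pdForm φ u (v + v') = pdForm φ u v + pdForm φ u v' := by
  unfold pdForm
  rw [← Finsupp.sum_add]
  apply Finsupp.sum_congr
  intro x _
  rw [Finsupp.sum_add_index']
  · intro y; simp
  · intro y d d'; ring

lemma pdForm_smul_left (φ : G → ℂ) (u v : G →₀ ℂ) (r : ℂ) :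
    pdForm φ (r • u) v = (starRingEnd ℂ) r * pdForm φ u v := by
  unfold pdForm
  rw [Finsupp.sum_smul_index', Finsupp.mul_sum]
  · apply Finsupp.sum_congr
    intro x _
    rw [Finsupp.mul_sum]
    apply Finsupp.sum_congr
    intro y _
    rw [smul_eq_mul, map_mul]; ring
  · intro x; simp

lemma pdForm_smul_right (φ : G → ℂ) (u v : G →₀ ℂ) (r : ℂ) :
    pdForm φ u (r • v) = r * pdForm φ u v := by
  unfold pdForm
  rw [Finsupp.mul_sum]
  apply Finsupp.sum_congr
  intro x _
  rw [Finsupp.sum_smul_index', Finsupp.mul_sum]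
  · apply Finsupp.sum_congr
    intro y _
    rw [smul_eq_mul]; ring
  · intro y; simp

lemma pdForm_single (φ : G → ℂ) (x y : G) (c d : ℂ) :
    pdForm φ (Finsupp.single x c) (Finsupp.single y d) =
      (starRingEnd ℂ) c * d * φ (x⁻¹ * y) := by
  unfold pdForm
  rw [Finsupp.sum_single_index (by simp), Finsupp.sum_single_index (by simp)]

lemma IsPD.phi_one {φ : G → ℂ} (h : IsPD φ) : 0 ≤ φ 1 := by
  have := h (Finsupp.single 1 1)
  rw [pdForm_single] at this
  simpa using this

lemma IsPD.hermitian {φ : G → ℂ} (h : IsPD φ) (x : G) : φ x⁻¹ = (starRingEnd ℂ) (φ x) := by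
  have h0 := h.phi_one
  have key : ∀ c : ℂ, 0 ≤ ((starRingEnd ℂ) c * c + 1) * φ 1 + (starRingEnd ℂ) c * φ x +
      c * φ x⁻¹ := by
    intro c
    have h1 := h (Finsupp.single 1 c + Finsupp.single x 1)
    rw [pdForm_add_left, pdForm_add_right, pdForm_add_right, pdForm_single, pdForm_single,
      pdForm_single, pdForm_single] at h1
    simp only [inv_one, one_mul, mul_one, map_one, inv_mul_cancel] at h1
    convert h1 using 1
    ring
  have k1 := (Complex.nonneg_iff.mp (key 1)).2
  have k2 := (Complex.nonneg_iff.mp (key Complex.I)).2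
  have h0' := (Complex.nonneg_iff.mp h0).2
  apply Complex.ext
  · simp [← h0'] at k2
    simp
    linarith
  · simp [← h0'] at k1
    simp
    linarith

lemma pdForm_conj {φ : G → ℂ} (h : IsPD φ) (u v : G →₀ ℂ) :
    (starRingEnd ℂ) (pdForm φ v u) = pdForm φ u v := by
  unfold pdForm
  simp only [Finsupp.sum, map_sum, map_mul, Complex.conj_conj]
  rw [Finset.sum_comm]
  refine Finset.sum_congr rfl fun x _ => Finset.sum_congr rfl fun y _ => ?_
  rw [← h.hermitian, mul_inv_rev, inv_inv]
  ring

/-- The semi-inner product space of a positive definite function. -/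
def PDSpace (φ : G → ℂ) (_ : IsPD φ) : Type := G →₀ ℂ

variable {φ : G → ℂ} (h : IsPD φ)

instance : AddCommGroup (PDSpace φ h) := inferInstanceAs (AddCommGroup (G →₀ ℂ))
instance : Module ℂ (PDSpace φ h) := inferInstanceAs (Module ℂ (G →₀ ℂ))

noncomputable abbrev pdCore : PreInnerProductSpace.Core ℂ (PDSpace φ h) where
  inner u v := pdForm φ u v
  conj_inner_symm u v := pdForm_conj h u v
  re_inner_nonneg u := (Complex.nonneg_iff.mp (h u)).1
  add_left u v w := pdForm_add_left φ u v w
  smul_left u v r := pdForm_smul_left φ u v r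

noncomputable instance : SeminormedAddCommGroup (PDSpace φ h) :=
  InnerProductSpace.Core.toSeminormedAddCommGroup (c := pdCore h)
noncomputable instance : InnerProductSpace ℂ (PDSpace φ h) :=
  InnerProductSpace.ofCore (pdCore h)

/-- Basis vectors. -/
def pdVec (x : G) : PDSpace φ h := (Finsupp.single x 1 : G →₀ ℂ)

lemma inner_pdVec (x y : G) : ⟪pdVec h x, pdVec h y⟫_ℂ = φ (x⁻¹ * y) := by
  have : ⟪pdVec h x, pdVec h y⟫_ℂ = pdForm φ (Finsupp.single x 1) (Finsupp.single y 1) := rfl
  rw [this, pdForm_single]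
  simp

end Pool.Helper40.Haagerup
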