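import Mathlib

/-!
Fourier analysis on the finite groups of subsets of a finite set.
-/

noncomputable section

open scoped symmDiff
open Finset

namespace Pool.Helper40.Haagerup

variable {Γ : Type} [DecidableEq Γ]

/-- The character `(-1)^|A ∩ σ|`. -/
def sgn (A σ : Finset Γ) : ℝ := (-1) ^ (A ∩ σ).card

lemma sgn_comm (A σ : Finset Γ) : sgn A σ = sgn σ A := by
  unfold sgn; rw [inter_comm]

@[simp] lemma sgn_empty_left (σ : Finset Γ) : sgn ∅ σ = 1 := by simp [sgn]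

@[simp] lemma sgn_empty_right (A : Finset Γ) : sgn A ∅ = 1 := by simp [sgn]

lemma sgn_mul_self (A σ : Finset Γ) : sgn A σ * sgn A σ = 1 := by
  unfold sgn
  rw [← mul_pow]; norm_num

lemma abs_sgn (A σ : Finset Γ) : |sgn A σ| = 1 := by
  unfold sgn
  rw [abs_pow]; norm_num

lemma card_inter_symmDiff (A B σ : Finset Γ) :
    ((A ∆ B) ∩ σ).card + 2 * (A ∩ B ∩ σ).card = (A ∩ σ).card + (B ∩ σ).card := by
  have h1 : (A ∆ B) ∩ σ = (A ∩ σ) ∆ (B ∩ σ) := by
    ext z; simp only [mem_inter, mem_symmDiff]; tauto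
  have h2 : A ∩ B ∩ σ = (A ∩ σ) ∩ (B ∩ σ) := by
    ext z; simp only [mem_inter]; tauto
  rw [h1, h2]
  set P := A ∩ σ
  set Q := B ∩ σ
  have e1 : (P ∆ Q).card = (P \ Q).card + (Q \ P).card := by
    rw [Finset.symmDiff_def]
    exact Finset.card_union_of_disjoint disjoint_sdiff_sdiff
  have e2 := Finset.card_sdiff_add_card_inter P Q
  have e3 := Finset.card_sdiff_add_card_inter Q P
  rw [Finset.inter_comm Q P] at e3
  omega

lemma sgn_symmDiff_left (A B σ : Finset Γ) : sgn (A ∆ B) σ = sgn A σ * sgn B σ := by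
  unfold sgn
  rw [← pow_add, ← card_inter_symmDiff A B σ, pow_add, pow_mul]
  norm_num

lemma sgn_symmDiff_right (A σ ρ : Finset Γ) : sgn A (σ ∆ ρ) = sgn A σ * sgn A ρ := by
  rw [sgn_comm, sgn_symmDiff_left, sgn_comm σ, sgn_comm ρ]

lemma symmDiff_mem_powerset {S A B : Finset Γ} (hA : A ⊆ S) (hB : B ⊆ S) : A ∆ B ⊆ S := by
  intro z hz
  rw [mem_symmDiff] at hz
  rcases hz with ⟨h, _⟩ | ⟨h, _⟩
  · exact hA h
  · exact hB h

lemma sum_powerset_symmDiff {M : Type*} [AddCommMonoid M] (S B : Finset Γ) (hB : B ⊆ S)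
    (h : Finset Γ → M) : ∑ A ∈ S.powerset, h (A ∆ B) = ∑ A ∈ S.powerset, h A := by
  refine Finset.sum_nbij' (fun A => A ∆ B) (fun A => A ∆ B) ?_ ?_ ?_ ?_ ?_
  · intro A hA
    rw [mem_powerset] at *
    exact symmDiff_mem_powerset hA hB
  · intro A hA
    rw [mem_powerset] at *
    exact symmDiff_mem_powerset hA hB
  · intro A _
    exact symmDiff_symmDiff_cancel_right B A
  · intro A _
    exact symmDiff_symmDiff_cancel_right B A
  · intro A _; rfl

lemma sum_sgn (S A : Finset Γ) (hA : A ⊆ S) :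
    ∑ σ ∈ S.powerset, sgn A σ = if A = ∅ then 2 ^ S.card else 0 := by
  split_ifs with h
  · subst h
    simp [card_powerset]
  · obtain ⟨a, ha⟩ := Finset.nonempty_iff_ne_empty.mpr h
    have h1 := sum_powerset_symmDiff S {a} (by simpa using hA ha) (fun σ => sgn A σ)
    have h2 : ∀ σ, sgn A (σ ∆ {a}) = - sgn A σ := by
      intro σ
      rw [sgn_symmDiff_right]
      have : sgn A {a} = -1 := by
        unfold sgn
        have : A ∩ {a} = {a} := by
          ext z; simp only [mem_inter, mem_singleton]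
          constructor
          · exact fun h => h.2
          · rintro rfl; exact ⟨ha, rfl⟩
        rw [this]; simp
      rw [this]; ring
    simp only [h2, sum_neg_distrib] at h1
    linarith

/-- Average over the subsets of `S`. -/
def avg (S : Finset Γ) (h : Finset Γ → ℝ) : ℝ := (∑ σ ∈ S.powerset, h σ) / 2 ^ S.card

lemma avg_congr {S : Finset Γ} {h k : Finset Γ → ℝ} (H : ∀ σ, σ ⊆ S → h σ = k σ) :
    avg S h = avg S k := by
  unfold avg
  congr 1
  exact Finset.sum_congr rfl fun σ hσ => H σ (mem_powerset.mp hσ)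

lemma avg_add (S : Finset Γ) (h k : Finset Γ → ℝ) :
    avg S (fun σ => h σ + k σ) = avg S h + avg S k := by
  unfold avg; rw [sum_add_distrib, add_div]

lemma avg_sub (S : Finset Γ) (h k : Finset Γ → ℝ) :
    avg S (fun σ => h σ - k σ) = avg S h - avg S k := by
  unfold avg; rw [sum_sub_distrib, sub_div]

lemma avg_const_mul (S : Finset Γ) (c : ℝ) (h : Finset Γ → ℝ) :
    avg S (fun σ => c * h σ) = c * avg S h := by
  unfold avg; rw [← mul_sum, mul_div_assoc]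

lemma avg_mul_const (S : Finset Γ) (c : ℝ) (h : Finset Γ → ℝ) :
    avg S (fun σ => h σ * c) = avg S h * c := by
  unfold avg; rw [← sum_mul]; ring

lemma avg_const (S : Finset Γ) (c : ℝ) : avg S (fun _ => c) = c := by
  unfold avg
  rw [sum_const, card_powerset, nsmul_eq_mul]
  push_cast
  field_simp

lemma avg_mono {S : Finset Γ} {h k : Finset Γ → ℝ} (H : ∀ σ, σ ⊆ S → h σ ≤ k σ) :
    avg S h ≤ avg S k := by
  unfold avg
  apply div_le_div_of_nonneg_right _ (by positivity)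
  exact Finset.sum_le_sum fun σ hσ => H σ (mem_powerset.mp hσ)

lemma avg_nonneg {S : Finset Γ} {h : Finset Γ → ℝ} (H : ∀ σ, σ ⊆ S → 0 ≤ h σ) :
    0 ≤ avg S h := by
  unfold avg
  apply div_nonneg _ (by positivity)
  exact Finset.sum_nonneg fun σ hσ => H σ (mem_powerset.mp hσ)

lemma avg_sgn (S A : Finset Γ) (hA : A ⊆ S) :
    avg S (fun σ => sgn A σ) = if A = ∅ then 1 else 0 := by
  unfold avg
  rw [sum_sgn S A hA]
  split_ifs <;> simp

lemma avg_sum {ι : Type*} (S : Finset Γ) (t : Finset ι) (h : ι → Finset Γ → ℝ) :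
    avg S (fun σ => ∑ i ∈ t, h i σ) = ∑ i ∈ t, avg S (h i) := by
  unfold avg
  rw [sum_comm, sum_div]

lemma sum_powerset_union {M : Type*} [AddCommMonoid M] {S R : Finset Γ} (hd : Disjoint S R)
    (h : Finset Γ → M) :
    ∑ σ ∈ (S ∪ R).powerset, h σ = ∑ σ ∈ S.powerset, ∑ ρ ∈ R.powerset, h (σ ∪ ρ) := by
  rw [← Finset.sum_product']
  symm
  refine Finset.sum_nbij' (fun p => p.1 ∪ p.2) (fun σ => (σ ∩ S, σ ∩ R)) ?_ ?_ ?_ ?_ ?_
  · rintro ⟨σ, ρ⟩ h
    simp only [mem_product, mem_powerset] at h ⊢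
    exact union_subset_union h.1 h.2
  · intro σ _
    simp only [mem_product, mem_powerset]
    exact ⟨inter_subset_right, inter_subset_right⟩
  · rintro ⟨σ, ρ⟩ h
    simp only [mem_product, mem_powerset] at h
    obtain ⟨h1, h2⟩ := h
    have hd' := Finset.disjoint_left.mp hd
    simp only [Prod.mk.injEq]
    constructor
    · ext z
      simp only [mem_inter, mem_union]
      constructor
      · rintro ⟨h3 | h3, h4⟩
        · exact h3
        · exact absurd (h2 h3) (hd' h4)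
      · intro h3; exact ⟨Or.inl h3, h1 h3⟩
    · ext z
      simp only [mem_inter, mem_union]
      constructor
      · rintro ⟨h3 | h3, h4⟩
        · exact absurd h4 (hd' (h1 h3))
        · exact h3
      · intro h3; exact ⟨Or.inr h3, h2 h3⟩
  · intro σ hσ
    rw [mem_powerset] at hσ
    simp only
    rw [← inter_union_distrib_left]
    exact inter_eq_left.mpr hσ
  · rintro ⟨σ, ρ⟩ _; rfl

lemma avg_union {S R : Finset Γ} (hd : Disjoint S R) (h : Finset Γ → ℝ) :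
    avg (S ∪ R) h = avg S (fun σ => avg R (fun ρ => h (σ ∪ ρ))) := by
  unfold avg
  rw [sum_powerset_union hd, card_union_of_disjoint hd, pow_add, ← sum_div, div_div, mul_comm]

lemma sgn_union {S R A₁ A₂ σ ρ : Finset Γ} (hd : Disjoint S R) (h1 : A₁ ⊆ S) (h2 : A₂ ⊆ R)
    (h3 : σ ⊆ S) (h4 : ρ ⊆ R) : sgn (A₁ ∪ A₂) (σ ∪ ρ) = sgn A₁ σ * sgn A₂ ρ := by
  unfold sgn
  rw [← pow_add]
  congr 1
  have e1 : (A₁ ∪ A₂) ∩ (σ ∪ ρ) = (A₁ ∩ σ) ∪ (A₂ ∩ ρ) := by
    have hd' := Finset.disjoint_left.mp hd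
    ext z
    simp only [mem_inter, mem_union]
    constructor
    · rintro ⟨h5 | h5, h6 | h6⟩
      · exact Or.inl ⟨h5, h6⟩
      · exact absurd (h4 h6) (hd' (h1 h5))
      · exact absurd (h2 h5) (hd' (h3 h6))
      · exact Or.inr ⟨h5, h6⟩
    · rintro (⟨h5, h6⟩ | ⟨h5, h6⟩)
      · exact ⟨Or.inl h5, Or.inl h6⟩
      · exact ⟨Or.inr h5, Or.inr h6⟩
  rw [e1, card_union_of_disjoint]
  exact Finset.disjoint_of_subset_left (inter_subset_left.trans h1)
    (Finset.disjoint_of_subset_right (inter_subset_left.trans h2) hd)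

/-- The functions `f_S`. -/
def fS (ψ : Finset Γ → ℝ) (S σ : Finset Γ) : ℝ := ∑ A ∈ S.powerset, sgn A σ * ψ A

lemma avg_fS (ψ : Finset Γ → ℝ) {S R : Finset Γ} (hd : Disjoint S R) {σ : Finset Γ}
    (hσ : σ ⊆ S) : avg R (fun ρ => fS ψ (S ∪ R) (σ ∪ ρ)) = fS ψ S σ := by
  have h1 : ∀ ρ, ρ ⊆ R → fS ψ (S ∪ R) (σ ∪ ρ) =
      ∑ A₁ ∈ S.powerset, ∑ A₂ ∈ R.powerset, sgn A₁ σ * ψ (A₁ ∪ A₂) * sgn A₂ ρ := by
    intro ρ hρ
    unfold fS
    rw [sum_powerset_union hd]
    refine sum_congr rfl fun A₁ hA₁ => sum_congr rfl fun A₂ hA₂ => ?_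
    rw [mem_powerset] at hA₁ hA₂
    rw [sgn_union hd hA₁ hA₂ hσ hρ]; ring
  rw [avg_congr h1, avg_sum]
  unfold fS
  refine sum_congr rfl fun A₁ _ => ?_
  rw [avg_sum]
  rw [Finset.sum_eq_single ∅]
  · rw [avg_const_mul, avg_sgn R ∅ (empty_subset _)]
    simp
  · intro A₂ hA₂ hne
    rw [avg_const_mul, avg_sgn R A₂ (mem_powerset.mp hA₂), if_neg hne, mul_zero]
  · intro h; exact absurd (empty_mem_powerset R) h

lemma avg_fS_total (ψ : Finset Γ → ℝ) (S : Finset Γ) : avg S (fS ψ S) = ψ ∅ := by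
  have h := avg_fS ψ (S := ∅) (R := S) (disjoint_empty_left S) (σ := ∅) (empty_subset _)
  simp only [empty_union] at h
  rw [show (fun ρ => fS ψ S ρ) = fS ψ S from rfl] at h
  rw [h]
  simp [fS]

/-- Fourier inversion. -/
lemma avg_sgn_fS (ψ : Finset Γ → ℝ) (S B : Finset Γ) (hB : B ⊆ S) :
    avg S (fun σ => sgn B σ * fS ψ S σ) = ψ B := by
  have h1 : ∀ σ, σ ⊆ S → sgn B σ * fS ψ S σ = ∑ A ∈ S.powerset, ψ A * sgn (A ∆ B) σ := by
    intro σ _
    unfold fS
    rw [mul_sum]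
    refine sum_congr rfl fun A _ => ?_
    rw [sgn_symmDiff_left]; ring
  rw [avg_congr h1, avg_sum, Finset.sum_eq_single B]
  · rw [avg_const_mul, symmDiff_self, bot_eq_empty]
    have h0 : (sgn (∅ : Finset Γ) : Finset Γ → ℝ) = fun _ => 1 := by
      funext σ; exact sgn_empty_left σ
    rw [h0, avg_const, mul_one]
  · intro A hA hne
    rw [avg_const_mul, avg_sgn S _ (symmDiff_mem_powerset (mem_powerset.mp hA) hB), if_neg,
      mul_zero]
    intro h
    exact hne (symmDiff_eq_bot.mp h)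
  · intro h; exact absurd (mem_powerset.mpr hB) h

/-- Fourier coefficients. -/
def ft (S : Finset Γ) (h : Finset Γ → ℝ) (A : Finset Γ) : ℝ := avg S (fun σ => sgn A σ * h σ)

lemma ft_sub (S : Finset Γ) (h k : Finset Γ → ℝ) (A : Finset Γ) :
    ft S (fun σ => h σ - k σ) A = ft S h A - ft S k A := by
  unfold ft
  rw [← avg_sub]
  exact avg_congr fun σ _ => by ring

lemma parseval (S : Finset Γ) (h k : Finset Γ → ℝ) :
    ∑ A ∈ S.powerset, ft S h A * ft S k A = avg S (fun σ => h σ * k σ) := by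
  unfold ft avg
  have h1 : ∀ A ∈ S.powerset, (∑ σ ∈ S.powerset, sgn A σ * h σ) / 2 ^ S.card *
      ((∑ σ ∈ S.powerset, sgn A σ * k σ) / 2 ^ S.card) =
      (∑ σ ∈ S.powerset, ∑ ρ ∈ S.powerset, h σ * k ρ * sgn (σ ∆ ρ) A) /
        (2 ^ S.card * 2 ^ S.card) := by
    intro A _
    rw [div_mul_div_comm, sum_mul_sum]
    congr 1
    refine sum_congr rfl fun σ _ => sum_congr rfl fun ρ _ => ?_
    rw [sgn_symmDiff_left, sgn_comm σ, sgn_comm ρ]; ring
  rw [sum_congr rfl h1, ← sum_div, sum_comm]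
  have h2 : ∀ σ ∈ S.powerset, ∑ A ∈ S.powerset, ∑ ρ ∈ S.powerset, h σ * k ρ * sgn (σ ∆ ρ) A =
      h σ * k σ * 2 ^ S.card := by
    intro σ hσ
    rw [sum_comm, Finset.sum_eq_single σ]
    · rw [← mul_sum, symmDiff_self, bot_eq_empty, sum_sgn S _ (empty_subset _)]
      simp
    · intro ρ hρ hne
      rw [← mul_sum, sum_sgn S _ (symmDiff_mem_powerset (mem_powerset.mp hσ)
        (mem_powerset.mp hρ)), if_neg, mul_zero]
      intro h
      exact hne (symmDiff_eq_bot.mp h).symm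
    · intro h; exact absurd hσ h
  rw [sum_congr rfl h2, ← sum_mul]
  rw [mul_div_mul_right]
  positivity

lemma ft_restrict {S R : Finset Γ} (hd : Disjoint S R) (h k : Finset Γ → ℝ)
    (hk : ∀ σ ρ, σ ⊆ S → ρ ⊆ R → h (σ ∪ ρ) = k σ) {A₁ A₂ : Finset Γ} (h1 : A₁ ⊆ S)
    (h2 : A₂ ⊆ R) : ft (S ∪ R) h (A₁ ∪ A₂) = if A₂ = ∅ then ft S k A₁ else 0 := by
  unfold ft
  rw [avg_union hd]
  have h3 : ∀ σ, σ ⊆ S → avg R (fun ρ => sgn (A₁ ∪ A₂) (σ ∪ ρ) * h (σ ∪ ρ)) =
      sgn A₁ σ * k σ * (if A₂ = ∅ then 1 else 0) := by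
    intro σ hσ
    rw [← avg_sgn R A₂ h2, ← avg_const_mul]
    apply avg_congr
    intro ρ hρ
    rw [sgn_union hd h1 h2 hσ hρ, hk σ ρ hσ hρ]; ring
  rw [avg_congr h3, avg_mul_const]
  split_ifs <;> simp

lemma sum_sq_avg_le (S : Finset Γ) (h : Finset Γ → ℝ) : avg S h ^ 2 ≤ avg S (fun σ => h σ ^ 2) := by
  have h1 : 0 ≤ avg S (fun σ => (h σ - avg S h) ^ 2) := avg_nonneg fun σ _ => sq_nonneg _
  have h2 : avg S (fun σ => (h σ - avg S h) ^ 2) = avg S (fun σ => h σ ^ 2) - avg S h ^ 2 := by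
    have : ∀ σ, σ ⊆ S → (h σ - avg S h) ^ 2 = h σ ^ 2 - (2 * avg S h * h σ - avg S h ^ 2) := by
      intro σ _; ring
    rw [avg_congr this, avg_sub, avg_sub, avg_const_mul, avg_const]; ring
  linarith

/-- Cauchy–Schwarz for averages. -/
lemma avg_mul_sq_le (S : Finset Γ) (h k : Finset Γ → ℝ) :
    avg S (fun σ => h σ * k σ) ^ 2 ≤ avg S (fun σ => h σ ^ 2) * avg S (fun σ => k σ ^ 2) := by
  unfold avg
  rw [div_pow, div_mul_div_comm, ← sq]
  apply div_le_div_of_nonneg_right _ (by positivity)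
  exact Finset.sum_mul_sq_le_sq_mul_sq _ _ _

end Pool.Helper40.Haagerup
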