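import Pool.Agent.Helper40.Haagerup.Gap
import Pool.Agent.Helper40.Haagerup.Fourier

/-!
A uniformly integrable, almost invariant family of positive functions on the finite groups of
subsets of a free group is almost constant.
-/

noncomputable section

open scoped InnerProductSpace Pointwise symmDiff
open FreeGroup

namespace Pool.Helper40.Haagerup

section Mart

variable {Γ : Type} [DecidableEq Γ]

/-- square roots -/
def hS (ψ : Finset Γ → ℝ) (S σ : Finset Γ) : ℝ := Real.sqrt (fS ψ S σ)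

lemma hS_nonneg (ψ : Finset Γ → ℝ) (S σ : Finset Γ) : 0 ≤ hS ψ S σ := Real.sqrt_nonneg _

variable {ψ : Finset Γ → ℝ} (hpos : ∀ S σ, σ ⊆ S → 0 ≤ fS ψ S σ)

include hpos

lemma hS_sq {S σ : Finset Γ} (h : σ ⊆ S) : hS ψ S σ ^ 2 = fS ψ S σ := Real.sq_sqrt (hpos S σ h)

lemma cond_le {S R : Finset Γ} (hd : Disjoint S R) {σ : Finset Γ} (hσ : σ ⊆ S) :
    avg R (fun ρ => hS ψ (S ∪ R) (σ ∪ ρ)) ≤ hS ψ S σ := by
  apply Real.le_sqrt_of_sq_le
  refine (sum_sq_avg_le R _).trans ?_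
  rw [← avg_fS ψ hd hσ]
  apply le_of_eq
  apply avg_congr
  intro ρ hρ
  exact hS_sq hpos (Finset.union_subset_union hσ hρ)

lemma union_inter_left_of {S R σ ρ : Finset Γ} (hd : Disjoint S R) (hσ : σ ⊆ S) (hρ : ρ ⊆ R) :
    (σ ∪ ρ) ∩ S = σ := by
  have hd' := Finset.disjoint_left.mp hd
  ext z
  simp only [Finset.mem_inter, Finset.mem_union]
  constructor
  · rintro ⟨h1 | h1, h2⟩
    · exact h1
    · exact absurd (hρ h1) (hd' h2)
  · intro h; exact ⟨Or.inl h, hσ h⟩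

lemma dist_formula {S R : Finset Γ} (hd : Disjoint S R) :
    avg (S ∪ R) (fun τ => (hS ψ (S ∪ R) τ - hS ψ S (τ ∩ S)) ^ 2) =
      avg S (fun σ => 2 * (hS ψ S σ *
        (hS ψ S σ - avg R (fun ρ => hS ψ (S ∪ R) (σ ∪ ρ))))) := by
  rw [avg_union hd]
  apply avg_congr
  intro σ hσ
  have h1 : ∀ ρ, ρ ⊆ R → (hS ψ (S ∪ R) (σ ∪ ρ) - hS ψ S ((σ ∪ ρ) ∩ S)) ^ 2 =
      fS ψ (S ∪ R) (σ ∪ ρ) - ((2 * hS ψ S σ) * hS ψ (S ∪ R) (σ ∪ ρ) - hS ψ S σ ^ 2) := by
    intro ρ hρ
    rw [union_inter_left_of hpos hd hσ hρ, ← hS_sq hpos (Finset.union_subset_union hσ hρ)]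
    ring
  rw [avg_congr h1, avg_sub, avg_sub, avg_fS ψ hd hσ, avg_const_mul, avg_const,
    ← hS_sq hpos hσ]
  ring

lemma avg_hS_anti {S R : Finset Γ} (hd : Disjoint S R) :
    avg (S ∪ R) (hS ψ (S ∪ R)) ≤ avg S (hS ψ S) := by
  rw [avg_union hd]
  exact avg_mono fun σ hσ => cond_le hpos hd hσ

/-- Selection of `S` by the uniform integrability. -/
lemma selection (h1 : ψ ∅ ≤ 1)
    (UI : ∀ ε > 0, ∃ δ > 0, ∀ S : Finset Γ, ∀ Q : Finset (Finset Γ), Q ⊆ S.powerset →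
      (Q.card : ℝ) / 2 ^ S.card < δ → (∑ σ ∈ Q, fS ψ S σ) / 2 ^ S.card ≤ ε)
    (x : Γ) (ε : ℝ) (hε : 0 < ε) :
    ∃ S : Finset Γ, x ∈ S ∧ ∀ T : Finset Γ, S ⊆ T →
      avg T (fun τ => (hS ψ T τ - hS ψ S (τ ∩ S)) ^ 2) ≤ ε := by
  classical
  obtain ⟨δ, hδ, hUI⟩ := UI (ε / 4) (by positivity)
  obtain ⟨K, hK0, hK⟩ : ∃ K : ℝ, 0 < K ∧ 1 / K ^ 2 < δ := by
    obtain ⟨n, hn⟩ := exists_nat_gt (1 / δ)
    have hn0 : 0 < (n : ℝ) := lt_trans (by positivity) hn
    have hn1 : 1 ≤ (n : ℝ) := by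
      have : 0 < n := by exact_mod_cast hn0
      exact_mod_cast this
    refine ⟨n, hn0, ?_⟩
    rw [div_lt_iff₀ (by positivity)]
    rw [div_lt_iff₀ hδ] at hn
    nlinarith
  -- infimum
  let I : Set ℝ := Set.range (fun S : Finset Γ => avg S (hS ψ S))
  have hIne : I.Nonempty := ⟨_, ⟨∅, rfl⟩⟩
  have hIbdd : BddBelow I := ⟨0, by
    rintro _ ⟨S, rfl⟩
    exact avg_nonneg fun σ _ => hS_nonneg _ _ _⟩
  obtain ⟨_, ⟨S₀, rfl⟩, hS₀⟩ := exists_lt_of_csInf_lt hIne
    (lt_add_of_pos_right (sInf I) (show (0:ℝ) < ε / (4 * K) by positivity))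
  have hanti : ∀ S T : Finset Γ, S ⊆ T → avg T (hS ψ T) ≤ avg S (hS ψ S) := by
    intro S T hST
    have := avg_hS_anti hpos (S := S) (R := T \ S) Finset.disjoint_sdiff
    rwa [Finset.union_sdiff_of_subset hST] at this
  refine ⟨insert x S₀, Finset.mem_insert_self _ _, ?_⟩
  intro T hT
  set S := insert x S₀ with hSdef
  have hlow : sInf I ≤ avg T (hS ψ T) := csInf_le hIbdd ⟨T, rfl⟩
  have hup : avg S (hS ψ S) ≤ avg S₀ (hS ψ S₀) := hanti _ _ (Finset.subset_insert _ _)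
  have hdiff : avg S (hS ψ S) - avg T (hS ψ T) ≤ ε / (4 * K) := by
    simp only at hS₀
    linarith
  set R := T \ S with hR
  have hd : Disjoint S R := Finset.disjoint_sdiff
  have hTSR : T = S ∪ R := (Finset.union_sdiff_of_subset hT).symm
  rw [hTSR, dist_formula hpos hd]
  set k : Finset Γ → ℝ := fun σ => avg R (fun ρ => hS ψ (S ∪ R) (σ ∪ ρ)) with hk
  set Q := S.powerset.filter (fun σ => K < hS ψ S σ) with hQ
  have hb : ∀ σ, σ ⊆ S → 2 * (hS ψ S σ * (hS ψ S σ - k σ)) ≤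
      2 * K * (hS ψ S σ - k σ) + 2 * (if σ ∈ Q then fS ψ S σ else 0) := by
    intro σ hσ
    have hk1 : k σ ≤ hS ψ S σ := cond_le hpos hd hσ
    have hk0 : 0 ≤ k σ := avg_nonneg fun ρ _ => hS_nonneg _ _ _
    have hh0 := hS_nonneg ψ S σ
    by_cases hKσ : K < hS ψ S σ
    · have : σ ∈ Q := by rw [hQ, Finset.mem_filter]; exact ⟨Finset.mem_powerset.mpr hσ, hKσ⟩
      rw [if_pos this, ← hS_sq hpos hσ]
      nlinarith
    · have : σ ∉ Q := by
        rw [hQ, Finset.mem_filter]; rintro ⟨_, h⟩; exact hKσ h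
      rw [if_neg this]
      push Not at hKσ
      nlinarith
  refine (avg_mono hb).trans ?_
  rw [avg_add, avg_const_mul, avg_const_mul, avg_sub]
  have e1 : avg S k = avg T (hS ψ T) := by
    rw [hTSR, avg_union hd]
  have e2 : avg S (fun σ => if σ ∈ Q then fS ψ S σ else 0) = (∑ σ ∈ Q, fS ψ S σ) / 2 ^ S.card := by
    unfold avg
    congr 1
    rw [← Finset.sum_filter]
    congr 1
    ext σ
    simp only [hQ, Finset.mem_filter]
    tauto
  have e3 : (Q.card : ℝ) / 2 ^ S.card < δ := by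
    refine lt_of_le_of_lt ?_ hK
    rw [le_div_iff₀ (by positivity)]
    have h2 : (Q.card : ℝ) * K ^ 2 ≤ ∑ σ ∈ Q, fS ψ S σ := by
      rw [← nsmul_eq_mul, ← Finset.sum_const]
      apply Finset.sum_le_sum
      intro σ hσ
      rw [hQ, Finset.mem_filter, Finset.mem_powerset] at hσ
      rw [← hS_sq hpos hσ.1]
      have := hσ.2
      gcongr
    have h3 : ∑ σ ∈ Q, fS ψ S σ ≤ ∑ σ ∈ S.powerset, fS ψ S σ := by
      apply Finset.sum_le_sum_of_subset_of_nonneg (Finset.filter_subset _ _)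
      intro σ hσ _
      exact hpos S σ (Finset.mem_powerset.mp hσ)
    have h4 : (∑ σ ∈ S.powerset, fS ψ S σ) / 2 ^ S.card ≤ 1 := by
      have := avg_fS_total ψ S
      unfold avg at this
      rw [this]; exact h1
    rw [div_le_one (by positivity)] at h4
    rw [div_mul_eq_mul_div, div_le_one (by positivity)]
    linarith
  have e4 := hUI S Q (Finset.filter_subset _ _) e3
  rw [e1, e2]
  have e5 : 2 * K * (avg S (hS ψ S) - avg T (hS ψ T)) ≤ 2 * K * (ε / (4 * K)) := by gcongr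
  have e6 : 2 * K * (ε / (4 * K)) = ε / 2 := by field_simp; ring
  have e7 : avg S (fun x => hS ψ S x) = avg S (hS ψ S) := rfl
  rw [e7]
  linarith

end Mart

section Vec

variable {α : Type} [DecidableEq α]
variable {K : Type} [NormedAddCommGroup K] [InnerProductSpace ℂ K] [CompleteSpace K]

/-- The vector of Fourier coefficients. -/
def vS (f : HilbertBasis (Finset (FreeGroup α)) ℂ K) (T : Finset (FreeGroup α))
    (k : Finset (FreeGroup α) → ℝ) : K := ∑ A ∈ T.powerset, ((ft T k A : ℝ) : ℂ) • f A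

lemma inner_vS (f : HilbertBasis (Finset (FreeGroup α)) ℂ K) (T : Finset (FreeGroup α))
    (k : Finset (FreeGroup α) → ℝ) (B : Finset (FreeGroup α)) :
    ⟪f B, vS f T k⟫_ℂ = if B ⊆ T then ((ft T k B : ℝ) : ℂ) else 0 := by
  unfold vS
  rw [inner_sum]
  simp only [inner_smul_right, orthonormal_iff_ite.mp f.orthonormal]
  split_ifs with h
  · rw [Finset.sum_eq_single B]
    · simp
    · intro A _ hA
      simp [Ne.symm hA]
    · intro h'; exact absurd (Finset.mem_powerset.mpr h) h'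
  · apply Finset.sum_eq_zero
    intro A hA
    have : B ≠ A := by
      rintro rfl; exact h (Finset.mem_powerset.mp hA)
    simp [this]

lemma norm_vS_sq (f : HilbertBasis (Finset (FreeGroup α)) ℂ K) (T : Finset (FreeGroup α))
    (k : Finset (FreeGroup α) → ℝ) : ‖vS f T k‖ ^ 2 = avg T (fun σ => k σ ^ 2) := by
  have h1 := hasSum_norm_sq f (vS f T k)
  have h2 : HasSum (fun A => ‖⟪f A, vS f T k⟫_ℂ‖ ^ 2)
      (∑ A ∈ T.powerset, ‖⟪f A, vS f T k⟫_ℂ‖ ^ 2) := by
    apply hasSum_sum_of_ne_finset_zero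
    intro A hA
    rw [inner_vS, if_neg (by simpa using hA)]
    simp
  rw [h1.unique h2]
  have h3 : ∀ A ∈ T.powerset, ‖⟪f A, vS f T k⟫_ℂ‖ ^ 2 = ft T k A * ft T k A := by
    intro A hA
    rw [inner_vS, if_pos (Finset.mem_powerset.mp hA), Complex.norm_real, Real.norm_eq_abs,
      sq_abs, sq]
  rw [Finset.sum_congr rfl h3, parseval]
  apply avg_congr
  intro σ _
  ring

lemma vS_sub (f : HilbertBasis (Finset (FreeGroup α)) ℂ K) (T : Finset (FreeGroup α))
    (k k' : Finset (FreeGroup α) → ℝ) :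
    vS f T k - vS f T k' = vS f T (fun σ => k σ - k' σ) := by
  unfold vS
  rw [← Finset.sum_sub_distrib]
  refine Finset.sum_congr rfl fun A _ => ?_
  rw [ft_sub, Complex.ofReal_sub, sub_smul]

lemma vS_restrict (f : HilbertBasis (Finset (FreeGroup α)) ℂ K) {S T : Finset (FreeGroup α)}
    (hST : S ⊆ T) (k : Finset (FreeGroup α) → ℝ) :
    vS f T (fun τ => k (τ ∩ S)) = vS f S k := by
  have hd : Disjoint S (T \ S) := Finset.disjoint_sdiff
  have hT : T = S ∪ (T \ S) := (Finset.union_sdiff_of_subset hST).symm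
  apply vec_ext f
  intro B
  rw [inner_vS, inner_vS]
  by_cases hB : B ⊆ T
  · rw [if_pos hB]
    have hB2 : B = (B ∩ S) ∪ (B \ S) := by
      ext z; simp only [Finset.mem_union, Finset.mem_inter, Finset.mem_sdiff]; tauto
    have hB3 : B \ S ⊆ T \ S := Finset.sdiff_subset_sdiff hB (le_refl _)
    have h1 := ft_restrict hd (fun τ => k (τ ∩ S)) k (fun σ ρ hσ hρ => by
      have hd' := Finset.disjoint_left.mp hd
      have : (σ ∪ ρ) ∩ S = σ := by
        ext z
        simp only [Finset.mem_inter, Finset.mem_union]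
        constructor
        · rintro ⟨h1 | h1, h2⟩
          · exact h1
          · exact absurd (hρ h1) (hd' h2)
        · intro h; exact ⟨Or.inl h, hσ h⟩
      rw [this]) (Finset.inter_subset_right : B ∩ S ⊆ S) hB3
    rw [← hT, ← hB2] at h1
    rw [h1]
    by_cases hBS : B ⊆ S
    · have e1 : B \ S = ∅ := Finset.sdiff_eq_empty_iff_subset.mpr hBS
      have e2 : B ∩ S = B := Finset.inter_eq_left.mpr hBS
      rw [if_pos e1, if_pos hBS, e2]
    · have e1 : B \ S ≠ ∅ := by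
        intro h; exact hBS (Finset.sdiff_eq_empty_iff_subset.mp h)
      rw [if_neg e1, if_neg hBS]
      simp
  · have hBS : ¬ B ⊆ S := fun h => hB (h.trans hST)
    rw [if_neg hB, if_neg hBS]

lemma avg_smul (T : Finset (FreeGroup α)) (g : FreeGroup α) (k : Finset (FreeGroup α) → ℝ) :
    avg (g • T) k = avg T (fun σ => k (g • σ)) := by
  unfold avg
  rw [Finset.card_smul_finset]
  congr 1
  symm
  refine Finset.sum_nbij' (fun σ => g • σ) (fun σ => g⁻¹ • σ) ?_ ?_ ?_ ?_ ?_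
  · intro σ hσ
    rw [Finset.mem_powerset] at *
    exact Finset.smul_finset_subset_smul_finset hσ
  · intro σ hσ
    rw [Finset.mem_powerset] at *
    have := Finset.smul_finset_subset_smul_finset (a := g⁻¹) hσ
    rwa [inv_smul_smul] at this
  · intro σ _; exact inv_smul_smul g σ
  · intro σ _; exact smul_inv_smul g σ
  · intro σ _; rfl

lemma sgn_smul (g : FreeGroup α) (A σ : Finset (FreeGroup α)) :
    sgn (g • A) (g • σ) = sgn A σ := by
  unfold sgn
  rw [← Finset.smul_finset_inter, Finset.card_smul_finset]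

lemma UK_vS (f : HilbertBasis (Finset (FreeGroup α)) ℂ K) (T : Finset (FreeGroup α))
    (g : FreeGroup α) (k : Finset (FreeGroup α) → ℝ) :
    UK f g (vS f T k) = vS f (g • T) (fun σ => k (g⁻¹ • σ)) := by
  unfold vS
  rw [map_sum]
  refine Finset.sum_nbij' (fun σ => g • σ) (fun σ => g⁻¹ • σ) ?_ ?_ ?_ ?_ ?_
  · intro σ hσ
    rw [Finset.mem_powerset] at *
    exact Finset.smul_finset_subset_smul_finset hσ
  · intro σ hσ
    rw [Finset.mem_powerset] at *
    have := Finset.smul_finset_subset_smul_finset (a := g⁻¹) hσ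
    rwa [inv_smul_smul] at this
  · intro σ _; exact inv_smul_smul g σ
  · intro σ _; exact smul_inv_smul g σ
  · intro A _
    rw [map_smul, UK_apply]
    congr 2
    unfold ft
    rw [avg_smul]
    apply avg_congr
    intro σ _
    simp only [sgn_smul, inv_smul_smul]

lemma vS_const (f : HilbertBasis (Finset (FreeGroup α)) ℂ K) (T : Finset (FreeGroup α)) (c : ℝ) :
    vS f T (fun _ => c) = (c : ℂ) • f ∅ := by
  apply vec_ext f
  intro B
  rw [inner_vS, inner_smul_right, orthonormal_iff_ite.mp f.orthonormal]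
  split_ifs with h1 h2 h2
  · subst h2
    unfold ft
    simp only [sgn_empty_left, one_mul, avg_const, mul_one]
  · unfold ft
    rw [avg_mul_const, avg_sgn T B h1, if_neg h2]
    simp
  · subst h2
    exact absurd (Finset.empty_subset _) h1
  · simp

lemma sq_sqrt_sub_sqrt_le {x y : ℝ} (hx : 0 ≤ x) (hy : 0 ≤ y) :
    (Real.sqrt x - Real.sqrt y) ^ 2 ≤ |x - y| := by
  have h1 : x - y = (Real.sqrt x - Real.sqrt y) * (Real.sqrt x + Real.sqrt y) := by
    nlinarith [Real.mul_self_sqrt hx, Real.mul_self_sqrt hy]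
  rw [h1, abs_mul, sq, ← abs_mul_abs_self]
  apply mul_le_mul_of_nonneg_left _ (abs_nonneg _)
  rw [abs_of_nonneg (add_nonneg (Real.sqrt_nonneg x) (Real.sqrt_nonneg y))]
  rw [abs_le]
  constructor <;> nlinarith [Real.sqrt_nonneg x, Real.sqrt_nonneg y]

/-- The main finite-dimensional estimate. -/
theorem theoremX (f : HilbertBasis (Finset (FreeGroup α)) ℂ K) {a b : α} (hab : a ≠ b)
    (ψ : Finset (FreeGroup α) → ℝ) (hpos : ∀ S σ, σ ⊆ S → 0 ≤ fS ψ S σ) (h1 : ψ ∅ ≤ 1)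
    (UI : ∀ ε > 0, ∃ δ > 0, ∀ S : Finset (FreeGroup α), ∀ Q : Finset (Finset (FreeGroup α)),
      Q ⊆ S.powerset →
      (Q.card : ℝ) / 2 ^ S.card < δ → (∑ σ ∈ Q, fS ψ S σ) / 2 ^ S.card ≤ ε)
    (η₀ : ℝ) (hη₀ : 0 ≤ η₀)
    (AI : ∀ g : FreeGroup α, g = of a ∨ g = of b → ∀ T,
      avg T (fun σ => |fS ψ T σ - fS ψ (g • T) (g • σ)|) ≤ η₀ ^ 2)
    (η : ℝ) (hη : η₀ < η) : |ψ {1}| ≤ 10 * η := by
  set ε := ((η - η₀) / 2) ^ 2 with hε
  have hεpos : 0 < ε := by
    rw [hε]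
    have : 0 < (η - η₀) / 2 := by linarith
    positivity
  obtain ⟨S, hS1, hST⟩ := selection hpos h1 UI (1 : FreeGroup α) ε hεpos
  have hd : ∀ T, S ⊆ T → ‖vS f T (hS ψ T) - vS f S (hS ψ S)‖ ≤ (η - η₀) / 2 := by
    intro T hT
    rw [← vS_restrict f hT, vS_sub]
    apply le_of_sq_le_sq _ (by linarith)
    rw [norm_vS_sq, ← hε]
    exact hST T hT
  have hg : ∀ g : FreeGroup α, g = of a ∨ g = of b →
      ‖UK f g (vS f S (hS ψ S)) - vS f S (hS ψ S)‖ ≤ η := by
    intro g hg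
    set T := S ∪ g⁻¹ • S with hT
    have hT1 : S ⊆ T := Finset.subset_union_left
    have hT2 : S ⊆ g • T := by
      rw [hT, Finset.smul_finset_union, smul_inv_smul]
      exact Finset.subset_union_right
    have e1 : ‖UK f g (vS f T (hS ψ T)) - vS f (g • T) (hS ψ (g • T))‖ ≤ η₀ := by
      rw [UK_vS, vS_sub]
      apply le_of_sq_le_sq _ hη₀
      rw [norm_vS_sq, avg_smul]
      refine le_trans (avg_mono fun σ hσ => ?_) (AI g hg T)
      rw [inv_smul_smul]
      exact sq_sqrt_sub_sqrt_le (hpos T σ hσ)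
        (hpos _ _ (Finset.smul_finset_subset_smul_finset hσ))
    have e2 := hd T hT1
    have e3 := hd (g • T) hT2
    have e4 : UK f g (vS f S (hS ψ S)) - vS f S (hS ψ S) =
        (UK f g (vS f T (hS ψ T)) - vS f (g • T) (hS ψ (g • T))) -
        UK f g (vS f T (hS ψ T) - vS f S (hS ψ S)) +
        (vS f (g • T) (hS ψ (g • T)) - vS f S (hS ψ S)) := by
      rw [map_sub]; abel
    rw [e4]
    calc _ ≤ ‖(UK f g (vS f T (hS ψ T)) - vS f (g • T) (hS ψ (g • T))) -
        UK f g (vS f T (hS ψ T) - vS f S (hS ψ S))‖ +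
        ‖vS f (g • T) (hS ψ (g • T)) - vS f S (hS ψ S)‖ := norm_add_le _ _
      _ ≤ (‖UK f g (vS f T (hS ψ T)) - vS f (g • T) (hS ψ (g • T))‖ +
        ‖UK f g (vS f T (hS ψ T) - vS f S (hS ψ S))‖) +
        ‖vS f (g • T) (hS ψ (g • T)) - vS f S (hS ψ S)‖ := by
          gcongr
          exact norm_sub_le _ _
      _ ≤ (η₀ + (η - η₀) / 2) + (η - η₀) / 2 := by
          gcongr
          rw [LinearIsometry.norm_map]
          exact e2
      _ = η := by ring
  have hgap := spectral_gap f hab (vS f S (hS ψ S)) η (hg (of a) (Or.inl rfl))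
    (hg (of b) (Or.inr rfl))
  set c := avg S (hS ψ S) with hc
  have hin : ⟪f ∅, vS f S (hS ψ S)⟫_ℂ = (c : ℂ) := by
    rw [inner_vS, if_pos (Finset.empty_subset _)]
    unfold ft
    simp only [sgn_empty_left, one_mul]
    rfl
  rw [hin, ← vS_const f S c, vS_sub] at hgap
  have hη' : 0 ≤ η := hη₀.trans hη.le
  have hgap2 : avg S (fun σ => (hS ψ S σ - c) ^ 2) ≤ (5 * η) ^ 2 := by
    rw [← norm_vS_sq f]
    gcongr
  have hh1 : avg S (fun σ => hS ψ S σ ^ 2) ≤ 1 := by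
    rw [avg_congr (fun σ hσ => hS_sq hpos hσ), show (fun σ => fS ψ S σ) = fS ψ S from rfl,
      avg_fS_total]
    exact h1
  have hc1 : c ^ 2 ≤ 1 := (sum_sq_avg_le S _).trans hh1
  have hplus : avg S (fun σ => (hS ψ S σ + c) ^ 2) ≤ 2 ^ 2 := by
    have : avg S (fun σ => (hS ψ S σ + c) ^ 2) ≤ avg S (fun σ => 2 * hS ψ S σ ^ 2 + 2 * c ^ 2) := by
      apply avg_mono
      intro σ _
      nlinarith [sq_nonneg (hS ψ S σ - c)]
    rw [avg_add, avg_const_mul, avg_const] at this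
    linarith
  have hψ : ψ {1} = avg S (fun σ => (sgn {1} σ * (hS ψ S σ - c)) * (hS ψ S σ + c)) := by
    have h2 := avg_sgn_fS ψ S {1} (by simpa using hS1)
    have h3 := avg_sgn S {1} (by simpa using hS1)
    rw [if_neg (by simp)] at h3
    have h4 : ∀ σ, σ ⊆ S → (sgn {1} σ * (hS ψ S σ - c)) * (hS ψ S σ + c) =
        sgn {1} σ * fS ψ S σ - sgn {1} σ * c ^ 2 := by
      intro σ hσ
      rw [← hS_sq hpos hσ]; ring
    rw [avg_congr h4, avg_sub, h2, avg_mul_const]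
    rw [show avg S (fun σ => sgn {1} σ) = 0 from h3]
    ring
  have hfin : ψ {1} ^ 2 ≤ (10 * η) ^ 2 := by
    rw [hψ]
    refine (avg_mul_sq_le S _ _).trans ?_
    have h5 : avg S (fun σ => (sgn {1} σ * (hS ψ S σ - c)) ^ 2) =
        avg S (fun σ => (hS ψ S σ - c) ^ 2) := by
      apply avg_congr
      intro σ _
      rw [mul_pow, sq (sgn {1} σ), sgn_mul_self, one_mul]
    rw [h5]
    calc avg S (fun σ => (hS ψ S σ - c) ^ 2) * avg S (fun σ => (hS ψ S σ + c) ^ 2)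
        ≤ (5 * η) ^ 2 * 2 ^ 2 := by
          apply mul_le_mul hgap2 hplus (avg_nonneg fun σ _ => sq_nonneg _) (sq_nonneg _)
      _ = (10 * η) ^ 2 := by ring
  have := Real.sqrt_le_sqrt hfin
  rwa [Real.sqrt_sq_eq_abs, Real.sqrt_sq_eq_abs, abs_of_nonneg (by linarith : 0 ≤ 10 * η)] at this

end Vec

end Pool.Helper40.Haagerup
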