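import Pool.Agent.Helper40.Haagerup.Lamp
import Pool.Agent.Helper40.Haagerup.ThmX
import Pool.Agent.Helper40.Haagerup.PosDef

/-!
Almost invariance of the densities of a positive definite function on the lamplighter group.
-/

noncomputable section

open scoped InnerProductSpace ComplexOrder Pointwise symmDiff
open FreeGroup

namespace Pool.Helper40.Haagerup

variable {α W : Type} [DecidableEq α] [DecidableEq W]

/-- lamp element -/
def lA (A : Finset (FreeGroup α)) : Lamp α W := ⟨A, 1, ∅⟩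

/-- base element -/
def lg (g : FreeGroup α) : Lamp α W := ⟨∅, g, ∅⟩

lemma lA_mul (A B : Finset (FreeGroup α)) : (lA A : Lamp α W) * lA B = lA (A ∆ B) := by
  ext1
  · simp [lA]
  · simp [lA]
  · simp only [lA, Lamp.mul_S]
    exact bot_symmDiff _

lemma lA_inv (A : Finset (FreeGroup α)) : (lA A : Lamp α W)⁻¹ = lA A := by
  ext1 <;> simp [lA]

lemma lA_empty : (lA ∅ : Lamp α W) = 1 := rfl

lemma lg_inv (g : FreeGroup α) : (lg g : Lamp α W)⁻¹ = lg g⁻¹ := by
  ext1 <;> simp [lg]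

lemma lg_conj (g : FreeGroup α) (A : Finset (FreeGroup α)) :
    (lg g : Lamp α W) * (lA A * (lg g)⁻¹) = lA (g • A) := by
  ext1
  · simp only [lg, lA, Lamp.mul_A, Lamp.inv_A, Lamp.mul_g, Finset.smul_finset_empty, one_smul]
    have e1 : (∅ : Finset (FreeGroup α)) ∆ (g • (A ∆ ∅)) = g • (A ∆ ∅) := bot_symmDiff _
    have e2 : A ∆ (∅ : Finset (FreeGroup α)) = A := symmDiff_bot _
    rw [e1, e2]
  · simp [lg, lA]
  · simp only [lg, lA, Lamp.mul_S, Lamp.inv_S]
    have e1 : (∅ : Finset W) ∆ (∅ ∆ ∅) = ∅ := by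
      rw [symmDiff_self]; exact bot_symmDiff _
    exact e1

section

variable {φ : Lamp α W → ℂ} (h : IsPD φ)

/-- restriction to lamp configurations (a real function) -/
def psi (φ : Lamp α W → ℂ) (A : Finset (FreeGroup α)) : ℝ := (φ (lA A)).re

include h in
lemma phi_lA (A : Finset (FreeGroup α)) : φ (lA A) = (psi φ A : ℂ) := by
  have h1 := h.hermitian (lA A)
  rw [lA_inv] at h1
  exact (Complex.conj_eq_iff_re.mp h1.symm).symm

/-- `∑ c_A δ_{A x}` -/
def XVec (c : Finset (FreeGroup α) → ℝ) (T : Finset (FreeGroup α)) (x : Lamp α W) :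
    PDSpace φ h := ∑ A ∈ T.powerset, ((c A : ℝ) : ℂ) • pdVec h (lA A * x)

lemma ft_convolve (T : Finset (FreeGroup α)) (c : Finset (FreeGroup α) → ℝ)
    (hc : ∀ σ, c σ * c σ = 1) (C : Finset (FreeGroup α)) (hC : C ⊆ T) :
    ∑ A ∈ T.powerset, ft T c A * ft T c (A ∆ C) = if C = ∅ then 1 else 0 := by
  have h1 : ∀ A ∈ T.powerset, ft T c A * ft T c (A ∆ C) =
      ft T c A * ft T (fun σ => sgn C σ * c σ) A := by
    intro A _
    congr 1
    unfold ft
    apply avg_congr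
    intro σ _
    rw [sgn_symmDiff_left]; ring
  rw [Finset.sum_congr rfl h1, parseval, ← avg_sgn T C hC]
  apply avg_congr
  intro σ _
  rw [mul_left_comm, hc, mul_one]

lemma inner_XVec_self (T : Finset (FreeGroup α)) (c : Finset (FreeGroup α) → ℝ)
    (hc : ∀ σ, c σ * c σ = 1) (x : Lamp α W) :
    ⟪XVec h (ft T c) T x, XVec h (ft T c) T x⟫_ℂ = φ 1 := by
  unfold XVec
  rw [sum_inner]
  simp only [inner_sum, inner_smul_left, inner_smul_right, inner_pdVec, Complex.conj_ofReal]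
  have h1 : ∀ A ∈ T.powerset, ∑ B ∈ T.powerset, ((ft T c B : ℝ) : ℂ) * (((ft T c A : ℝ) : ℂ) *
      φ ((lA A * x)⁻¹ * (lA B * x))) =
      ∑ C ∈ T.powerset, (((ft T c A * ft T c (A ∆ C) : ℝ) : ℂ)) * φ (x⁻¹ * (lA C * x)) := by
    intro A hA
    rw [Finset.mem_powerset] at hA
    rw [← sum_powerset_symmDiff T A hA]
    refine Finset.sum_congr rfl fun C _ => ?_
    have e1 : (lA A * x)⁻¹ * (lA (C ∆ A) * x) = x⁻¹ * (lA C * x) := by
      rw [symmDiff_comm C A, ← lA_mul]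
      group
    rw [e1, symmDiff_comm C A]
    push_cast
    ring
  rw [Finset.sum_congr rfl h1, Finset.sum_comm, Finset.sum_eq_single ∅]
  · rw [← Finset.sum_mul, ← Complex.ofReal_sum, ft_convolve T c hc ∅ (Finset.empty_subset _)]
    simp [lA_empty]
  · intro C hC hne
    rw [← Finset.sum_mul, ← Complex.ofReal_sum, ft_convolve T c hc C (Finset.mem_powerset.mp hC),
      if_neg hne]
    simp
  · intro h'; exact absurd (Finset.empty_mem_powerset T) h'

lemma inner_pdVec_XVec (T : Finset (FreeGroup α)) (c : Finset (FreeGroup α) → ℝ)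
    (x y : Lamp α W) :
    ⟪pdVec h x, XVec h c T y⟫_ℂ = ∑ A ∈ T.powerset, ((c A : ℝ) : ℂ) * φ (x⁻¹ * (lA A * y)) := by
  unfold XVec
  rw [inner_sum]
  simp only [inner_smul_right, inner_pdVec]

lemma inner_XVec_pdVec (T : Finset (FreeGroup α)) (c : Finset (FreeGroup α) → ℝ)
    (x y : Lamp α W) :
    ⟪XVec h c T x, pdVec h y⟫_ℂ = ∑ A ∈ T.powerset, ((c A : ℝ) : ℂ) * φ (x⁻¹ * (lA A * y)) := by
  unfold XVec
  rw [sum_inner]
  simp only [inner_smul_left, inner_pdVec, Complex.conj_ofReal]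
  refine Finset.sum_congr rfl fun A _ => ?_
  rw [mul_inv_rev, lA_inv, mul_assoc]

lemma norm_pd_of_inner_self {φ : Lamp α W → ℂ} (h : IsPD φ) (u : PDSpace φ h) :
    ‖u‖ ^ 2 = (⟪u, u⟫_ℂ).re := by
  have := norm_sq_eq_re_inner (𝕜 := ℂ) u
  exact this

include h in
/-- Almost invariance. -/
theorem almost_inv (g : FreeGroup α) (T : Finset (FreeGroup α)) :
    avg T (fun σ => |fS (psi φ) T σ - fS (psi φ) (g • T) (g • σ)|) ≤
      2 * Real.sqrt (φ 1).re * Real.sqrt (2 * ((φ 1).re - (φ (lg g)).re)) := by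
  classical
  set c : Finset (FreeGroup α) → ℝ := fun σ =>
    if 0 ≤ fS (psi φ) T σ - fS (psi φ) (g • T) (g • σ) then 1 else -1 with hcdef
  have hc : ∀ σ, c σ * c σ = 1 := by
    intro σ
    simp only [hcdef]
    split_ifs <;> norm_num
  have habs : ∀ σ, |fS (psi φ) T σ - fS (psi φ) (g • T) (g • σ)| =
      c σ * fS (psi φ) T σ - c σ * fS (psi φ) (g • T) (g • σ) := by
    intro σ
    simp only [hcdef]
    split_ifs with h1
    · rw [abs_of_nonneg h1]; ring
    · rw [abs_of_neg (not_le.mp h1)]; ring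
  have hfg : ∀ σ, fS (psi φ) (g • T) (g • σ) = fS (fun A => psi φ (g • A)) T σ := by
    intro σ
    unfold fS
    symm
    refine Finset.sum_nbij' (fun σ => g • σ) (fun σ => g⁻¹ • σ) ?_ ?_ ?_ ?_ ?_
    · intro σ hσ
      rw [Finset.mem_powerset] at *
      exact Finset.smul_finset_subset_smul_finset hσ
    · intro σ hσ
      rw [Finset.mem_powerset] at *
      have := Finset.smul_finset_subset_smul_finset (a := g⁻¹) hσ
      rwa [inv_smul_smul] at this
    · intro σ _; exact inv_smul_smul g σ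
    · intro σ _; exact smul_inv_smul g σ
    · intro A _
      rw [sgn_smul]
  have hsum : ∀ ψ' : Finset (FreeGroup α) → ℝ, avg T (fun σ => c σ * fS ψ' T σ) =
      ∑ A ∈ T.powerset, ft T c A * ψ' A := by
    intro ψ'
    have : ∀ σ, σ ⊆ T → c σ * fS ψ' T σ = ∑ A ∈ T.powerset, (sgn A σ * c σ) * ψ' A := by
      intro σ _
      unfold fS
      rw [Finset.mul_sum]
      refine Finset.sum_congr rfl fun A _ => by ring
    rw [avg_congr this, avg_sum]
    refine Finset.sum_congr rfl fun A _ => ?_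
    rw [avg_mul_const]
    rfl
  have h1 : avg T (fun σ => |fS (psi φ) T σ - fS (psi φ) (g • T) (g • σ)|) =
      ∑ A ∈ T.powerset, ft T c A * psi φ A - ∑ A ∈ T.powerset, ft T c A * psi φ (g • A) := by
    rw [avg_congr (fun σ _ => habs σ), avg_sub, hsum]
    congr 1
    rw [← hsum (fun A => psi φ (g • A))]
    apply avg_congr
    intro σ _
    rw [hfg]
  -- the vectors
  set g' : Lamp α W := (lg g)⁻¹ with hg'
  have e1 : ((∑ A ∈ T.powerset, ft T c A * psi φ A : ℝ) : ℂ) =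
      ⟪pdVec h 1, XVec h (ft T c) T 1⟫_ℂ := by
    rw [inner_pdVec_XVec]
    push_cast
    refine Finset.sum_congr rfl fun A _ => ?_
    rw [inv_one, one_mul, mul_one, phi_lA h]
  have e2 : ((∑ A ∈ T.powerset, ft T c A * psi φ (g • A) : ℝ) : ℂ) =
      ⟪pdVec h g', XVec h (ft T c) T g'⟫_ℂ := by
    rw [inner_pdVec_XVec]
    push_cast
    refine Finset.sum_congr rfl fun A _ => ?_
    rw [hg', inv_inv, lg_conj, phi_lA h]
  have e3 : ⟪pdVec h g', XVec h (ft T c) T 1⟫_ℂ = ⟪XVec h (ft T c) T g', pdVec h 1⟫_ℂ := by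
    rw [inner_pdVec_XVec, inner_XVec_pdVec]
  have e4 : ⟪pdVec h g', XVec h (ft T c) T g'⟫_ℂ = ⟪XVec h (ft T c) T g', pdVec h g'⟫_ℂ := by
    rw [inner_pdVec_XVec, inner_XVec_pdVec]
  set u : PDSpace φ h := pdVec h 1 - pdVec h g' with hu
  have e5 : ⟪pdVec h 1, XVec h (ft T c) T 1⟫_ℂ - ⟪pdVec h g', XVec h (ft T c) T g'⟫_ℂ =
      ⟪u, XVec h (ft T c) T 1⟫_ℂ + ⟪XVec h (ft T c) T g', u⟫_ℂ := by
    rw [hu, inner_sub_left, inner_sub_right, ← e3, ← e4]
    ring
  have hnX : ∀ x : Lamp α W, ‖XVec h (ft T c) T x‖ = Real.sqrt (φ 1).re := by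
    intro x
    rw [← inner_XVec_self h T c hc x, ← norm_pd_of_inner_self, Real.sqrt_sq (norm_nonneg _)]
  have hnu : ‖u‖ = Real.sqrt (2 * ((φ 1).re - (φ (lg g)).re)) := by
    have e6 : (⟪u, u⟫_ℂ).re = 2 * ((φ 1).re - (φ (lg g)).re) := by
      rw [hu]
      simp only [inner_sub_left, inner_sub_right, inner_pdVec, inv_one, one_mul, mul_one,
        inv_mul_cancel]
      rw [hg', inv_inv, h.hermitian (lg g)]
      simp only [Complex.sub_re, Complex.conj_re]
      ring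
    rw [← e6, ← norm_pd_of_inner_self, Real.sqrt_sq (norm_nonneg _)]
  rw [h1]
  have h2 : ((∑ A ∈ T.powerset, ft T c A * psi φ A -
      ∑ A ∈ T.powerset, ft T c A * psi φ (g • A) : ℝ) : ℂ) =
      ⟪u, XVec h (ft T c) T 1⟫_ℂ + ⟪XVec h (ft T c) T g', u⟫_ℂ := by
    rw [← e5, ← e1, ← e2, Complex.ofReal_sub]
  have h3 : ‖((∑ A ∈ T.powerset, ft T c A * psi φ A -
      ∑ A ∈ T.powerset, ft T c A * psi φ (g • A) : ℝ) : ℂ)‖ ≤
      2 * Real.sqrt (φ 1).re * Real.sqrt (2 * ((φ 1).re - (φ (lg g)).re)) := by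
    rw [h2]
    calc _ ≤ ‖⟪u, XVec h (ft T c) T 1⟫_ℂ‖ + ‖⟪XVec h (ft T c) T g', u⟫_ℂ‖ := norm_add_le _ _
      _ ≤ ‖u‖ * ‖XVec h (ft T c) T 1‖ + ‖XVec h (ft T c) T g'‖ * ‖u‖ :=
          add_le_add (norm_inner_le_norm _ _) (norm_inner_le_norm _ _)
      _ = _ := by
          rw [hnX, hnX, hnu]; ring
  rw [Complex.norm_real, Real.norm_eq_abs] at h3
  exact (le_abs_self _).trans h3

include h in
lemma fS_psi_nonneg (S σ : Finset (FreeGroup α)) : 0 ≤ fS (psi φ) S σ := by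
  have h1 : ⟪XVec h (fun A => sgn A σ) S (1 : Lamp α W), XVec h (fun A => sgn A σ) S 1⟫_ℂ =
      (((2 : ℝ) ^ S.card * fS (psi φ) S σ : ℝ) : ℂ) := by
    unfold XVec
    rw [sum_inner]
    simp only [inner_sum, inner_smul_left, inner_smul_right, inner_pdVec, Complex.conj_ofReal,
      mul_one, lA_inv, lA_mul]
    have h2 : ∀ A ∈ S.powerset, ∑ B ∈ S.powerset, ((sgn B σ : ℝ) : ℂ) * (((sgn A σ : ℝ) : ℂ) *
        φ (lA (A ∆ B) : Lamp α W)) = ((fS (psi φ) S σ : ℝ) : ℂ) := by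
      intro A hA
      rw [Finset.mem_powerset] at hA
      rw [← sum_powerset_symmDiff S A hA]
      unfold fS
      push_cast
      refine Finset.sum_congr rfl fun C _ => ?_
      have e1 : A ∆ (C ∆ A) = C := by
        rw [symmDiff_comm C A]; exact symmDiff_symmDiff_cancel_left A C
      rw [e1, phi_lA h, sgn_symmDiff_left]
      have e2 : ((sgn A σ : ℝ) : ℂ) * ((sgn A σ : ℝ) : ℂ) = 1 := by
        rw [← Complex.ofReal_mul, sgn_mul_self, Complex.ofReal_one]
      push_cast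
      linear_combination ((sgn C σ : ℝ) : ℂ) * (psi φ C : ℂ) * e2
    rw [Finset.sum_congr rfl h2, Finset.sum_const, Finset.card_powerset]
    push_cast
    ring
  have h3 : 0 ≤ (⟪XVec h (fun A => sgn A σ) S (1 : Lamp α W),
      XVec h (fun A => sgn A σ) S 1⟫_ℂ).re := by
    rw [← norm_pd_of_inner_self]; positivity
  rw [h1, Complex.ofReal_re] at h3
  exact nonneg_of_mul_nonneg_right h3 (by positivity)

end

end Pool.Helper40.Haagerup
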