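import Mathlib

/-!
Operators on a Hilbert space with a Hilbert basis indexed by a group `G`: the algebra of
operators whose matrix is invariant under right translations (the left group von Neumann
algebra), its trace, and the translation operators.
-/

noncomputable section

open scoped InnerProductSpace ComplexOrder
open Filter Topology

namespace Pool.Helper40.Haagerup

universe u v

section Iso

variable {G : Type*} {H : Type*} [NormedAddCommGroup H] [InnerProductSpace ℂ H]
  {E : Type*} [NormedAddCommGroup E] [InnerProductSpace ℂ E] [CompleteSpace E]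

/-- The linear isometry sending a Hilbert basis to a given orthonormal family. -/
def isoOf (e : HilbertBasis G ℂ H) {v : G → E} (hv : Orthonormal ℂ v) : H →ₗᵢ[ℂ] E :=
  (hv.orthogonalFamily.linearIsometry).comp e.repr.toLinearIsometry

lemma isoOf_apply (e : HilbertBasis G ℂ H) {v : G → E} (hv : Orthonormal ℂ v) (x : G) :
    isoOf e hv (e x) = v x := by
  classical
  unfold isoOf
  simp only [LinearIsometry.coe_comp, LinearIsometryEquiv.coe_toLinearIsometry,
    Function.comp_apply, e.repr_self]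
  rw [OrthogonalFamily.linearIsometry_apply_single]
  simp

end Iso

section Ext

variable {G : Type*} {H : Type*} [NormedAddCommGroup H] [InnerProductSpace ℂ H]
variable {E : Type*} [NormedAddCommGroup E] [InnerProductSpace ℂ E]

lemma clm_ext (e : HilbertBasis G ℂ H) {S T : H →L[ℂ] E} (h : ∀ x, S (e x) = T (e x)) :
    S = T := by
  apply ContinuousLinearMap.ext_on (s := Set.range e)
  · rw [Submodule.dense_iff_topologicalClosure_eq_top]
    exact e.dense_span
  · rintro _ ⟨x, rfl⟩
    exact h x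

lemma vec_ext (e : HilbertBasis G ℂ H) {u w : H} (h : ∀ x, ⟪e x, u⟫_ℂ = ⟪e x, w⟫_ℂ) :
    u = w := by
  apply e.repr.injective
  ext x
  rw [e.repr_apply_apply, e.repr_apply_apply, h]

lemma mat_ext (e : HilbertBasis G ℂ H) {S T : H →L[ℂ] H}
    (h : ∀ x y, ⟪e y, S (e x)⟫_ℂ = ⟪e y, T (e x)⟫_ℂ) : S = T :=
  clm_ext e fun x => vec_ext e fun y => h x y

lemma hasSum_norm_sq (e : HilbertBasis G ℂ H) (u : H) :
    HasSum (fun x => ‖⟪e x, u⟫_ℂ‖ ^ 2) (‖u‖ ^ 2) := by
  have h := e.hasSum_inner_mul_inner u u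
  have h2 := Complex.hasSum_re h
  convert h2 using 1
  · ext x
    rw [← inner_conj_symm u (e x)]
    rw [mul_comm, Complex.mul_conj, Complex.ofReal_re, Complex.normSq_eq_norm_sq]
  · rw [inner_self_eq_norm_sq_to_K]
    norm_cast

end Ext

section Group

variable {G : Type*} [Group G] {H : Type*} [NormedAddCommGroup H] [InnerProductSpace ℂ H]
  [CompleteSpace H]

/-- The algebra of bounded operators whose matrix is invariant under right translation:
the (left) group von Neumann algebra. -/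
def vN (e : HilbertBasis G ℂ H) : StarSubalgebra ℂ (H →L[ℂ] H) where
  carrier := {T | ∀ x y g, ⟪e (y * g), T (e (x * g))⟫_ℂ = ⟪e y, T (e x)⟫_ℂ}
  mul_mem' := by
    intro S T hS hT x y g
    have h1 := e.hasSum_inner_mul_inner (S.adjoint (e (y * g))) (T (e (x * g)))
    have h2 := e.hasSum_inner_mul_inner (S.adjoint (e y)) (T (e x))
    have h3 : HasSum (fun z => ⟪S.adjoint (e (y * g)), e (z * g)⟫_ℂ *
        ⟪e (z * g), T (e (x * g))⟫_ℂ) ⟪S.adjoint (e (y * g)), T (e (x * g))⟫_ℂ := by
      have := (Equiv.mulRight g).hasSum_iff.mpr h1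
      simpa [Function.comp_def] using this
    have h4 : (fun z => ⟪S.adjoint (e (y * g)), e (z * g)⟫_ℂ *
        ⟪e (z * g), T (e (x * g))⟫_ℂ) =
        fun z => ⟪S.adjoint (e y), e z⟫_ℂ * ⟪e z, T (e x)⟫_ℂ := by
      ext z
      rw [ContinuousLinearMap.adjoint_inner_left, ContinuousLinearMap.adjoint_inner_left,
        hS z y g, hT x z g]
    rw [h4] at h3
    have h5 := h3.unique h2
    rw [ContinuousLinearMap.adjoint_inner_left, ContinuousLinearMap.adjoint_inner_left] at h5
    exact h5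
  add_mem' := by
    intro S T hS hT x y g
    simp only [ContinuousLinearMap.add_apply, inner_add_right, hS x y g, hT x y g]
  algebraMap_mem' := by
    intro c x y g
    classical
    have := orthonormal_iff_ite.mp e.orthonormal
    simp only [Algebra.algebraMap_eq_smul_one, ContinuousLinearMap.smul_apply,
      ContinuousLinearMap.one_apply, inner_smul_right, this, mul_left_inj]
  star_mem' := by
    intro T hT x y g
    simp only [ContinuousLinearMap.star_eq_adjoint]
    rw [ContinuousLinearMap.adjoint_inner_right, ContinuousLinearMap.adjoint_inner_right,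
      ← inner_conj_symm, hT y x g, inner_conj_symm]

variable {e : HilbertBasis G ℂ H}

lemma mem_vN_iff {T : H →L[ℂ] H} :
    T ∈ vN e ↔ ∀ x y g, ⟪e (y * g), T (e (x * g))⟫_ℂ = ⟪e y, T (e x)⟫_ℂ := Iff.rfl

variable (e) in
lemma isClosed_vN : IsClosed (vN e : Set (H →L[ℂ] H)) := by
  have : (vN e : Set (H →L[ℂ] H)) = ⋂ (x : G) (y : G) (g : G),
      {T | ⟪e (y * g), T (e (x * g))⟫_ℂ = ⟪e y, T (e x)⟫_ℂ} := by
    ext T
    simp only [Set.mem_iInter, Set.mem_setOf_eq, SetLike.mem_coe]
    exact mem_vN_iff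
  rw [this]
  refine isClosed_iInter fun x => isClosed_iInter fun y => isClosed_iInter fun g => ?_
  apply isClosed_eq <;> fun_prop

/-- Fourier coefficient. -/
def co (e : HilbertBasis G ℂ H) (T : H →L[ℂ] H) (x : G) : ℂ := ⟪e x, T (e 1)⟫_ℂ

lemma mat_eq_co {T : H →L[ℂ] H} (hT : T ∈ vN e) (x y : G) :
    ⟪e y, T (e x)⟫_ℂ = co e T (y * x⁻¹) := by
  have := hT 1 (y * x⁻¹) x
  simpa [co] using this

lemma vN_ext {S T : H →L[ℂ] H} (hS : S ∈ vN e) (hT : T ∈ vN e)
    (h : ∀ x, co e S x = co e T x) : S = T := by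
  apply mat_ext e
  intro x y
  rw [mat_eq_co hS, mat_eq_co hT, h]

lemma vN_ext' {S T : H →L[ℂ] H} (hS : S ∈ vN e) (hT : T ∈ vN e)
    (h : S (e 1) = T (e 1)) : S = T := by
  apply vN_ext hS hT
  intro x
  simp [co, h]

lemma norm_apply_basis {T : H →L[ℂ] H} (hT : T ∈ vN e) (x : G) :
    ‖T (e x)‖ = ‖T (e 1)‖ := by
  have h1 := hasSum_norm_sq e (T (e x))
  have h2 := hasSum_norm_sq e (T (e 1))
  have h3 : HasSum (fun y => ‖⟪e (y * x), T (e x)⟫_ℂ‖ ^ 2) (‖T (e x)‖ ^ 2) := by
    have := (Equiv.mulRight x).hasSum_iff.mpr h1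
    simpa [Function.comp_def] using this
  have h4 : (fun y => ‖⟪e (y * x), T (e x)⟫_ℂ‖ ^ 2) = fun y => ‖⟪e y, T (e 1)⟫_ℂ‖ ^ 2 := by
    ext y
    have := hT 1 y x
    rw [one_mul] at this
    rw [this]
  rw [h4] at h3
  have h5 := h3.unique h2
  have h6 : (0:ℝ) ≤ ‖T (e x)‖ := norm_nonneg _
  have h7 : (0:ℝ) ≤ ‖T (e 1)‖ := norm_nonneg _
  exact (pow_left_inj₀ h6 h7 two_ne_zero).mp h5

lemma trace_mul_comm {S T : H →L[ℂ] H} (hS : S ∈ vN e) (hT : T ∈ vN e) :
    ⟪e 1, (S * T) (e 1)⟫_ℂ = ⟪e 1, (T * S) (e 1)⟫_ℂ := by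
  have key : ∀ {S T : H →L[ℂ] H}, S ∈ vN e → T ∈ vN e →
      HasSum (fun z => co e S z⁻¹ * co e T z) ⟪e 1, (S * T) (e 1)⟫_ℂ := by
    intro S T hS hT
    have h1 := e.hasSum_inner_mul_inner (S.adjoint (e 1)) (T (e 1))
    rw [ContinuousLinearMap.adjoint_inner_left] at h1
    have h2 : (fun z => co e S z⁻¹ * co e T z) =
        fun z => ⟪S.adjoint (e 1), e z⟫_ℂ * ⟪e z, T (e 1)⟫_ℂ := by
      funext z
      rw [ContinuousLinearMap.adjoint_inner_left, mat_eq_co hS, one_mul]
      rfl
    rw [h2]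
    exact h1
  have h1 := key hS hT
  have h2 := key hT hS
  have h3 : HasSum (fun z => co e S z⁻¹ * co e T z) ⟪e 1, (T * S) (e 1)⟫_ℂ := by
    have := (Equiv.inv G).hasSum_iff.mpr h2
    convert this using 1
    ext z
    simp [mul_comm]
  exact h1.unique h3

/-- Left translation operator. -/
def lam (e : HilbertBasis G ℂ H) (g : G) : H →L[ℂ] H :=
  (isoOf e (v := fun x => e (g * x))
    (e.orthonormal.comp _ (mul_right_injective g))).toContinuousLinearMap

@[simp] lemma lam_apply (g x : G) : lam e g (e x) = e (g * x) :=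
  isoOf_apply e (v := fun x => e (g * x))
    (e.orthonormal.comp _ (mul_right_injective g)) x

lemma lam_mul (g h : G) : lam e (g * h) = lam e g * lam e h := by
  apply clm_ext e
  intro x
  simp [mul_assoc]

lemma lam_one : lam e 1 = 1 := by
  apply clm_ext e
  intro x
  simp

lemma lam_mem (g : G) : lam e g ∈ vN e := by
  classical
  intro x y h
  have := orthonormal_iff_ite.mp e.orthonormal
  simp only [lam_apply, this, ← mul_assoc, mul_left_inj]

lemma star_lam (g : G) : star (lam e g) = lam e g⁻¹ := by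
  classical
  apply mat_ext e
  intro x y
  have := orthonormal_iff_ite.mp e.orthonormal
  rw [ContinuousLinearMap.star_eq_adjoint, ContinuousLinearMap.adjoint_inner_right]
  simp only [lam_apply, this]
  congr 1
  rw [eq_iff_iff]
  constructor
  · intro h
    rw [← h]; simp
  · intro h
    rw [h]; simp

lemma norm_lam_le (g : G) : ‖lam e g‖ ≤ 1 :=
  LinearIsometry.norm_toContinuousLinearMap_le _

lemma co_mul {S T : H →L[ℂ] H} (hS : S ∈ vN e) (x : G) :
    HasSum (fun z => co e S (x * z⁻¹) * co e T z) (co e (S * T) x) := by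
  have h1 := e.hasSum_inner_mul_inner (S.adjoint (e x)) (T (e 1))
  rw [ContinuousLinearMap.adjoint_inner_left] at h1
  have h2 : (fun z => co e S (x * z⁻¹) * co e T z) =
      fun z => ⟪S.adjoint (e x), e z⟫_ℂ * ⟪e z, T (e 1)⟫_ℂ := by
    funext z
    rw [ContinuousLinearMap.adjoint_inner_left, mat_eq_co hS]
    rfl
  rw [h2]
  exact h1

lemma co_star {T : H →L[ℂ] H} (hT : T ∈ vN e) (x : G) :
    co e (star T) x = (starRingEnd ℂ) (co e T x⁻¹) := by
  rw [co, ContinuousLinearMap.star_eq_adjoint, ContinuousLinearMap.adjoint_inner_right,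
    ← inner_conj_symm, mat_eq_co hT, one_mul]

end Group

end Pool.Helper40.Haagerup
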