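import Mathlib

/-!
Complete positivity of maps between C*-algebras represented on Hilbert spaces.
-/

noncomputable section

open scoped InnerProductSpace ComplexOrder CStarAlgebra
open Filter Topology

namespace Pool.Helper40.Haagerup

/-- Positivity is reflected by injective star homomorphisms. -/
lemma nonneg_of_map_nonneg {A B : Type*} [CStarAlgebra A] [CStarAlgebra B] [PartialOrder A]
    [StarOrderedRing A] [PartialOrder B] [StarOrderedRing B] (φ : A →⋆ₐ[ℂ] B)
    (hφ : Function.Injective φ) {a : A} (ha : 0 ≤ φ a) : 0 ≤ a := by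
  have hsa : IsSelfAdjoint a := by
    apply hφ
    rw [map_star]
    exact (IsSelfAdjoint.of_nonneg ha).star_eq
  rw [StarOrderedRing.nonneg_iff_spectrum_nonneg (R := ℝ) a hsa]
  rw [← hsa.map_spectrum_real φ hφ]
  rw [← StarOrderedRing.nonneg_iff_spectrum_nonneg (R := ℝ) (φ a) (hsa.map φ)]
  exact ha

section theta

variable {A : Type*} [CStarAlgebra A] [PartialOrder A] [StarOrderedRing A]
variable {H : Type*} [NormedAddCommGroup H] [InnerProductSpace ℂ H] [CompleteSpace H]
variable {k : ℕ}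

/-- The action of a matrix over `A` on `H^k`. -/
def thetaFun (π : A →⋆ₐ[ℂ] (H →L[ℂ] H)) (M : CStarMatrix (Fin k) (Fin k) A) :
    PiLp 2 (fun _ : Fin k => H) →L[ℂ] PiLp 2 (fun _ : Fin k => H) :=
  ((PiLp.continuousLinearEquiv 2 ℂ (fun _ : Fin k => H)).symm :
      (Fin k → H) →L[ℂ] PiLp 2 (fun _ : Fin k => H)) ∘L
    (ContinuousLinearMap.pi fun i => ∑ j, (π (M i j)) ∘L
      (ContinuousLinearMap.proj (R := ℂ) (φ := fun _ : Fin k => H) j)) ∘L
    ((PiLp.continuousLinearEquiv 2 ℂ (fun _ : Fin k => H)) :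
      PiLp 2 (fun _ : Fin k => H) →L[ℂ] (Fin k → H))

lemma thetaFun_apply (π : A →⋆ₐ[ℂ] (H →L[ℂ] H)) (M : CStarMatrix (Fin k) (Fin k) A)
    (v : PiLp 2 (fun _ : Fin k => H)) (i : Fin k) :
    thetaFun π M v i = ∑ j, π (M i j) (v j) := by
  simp [thetaFun]

/-- The action of matrices over `A` on `H^k` as a star homomorphism. -/
def theta (π : A →⋆ₐ[ℂ] (H →L[ℂ] H)) : CStarMatrix (Fin k) (Fin k) A →⋆ₐ[ℂ]
    (PiLp 2 (fun _ : Fin k => H) →L[ℂ] PiLp 2 (fun _ : Fin k => H)) where
  toFun := thetaFun π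
  map_one' := by
    ext v i
    rw [thetaFun_apply]
    simp only [CStarMatrix.one_apply]
    rw [Finset.sum_eq_single i]
    · simp
    · intro j _ hj
      simp [Ne.symm hj]
    · simp
  map_zero' := by
    ext v i
    rw [thetaFun_apply]
    simp
  map_mul' M N := by
    ext v i
    simp only [ContinuousLinearMap.mul_apply, thetaFun_apply, CStarMatrix.mul_apply, map_sum,
      map_mul, ContinuousLinearMap.sum_apply]
    rw [Finset.sum_comm]
  map_add' M N := by
    ext v i
    simp only [ContinuousLinearMap.add_apply, PiLp.add_apply, thetaFun_apply,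
      CStarMatrix.add_apply, map_add, Finset.sum_add_distrib]
  commutes' c := by
    ext v i
    rw [thetaFun_apply]
    simp only [CStarMatrix.algebraMap_apply]
    rw [Finset.sum_eq_single i]
    · simp [Algebra.algebraMap_eq_smul_one]
    · intro j _ hj
      simp [Ne.symm hj]
    · simp
  map_star' M := by
    rw [ContinuousLinearMap.star_eq_adjoint]
    rw [ContinuousLinearMap.eq_adjoint_iff]
    intro v w
    simp only [PiLp.inner_apply, thetaFun_apply, CStarMatrix.star_apply, map_star, sum_inner,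
      inner_sum, ContinuousLinearMap.star_eq_adjoint, ContinuousLinearMap.adjoint_inner_left]
    rw [Finset.sum_comm]

lemma theta_apply (π : A →⋆ₐ[ℂ] (H →L[ℂ] H)) (M : CStarMatrix (Fin k) (Fin k) A)
    (v : PiLp 2 (fun _ : Fin k => H)) (i : Fin k) :
    theta π M v i = ∑ j, π (M i j) (v j) := thetaFun_apply π M v i

lemma theta_injective (π : A →⋆ₐ[ℂ] (H →L[ℂ] H)) (hπ : Function.Injective π) :
    Function.Injective (theta (k := k) π) := by
  rw [injective_iff_map_eq_zero]
  intro M hM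
  ext i j
  rw [CStarMatrix.zero_apply]
  apply hπ
  rw [map_zero]
  ext h
  have h1 := congrArg (fun T => T (WithLp.toLp 2 (Pi.single j h)) i) hM
  simp only [theta_apply, ContinuousLinearMap.zero_apply, PiLp.zero_apply] at h1
  rw [Finset.sum_eq_single j] at h1
  · simpa using h1
  · intro l _ hl
    simp [hl]
  · simp

/-- Criterion for positivity of a matrix over a represented C*-algebra. -/
lemma matrix_nonneg (π : A →⋆ₐ[ℂ] (H →L[ℂ] H)) (hπ : Function.Injective π)
    (M : CStarMatrix (Fin k) (Fin k) A)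
    (h : ∀ v : Fin k → H, 0 ≤ ∑ i, ∑ j, ⟪v i, π (M i j) (v j)⟫_ℂ) : 0 ≤ M := by
  apply nonneg_of_map_nonneg (theta π) (theta_injective π hπ)
  rw [ContinuousLinearMap.nonneg_iff_isPositive, ContinuousLinearMap.isPositive_iff_complex]
  intro v
  have h1 : ⟪theta π M v, v⟫_ℂ = (starRingEnd ℂ) (∑ i, ∑ j, ⟪v i, π (M i j) (v j)⟫_ℂ) := by
    rw [← inner_conj_symm]
    congr 1
    simp only [PiLp.inner_apply, theta_apply, inner_sum]
  have h2 := h (fun i => v i)
  rw [h1]
  generalize (∑ i, ∑ j, ⟪v i, π (M i j) (v j)⟫_ℂ) = z at h2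
  rw [Complex.nonneg_iff] at h2
  constructor
  · apply Complex.ext
    · simp
    · simp [← h2.2]
  · simpa using h2.1

/-- Converse: a nonnegative matrix acts positively. -/
lemma matrix_nonneg_apply (π : A →⋆ₐ[ℂ] (H →L[ℂ] H))
    (M : CStarMatrix (Fin k) (Fin k) A) (hM : 0 ≤ M) (v : Fin k → H) :
    0 ≤ ∑ i, ∑ j, ⟪v i, π (M i j) (v j)⟫_ℂ := by
  rw [StarOrderedRing.nonneg_iff] at hM
  induction hM using AddSubmonoid.closure_induction with
  | zero => simp
  | add M N _ _ h1 h2 =>
    simp only [CStarMatrix.add_apply, map_add, ContinuousLinearMap.add_apply, inner_add_right,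
      Finset.sum_add_distrib]
    exact add_nonneg h1 h2
  | mem M hM =>
  obtain ⟨X, rfl⟩ := hM
  simp only
  have h1 : ∑ i, ∑ j, ⟪v i, π ((star X * X) i j) (v j)⟫_ℂ =
      ∑ l, ⟪∑ i, π (X l i) (v i), ∑ j, π (X l j) (v j)⟫_ℂ := by
    simp only [CStarMatrix.mul_apply, CStarMatrix.star_apply, map_sum, map_mul, map_star,
      ContinuousLinearMap.sum_apply, ContinuousLinearMap.mul_apply, inner_sum, sum_inner,
      ContinuousLinearMap.star_eq_adjoint, ContinuousLinearMap.adjoint_inner_right]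
    have h2 : ∀ i : Fin k, ∑ j, ∑ l, ⟪π (X l i) (v i), π (X l j) (v j)⟫_ℂ =
        ∑ l, ∑ j, ⟪π (X l i) (v i), π (X l j) (v j)⟫_ℂ := fun i => Finset.sum_comm
    simp only [h2]
    rw [Finset.sum_comm]
    refine Finset.sum_congr rfl fun l _ => ?_
    rw [Finset.sum_comm]
  rw [h1]
  apply Finset.sum_nonneg
  intro l _
  rw [inner_self_eq_norm_sq_to_K]
  positivity

end theta

section cp

variable {A₁ A₂ : Type*} [CStarAlgebra A₁] [PartialOrder A₁] [StarOrderedRing A₁]
  [CStarAlgebra A₂] [PartialOrder A₂] [StarOrderedRing A₂]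
variable {H : Type*} [NormedAddCommGroup H] [InnerProductSpace ℂ H] [CompleteSpace H]
variable {K : Type*} [NormedAddCommGroup K] [InnerProductSpace ℂ K] [CompleteSpace K]

/-- A map of Stinespring form is completely positive. -/
def cpOfStinespring (π : A₂ →⋆ₐ[ℂ] (H →L[ℂ] H)) (hπ : Function.Injective π)
    (ρ : A₁ →⋆ₐ[ℂ] (K →L[ℂ] K)) (V : H →L[ℂ] K) (Φ : A₁ →ₗ[ℂ] A₂)
    (hΦ : ∀ a, π (Φ a) = V.adjoint ∘L (ρ a) ∘L V) : A₁ →CP A₂ where
  toLinearMap := Φ
  map_cstarMatrix_nonneg' k M hM := by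
    apply matrix_nonneg π hπ
    intro v
    simp only [CStarMatrix.map_apply, hΦ, ContinuousLinearMap.comp_apply,
      ContinuousLinearMap.adjoint_inner_right]
    exact matrix_nonneg_apply ρ M hM (fun i => V (v i))

/-- Complete positivity evaluated on the matrix `star (a i) * a j`. -/
lemma cp_sum_nonneg (π : A₂ →⋆ₐ[ℂ] (H →L[ℂ] H)) (Φ : A₁ →CP A₂) {k : ℕ} (a : Fin k → A₁)
    (v : Fin k → H) :
    0 ≤ ∑ i, ∑ j, ⟪v i, π (Φ (star (a i) * a j)) (v j)⟫_ℂ := by
  rcases Nat.eq_zero_or_pos k with rfl | hk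
  · simp
  let X : CStarMatrix (Fin k) (Fin k) A₁ := fun l j => if l = ⟨0, hk⟩ then a j else 0
  have h1 : ∀ i j, (star X * X) i j = star (a i) * a j := by
    intro i j
    rw [CStarMatrix.mul_apply]
    rw [Finset.sum_eq_single (⟨0, hk⟩ : Fin k)]
    · simp [X, CStarMatrix.star_apply]
    · intro l _ hl
      simp [X, hl]
    · simp
  have h2 := CompletelyPositiveMap.map_cstarMatrix_nonneg Φ (star X * X)
    (star_mul_self_nonneg X)
  have h3 := matrix_nonneg_apply π _ h2 v
  simpa only [CStarMatrix.map_apply, h1] using h3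

end cp

end Pool.Helper40.Haagerup
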