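import Pool.Agent.Helper40.Haagerup.UI

/-!
No completely positive compact contraction of `B` is close to the identity.
-/

noncomputable section

open scoped InnerProductSpace ComplexOrder symmDiff Pointwise
open Filter Topology TopologicalSpace FreeGroup

namespace Pool.Helper40.Haagerup

variable {α W : Type} [DecidableEq α] [DecidableEq W]
variable {H : Type} [NormedAddCommGroup H] [InnerProductSpace ℂ H] [CompleteSpace H]
variable {e : HilbertBasis (Lamp α W) ℂ H} {T : W → (H →L[ℂ] H)}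

/-- lam as an element of B -/
def lamB (e : HilbertBasis (Lamp α W) ℂ H) (T : W → (H →L[ℂ] H)) (x : Lamp α W) : algB e T :=
  ⟨lam e x, lam_mem_algB e T x⟩

/-- The positive definite function of a core map. -/
def phiOf (Φ : CoreMap e (algB e T)) (x : Lamp α W) : ℂ := ⟪e x, Φ.F (lamB e T x) (e 1)⟫_ℂ

lemma isPD_phiOf (hT : ∀ w, T w ∈ vN e) (Φ : CoreMap e (algB e T)) : IsPD (phiOf Φ) := by
  intro u
  set s := u.support
  let g : Fin s.card ≃ s := s.equivFin.symm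
  have h1 := Φ.cp s.card (fun i => lamB e T (g i)) (fun i => u (g i) • e ((g i : Lamp α W)⁻¹))
  have h2 : ∀ i j : Fin s.card, ⟪u (g i) • e ((g i : Lamp α W)⁻¹),
      Φ.F (star (lamB e T (g i)) * lamB e T (g j)) (u (g j) • e ((g j : Lamp α W)⁻¹))⟫_ℂ =
      (starRingEnd ℂ) (u (g i)) * u (g j) * phiOf Φ ((g i : Lamp α W)⁻¹ * g j) := by
    intro i j
    have e1 : star (lamB e T (g i)) * lamB e T (g j) = lamB e T ((g i : Lamp α W)⁻¹ * g j) := by
      apply Subtype.ext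
      change star (lam e (g i)) * lam e (g j) = lam e ((g i : Lamp α W)⁻¹ * g j)
      rw [star_lam, lam_mul]
    rw [e1, map_smul, inner_smul_left, inner_smul_right,
      mat_eq_co (algB_le_vN e hT (Φ.mem _)), inv_inv]
    unfold phiOf co
    ring
  simp only [h2] at h1
  have h3 : pdForm (phiOf Φ) u u = ∑ i, ∑ j, (starRingEnd ℂ) (u (g i)) * u (g j) *
      phiOf Φ ((g i : Lamp α W)⁻¹ * g j) := by
    unfold pdForm
    simp only [Finsupp.sum]
    rw [← Finset.sum_coe_sort]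
    rw [← Equiv.sum_comp g]
    refine Finset.sum_congr rfl fun i _ => ?_
    rw [← Finset.sum_coe_sort]
    rw [← Equiv.sum_comp g]
  rw [h3]
  exact h1

lemma phiOf_one_le (Φ : CoreMap e (algB e T)) : (phiOf Φ 1).re ≤ 1 := by
  unfold phiOf
  refine (Complex.re_le_norm _).trans ?_
  have h1 : ‖Φ.F (lamB e T 1)‖ ≤ 1 := (Φ.contr _).trans (norm_lam_le _)
  calc ‖⟪e 1, Φ.F (lamB e T 1) (e 1)⟫_ℂ‖ ≤ ‖e 1‖ * ‖Φ.F (lamB e T 1) (e 1)‖ :=
        norm_inner_le_norm _ _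
    _ ≤ ‖e 1‖ * (‖Φ.F (lamB e T 1)‖ * ‖e 1‖) := by
        gcongr; exact (Φ.F (lamB e T 1)).le_opNorm _
    _ ≤ 1 * (1 * 1) := by
        rw [e.orthonormal.1 1]
        gcongr
    _ = 1 := by norm_num

lemma phiOf_close (Φ : CoreMap e (algB e T)) (x : Lamp α W) (ε : ℝ)
    (h : ‖(Φ.F (lamB e T x) - lam e x) (e 1)‖ ≤ ε) : ‖phiOf Φ x - 1‖ ≤ ε := by
  have h1 : phiOf Φ x - 1 = ⟪e x, (Φ.F (lamB e T x) - lam e x) (e 1)⟫_ℂ := by
    rw [ContinuousLinearMap.sub_apply, inner_sub_right, lam_apply, mul_one,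
      inner_self_eq_norm_sq_to_K, e.orthonormal.1 x]
    unfold phiOf
    simp
  rw [h1]
  calc _ ≤ ‖e x‖ * ‖(Φ.F (lamB e T x) - lam e x) (e 1)‖ := norm_inner_le_norm _ _
    _ ≤ 1 * ε := by rw [e.orthonormal.1 x]; gcongr
    _ = ε := one_mul _

/-- Spectral projections of the lamp group. -/
def PS (e : HilbertBasis (Lamp α W) ℂ H) (S σ : Finset (FreeGroup α)) : H →L[ℂ] H :=
  ((2 : ℂ) ^ S.card)⁻¹ • ∑ A ∈ S.powerset, ((sgn A σ : ℝ) : ℂ) • lam e (lA A)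

lemma PS_mem_spanA (S σ : Finset (FreeGroup α)) : PS e S σ ∈ spanA e := by
  unfold PS
  apply Submodule.smul_mem
  apply Submodule.sum_mem
  intro A _
  apply Submodule.smul_mem
  exact Submodule.subset_span ⟨A, rfl⟩

lemma star_PS (S σ : Finset (FreeGroup α)) : star (PS e S σ) = PS e S σ := by
  unfold PS
  rw [star_smul, star_sum]
  congr 1
  · simp
  · refine Finset.sum_congr rfl fun A _ => ?_
    rw [star_smul, star_lam, lA_inv]
    congr 1
    simp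

lemma PS_mul (S σ τ : Finset (FreeGroup α)) (hσ : σ ⊆ S) (hτ : τ ⊆ S) :
    PS e S σ * PS e S τ = if σ = τ then PS e S σ else 0 := by
  have h1 : PS e S σ * PS e S τ = ((2 : ℂ) ^ S.card)⁻¹ • ((2 : ℂ) ^ S.card)⁻¹ •
      ∑ C ∈ S.powerset, (∑ A ∈ S.powerset, ((sgn (σ ∆ τ) A : ℝ) : ℂ)) •
        ((sgn C τ : ℝ) : ℂ) • lam e (lA C) := by
    unfold PS
    rw [smul_mul_smul_comm, ← smul_smul]
    congr 2
    rw [Finset.sum_mul_sum]
    have h2 : ∀ A ∈ S.powerset, ∑ B ∈ S.powerset, (((sgn A σ : ℝ) : ℂ) • lam e (lA A)) *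
        (((sgn B τ : ℝ) : ℂ) • lam e (lA B)) =
        ∑ C ∈ S.powerset, ((sgn (σ ∆ τ) A : ℝ) : ℂ) • ((sgn C τ : ℝ) : ℂ) • lam e (lA C) := by
      intro A hA
      rw [Finset.mem_powerset] at hA
      rw [← sum_powerset_symmDiff S A hA]
      refine Finset.sum_congr rfl fun C _ => ?_
      rw [smul_mul_smul_comm, ← lam_mul, lA_mul]
      have e1 : A ∆ (C ∆ A) = C := by
        rw [symmDiff_comm C A]; exact symmDiff_symmDiff_cancel_left A C
      rw [e1, smul_smul]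
      congr 1
      rw [sgn_symmDiff_left, sgn_symmDiff_left, sgn_comm σ A, sgn_comm τ A]
      push_cast; ring
    rw [Finset.sum_congr rfl h2, Finset.sum_comm]
    refine Finset.sum_congr rfl fun C _ => ?_
    rw [Finset.sum_smul]
  rw [h1]
  have h3 : (∑ A ∈ S.powerset, ((sgn (σ ∆ τ) A : ℝ) : ℂ)) =
      if σ = τ then ((2 : ℂ) ^ S.card) else 0 := by
    rw [← Complex.ofReal_sum, sum_sgn S _ (symmDiff_mem_powerset hσ hτ)]
    by_cases h : σ = τ
    · subst h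
      simp
    · have h' : σ ∆ τ ≠ ∅ := fun hc => h (symmDiff_eq_bot.mp hc)
      rw [if_neg h', if_neg h]
      simp
  rw [h3]
  split_ifs with h
  · subst h
    unfold PS
    rw [← Finset.smul_sum, smul_smul (((2 : ℂ) ^ S.card)⁻¹) ((2 : ℂ) ^ S.card),
      inv_mul_cancel₀ (by positivity), one_smul]
  · simp

/-- sum of spectral projections -/
def EQ (e : HilbertBasis (Lamp α W) ℂ H) (S : Finset (FreeGroup α))
    (Q : Finset (Finset (FreeGroup α))) : H →L[ℂ] H := ∑ σ ∈ Q, PS e S σ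

lemma isPr_EQ (S : Finset (FreeGroup α)) (Q : Finset (Finset (FreeGroup α)))
    (hQ : Q ⊆ S.powerset) : IsPr e (EQ e S Q) := by
  refine ⟨Submodule.sum_mem _ fun σ _ => PS_mem_spanA S σ, ?_, ?_⟩
  · unfold EQ
    rw [Finset.sum_mul_sum]
    refine Finset.sum_congr rfl fun σ hσ => ?_
    have hσ' := Finset.mem_powerset.mp (hQ hσ)
    rw [Finset.sum_eq_single σ]
    · rw [PS_mul S σ σ hσ' hσ', if_pos rfl]
    · intro τ hτ hne
      rw [PS_mul S σ τ hσ' (Finset.mem_powerset.mp (hQ hτ)), if_neg (Ne.symm hne)]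
    · intro h; exact absurd hσ h
  · unfold EQ
    rw [star_sum]
    exact Finset.sum_congr rfl fun σ _ => star_PS S σ

lemma lA_injective : Function.Injective (lA : Finset (FreeGroup α) → Lamp α W) := by
  intro A B h
  exact congrArg Lamp.A h

lemma inner_PS (S σ : Finset (FreeGroup α)) :
    ⟪e 1, PS e S σ (e 1)⟫_ℂ = ((2 : ℂ) ^ S.card)⁻¹ := by
  classical
  unfold PS
  simp only [ContinuousLinearMap.smul_apply, ContinuousLinearMap.sum_apply, lam_apply, mul_one,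
    inner_smul_right, inner_sum]
  rw [Finset.sum_eq_single ∅]
  · rw [lA_empty, inner_self_eq_norm_sq_to_K, e.orthonormal.1 1]
    simp
  · intro A _ hA
    rw [orthonormal_iff_ite.mp e.orthonormal, if_neg, mul_zero]
    rw [← lA_empty]
    intro h
    exact hA (lA_injective h).symm
  · intro h; exact absurd (Finset.empty_mem_powerset S) h

lemma IsPr.inner_left {E : H →L[ℂ] H} (hE : IsPr e E) (u v : H) :
    ⟪E u, v⟫_ℂ = ⟪u, E v⟫_ℂ := by
  have hs : ContinuousLinearMap.adjoint E = E := by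
    rw [← ContinuousLinearMap.star_eq_adjoint]; exact hE.2.2
  calc ⟪E u, v⟫_ℂ = ⟪ContinuousLinearMap.adjoint E u, v⟫_ℂ := by rw [hs]
    _ = ⟪u, E v⟫_ℂ := ContinuousLinearMap.adjoint_inner_left _ _ _

lemma norm_sq_of_isPr {E : H →L[ℂ] H} (hE : IsPr e E) (u : H) :
    ((‖E u‖ ^ 2 : ℝ) : ℂ) = ⟪u, E u⟫_ℂ := by
  have h1 : ⟪E u, E u⟫_ℂ = ⟪u, E u⟫_ℂ := by
    rw [hE.inner_left, ← ContinuousLinearMap.mul_apply, hE.2.1]
  rw [← h1, inner_self_eq_norm_sq_to_K]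
  push_cast
  rfl

lemma norm_EQ_sq (S : Finset (FreeGroup α)) (Q : Finset (Finset (FreeGroup α)))
    (hQ : Q ⊆ S.powerset) : ‖EQ e S Q (e 1)‖ ^ 2 = (Q.card : ℝ) / 2 ^ S.card := by
  have h1 := norm_sq_of_isPr (isPr_EQ (e := e) S Q hQ) (e 1)
  have h2 : ⟪e 1, EQ e S Q (e 1)⟫_ℂ = (((Q.card : ℝ) / 2 ^ S.card : ℝ) : ℂ) := by
    unfold EQ
    rw [ContinuousLinearMap.sum_apply, inner_sum]
    simp only [inner_PS]
    rw [Finset.sum_const, nsmul_eq_mul]
    push_cast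
    rw [div_eq_mul_inv]
  rw [h2] at h1
  exact_mod_cast h1

lemma isPr_PS (S σ : Finset (FreeGroup α)) (hσ : σ ⊆ S) : IsPr e (PS e S σ) := by
  have h := isPr_EQ (e := e) S {σ} (by simpa using hσ)
  unfold EQ at h
  simpa using h

lemma norm_PS_sq (S σ : Finset (FreeGroup α)) (hσ : σ ⊆ S) :
    ‖PS e S σ (e 1)‖ ^ 2 = 1 / 2 ^ S.card := by
  have h1 := norm_sq_of_isPr (isPr_PS (e := e) S σ hσ) (e 1)
  rw [inner_PS] at h1
  have h2 : (((2 : ℂ) ^ S.card)⁻¹) = ((1 / 2 ^ S.card : ℝ) : ℂ) := by push_cast; simp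
  rw [h2] at h1
  exact_mod_cast h1

/-- element of `B` -/
def toB (T : W → (H →L[ℂ] H)) (E : H →L[ℂ] H) (hE : E ∈ spanA e) : algB e T :=
  ⟨E, spanA_le_algB hE⟩

lemma F_PS (Φ : CoreMap e (algB e T)) (S σ : Finset (FreeGroup α)) :
    Φ.F (toB T (PS e S σ) (PS_mem_spanA S σ)) =
      ((2 : ℂ) ^ S.card)⁻¹ • ∑ A ∈ S.powerset, ((sgn A σ : ℝ) : ℂ) • Φ.F (lamB e T (lA A)) := by
  have h1 : toB T (PS e S σ) (PS_mem_spanA S σ) =
      ((2 : ℂ) ^ S.card)⁻¹ • ∑ A ∈ S.powerset, ((sgn A σ : ℝ) : ℂ) • lamB e T (lA A) := by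
    apply Subtype.ext
    simp [toB, PS, lamB]
  rw [h1, map_smul, map_sum]
  simp only [map_smul]

lemma F_EQ (Φ : CoreMap e (algB e T)) (S : Finset (FreeGroup α))
    (Q : Finset (Finset (FreeGroup α))) (h : EQ e S Q ∈ spanA e) :
    Φ.F (toB T (EQ e S Q) h) = ∑ σ ∈ Q, Φ.F (toB T (PS e S σ) (PS_mem_spanA S σ)) := by
  rw [← map_sum]
  congr 1
  apply Subtype.ext
  simp [toB, EQ]

/-- The key trace formula. -/
lemma trace_formula (hT : ∀ w, T w ∈ vN e) (Φ : CoreMap e (algB e T))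
    (S : Finset (FreeGroup α)) (σ : Finset (FreeGroup α)) :
    ∑ ρ ∈ S.powerset, ⟪e 1, Φ.F (toB T (PS e S (ρ ∆ σ)) (PS_mem_spanA S _))
      (PS e S ρ (e 1))⟫_ℂ = ((fS (psi (phiOf Φ)) S σ / 2 ^ S.card : ℝ) : ℂ) := by
  have hpd := isPD_phiOf hT Φ
  -- matrix of the restriction
  set Kf : Finset (FreeGroup α) → Finset (FreeGroup α) → ℂ := fun A A' =>
    ⟪e 1, Φ.F (lamB e T (lA A)) (e (lA A'))⟫_ℂ with hKf
  have hKdiag : ∀ A, Kf A A = phiOf Φ (lA A) := by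
    intro A
    simp only [hKf]
    rw [mat_eq_co (algB_le_vN e hT (Φ.mem _)), lA_inv, one_mul]
    rfl
  have h1 : ∀ ρ, ⟪e 1, Φ.F (toB T (PS e S (ρ ∆ σ)) (PS_mem_spanA S _)) (PS e S ρ (e 1))⟫_ℂ =
      ((2 : ℂ) ^ S.card)⁻¹ * (((2 : ℂ) ^ S.card)⁻¹ * ∑ A ∈ S.powerset, ∑ A' ∈ S.powerset,
        ((sgn (A ∆ A') ρ : ℝ) : ℂ) * (((sgn A σ : ℝ) : ℂ) * Kf A A')) := by
    intro ρ
    rw [F_PS]
    unfold PS
    simp only [ContinuousLinearMap.smul_apply, ContinuousLinearMap.sum_apply, map_smul, map_sum,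
      inner_smul_right, inner_sum, lam_apply, mul_one]
    congr 1
    rw [Finset.sum_comm (s := S.powerset) (t := S.powerset)
      (f := fun A A' => ((sgn (A ∆ A') ρ : ℝ) : ℂ) * (((sgn A σ : ℝ) : ℂ) * Kf A A')),
      Finset.mul_sum]
    refine Finset.sum_congr rfl fun A' _ => ?_
    rw [mul_left_comm]
    congr 1
    rw [Finset.mul_sum]
    refine Finset.sum_congr rfl fun A _ => ?_
    rw [sgn_symmDiff_left, sgn_symmDiff_right]
    push_cast
    ring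
  rw [Finset.sum_congr rfl fun ρ _ => h1 ρ, ← Finset.mul_sum, ← Finset.mul_sum]
  rw [Finset.sum_comm]
  have h2 : ∀ A ∈ S.powerset, ∑ ρ ∈ S.powerset, ∑ A' ∈ S.powerset,
      ((sgn (A ∆ A') ρ : ℝ) : ℂ) * (((sgn A σ : ℝ) : ℂ) * Kf A A') =
      (2 : ℂ) ^ S.card * (((sgn A σ : ℝ) : ℂ) * phiOf Φ (lA A)) := by
    intro A hA
    rw [Finset.mem_powerset] at hA
    rw [Finset.sum_comm, Finset.sum_eq_single A]
    · rw [← Finset.sum_mul, ← Complex.ofReal_sum, symmDiff_self, Finset.bot_eq_empty,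
        sum_sgn S _ (Finset.empty_subset _), if_pos rfl, hKdiag]
      push_cast
      ring
    · intro A' hA' hne
      rw [← Finset.sum_mul, ← Complex.ofReal_sum,
        sum_sgn S _ (symmDiff_mem_powerset hA (Finset.mem_powerset.mp hA')), if_neg]
      · simp
      · intro hc
        exact hne (symmDiff_eq_bot.mp hc).symm
    · intro h
      exact absurd (Finset.mem_powerset.mpr hA) h
  rw [Finset.sum_congr rfl h2, ← Finset.mul_sum]
  have h3 : ∑ A ∈ S.powerset, ((sgn A σ : ℝ) : ℂ) * phiOf Φ (lA A) =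
      ((fS (psi (phiOf Φ)) S σ : ℝ) : ℂ) := by
    unfold fS
    push_cast
    refine Finset.sum_congr rfl fun A _ => ?_
    rw [phi_lA hpd]
  rw [h3]
  push_cast
  field_simp

/-- Uniform integrability of the densities. -/
lemma ui_densities [Countable α] (hT : ∀ w, T w ∈ NC e (∅ : Set W))
    (hfib : ∀ S ∈ NC e (∅ : Set W), ¬ {w | T w = S}.Countable)
    (Φ : CoreMap e (algB e T)) (ε : ℝ) (hε : 0 < ε) :
    ∃ δ > 0, ∀ S : Finset (FreeGroup α), ∀ Q : Finset (Finset (FreeGroup α)),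
      Q ⊆ S.powerset → (Q.card : ℝ) / 2 ^ S.card < δ →
      (∑ σ ∈ Q, fS (psi (phiOf Φ)) S σ) / 2 ^ S.card ≤ ε := by
  have hTv : ∀ w, T w ∈ vN e := fun w => (hT w).1
  obtain ⟨δ, hδ, hui⟩ := uniform_integrability hT hfib Φ ε hε
  refine ⟨δ ^ 2, by positivity, fun S Q hQ hcard => ?_⟩
  -- translate
  have hbound : ∀ ρ ∈ S.powerset, ‖∑ σ ∈ Q, ⟪e 1, Φ.F (toB T (PS e S (ρ ∆ σ)) (PS_mem_spanA S _))
      (PS e S ρ (e 1))⟫_ℂ‖ ≤ ε * (1 / 2 ^ S.card) := by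
    intro ρ hρ
    have hρ' := Finset.mem_powerset.mp hρ
    set Qρ := Q.image (fun σ => ρ ∆ σ) with hQρ
    have hinj : Function.Injective (fun σ : Finset (FreeGroup α) => ρ ∆ σ) :=
      symmDiff_right_injective ρ
    have hQρS : Qρ ⊆ S.powerset := by
      intro τ hτ
      rw [hQρ, Finset.mem_image] at hτ
      obtain ⟨σ, hσ, rfl⟩ := hτ
      rw [Finset.mem_powerset]
      exact symmDiff_mem_powerset hρ' (Finset.mem_powerset.mp (hQ hσ))
    have hpr := isPr_EQ (e := e) S Qρ hQρS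
    have hn : ‖EQ e S Qρ (e 1)‖ < δ := by
      apply lt_of_pow_lt_pow_left₀ 2 hδ.le
      rw [norm_EQ_sq S Qρ hQρS, hQρ, Finset.card_image_of_injective Q hinj]
      exact hcard
    have h1 := hui (toB T (EQ e S Qρ) hpr.1) hpr hn
    have h2 : ∑ σ ∈ Q, ⟪e 1, Φ.F (toB T (PS e S (ρ ∆ σ)) (PS_mem_spanA S _))
        (PS e S ρ (e 1))⟫_ℂ = ⟪e 1, Φ.F (toB T (EQ e S Qρ) hpr.1) (PS e S ρ (e 1))⟫_ℂ := by
      rw [F_EQ, ContinuousLinearMap.sum_apply, inner_sum, hQρ,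
        Finset.sum_image (fun x _ y _ h => hinj h)]
    rw [h2]
    -- trace property
    have hPρ := isPr_PS (e := e) S ρ hρ'
    have hFv : Φ.F (toB T (EQ e S Qρ) hpr.1) ∈ vN e := algB_le_vN e hTv (Φ.mem _)
    have hPv : PS e S ρ ∈ vN e := (spanA_le_NC hPρ.1).1
    have h3 : ⟪e 1, Φ.F (toB T (EQ e S Qρ) hpr.1) (PS e S ρ (e 1))⟫_ℂ =
        ⟪PS e S ρ (e 1), Φ.F (toB T (EQ e S Qρ) hpr.1) (PS e S ρ (e 1))⟫_ℂ := by
      have h4 := trace_mul_comm (e := e) (S := Φ.F (toB T (EQ e S Qρ) hpr.1) * PS e S ρ)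
        (T := PS e S ρ) (mul_mem hFv hPv) hPv
      rw [mul_assoc, hPρ.2.1] at h4
      simp only [ContinuousLinearMap.mul_apply] at h4
      rw [h4, hPρ.inner_left]
    rw [h3]
    calc _ ≤ ‖PS e S ρ (e 1)‖ * ‖Φ.F (toB T (EQ e S Qρ) hpr.1) (PS e S ρ (e 1))‖ :=
          norm_inner_le_norm _ _
      _ ≤ ‖PS e S ρ (e 1)‖ * (ε * ‖PS e S ρ (e 1)‖) := by
          gcongr
          refine ((Φ.F (toB T (EQ e S Qρ) hpr.1)).le_opNorm _).trans ?_
          gcongr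
      _ = ε * ‖PS e S ρ (e 1)‖ ^ 2 := by ring
      _ = ε * (1 / 2 ^ S.card) := by rw [norm_PS_sq S ρ hρ']
  have h5 : (((∑ σ ∈ Q, fS (psi (phiOf Φ)) S σ) / 2 ^ S.card : ℝ) : ℂ) =
      ∑ ρ ∈ S.powerset, ∑ σ ∈ Q, ⟪e 1, Φ.F (toB T (PS e S (ρ ∆ σ)) (PS_mem_spanA S _))
        (PS e S ρ (e 1))⟫_ℂ := by
    rw [Finset.sum_comm]
    rw [Finset.sum_congr rfl fun σ _ => trace_formula hTv Φ S σ]
    push_cast
    rw [Finset.sum_div]
  have h6 : ‖(((∑ σ ∈ Q, fS (psi (phiOf Φ)) S σ) / 2 ^ S.card : ℝ) : ℂ)‖ ≤ ε := by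
    rw [h5]
    calc _ ≤ ∑ ρ ∈ S.powerset,
          ‖∑ σ ∈ Q, ⟪e 1, Φ.F (toB T (PS e S (ρ ∆ σ)) (PS_mem_spanA S _))
            (PS e S ρ (e 1))⟫_ℂ‖ := norm_sum_le _ _
      _ ≤ ∑ ρ ∈ S.powerset, ε * (1 / 2 ^ S.card) := Finset.sum_le_sum hbound
      _ = ε := by
          rw [Finset.sum_const, Finset.card_powerset, nsmul_eq_mul]
          push_cast
          field_simp
  rw [Complex.norm_real, Real.norm_eq_abs] at h6
  exact (le_abs_self _).trans h6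

/-- There is no core map close to the identity. -/
theorem no_core_map [Countable α] {a b : α} (hab : a ≠ b) (hT : ∀ w, T w ∈ NC e (∅ : Set W))
    (hfib : ∀ S ∈ NC e (∅ : Set W), ¬ {w | T w = S}.Countable)
    (Φ : CoreMap e (algB e T))
    (ha : ‖(Φ.F (lamB e T (lg (of a))) - lam e (lg (of a))) (e 1)‖ ≤ 1 / 200000000)
    (hb : ‖(Φ.F (lamB e T (lg (of b))) - lam e (lg (of b))) (e 1)‖ ≤ 1 / 200000000)
    (he : ‖(Φ.F (lamB e T (lA {1})) - lam e (lA {1})) (e 1)‖ ≤ 1 / 200000000) : False := by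
  have hTv : ∀ w, T w ∈ vN e := fun w => (hT w).1
  have hpd := isPD_phiOf hTv Φ
  have h1 := phiOf_one_le Φ
  have ha' := phiOf_close Φ _ _ ha
  have hb' := phiOf_close Φ _ _ hb
  have he' := phiOf_close Φ _ _ he
  have hre : ∀ z : ℂ, ‖z - 1‖ ≤ 1 / 200000000 → 1 - 1 / 200000000 ≤ z.re := by
    intro z hz
    have h2 := Complex.abs_re_le_norm (z - 1)
    rw [Complex.sub_re, Complex.one_re] at h2
    have h3 := (abs_le.mp (h2.trans hz)).1
    linarith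
  have ha2 := hre _ ha'
  have hb2 := hre _ hb'
  have he2 := hre _ he'
  let f : HilbertBasis (Finset (FreeGroup α)) ℂ (lp (fun _ : Finset (FreeGroup α) => ℂ) 2) :=
    HilbertBasis.ofRepr (LinearIsometryEquiv.refl ℂ _)
  have hAI : ∀ g : FreeGroup α, g = of a ∨ g = of b → ∀ S,
      avg S (fun σ => |fS (psi (phiOf Φ)) S σ - fS (psi (phiOf Φ)) (g • S) (g • σ)|) ≤
        (15 / 1000 : ℝ) ^ 2 := by
    intro g hg S
    refine (almost_inv hpd g S).trans ?_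
    have hg2 : 1 - 1 / 200000000 ≤ (phiOf Φ (lg g)).re := by
      rcases hg with rfl | rfl
      · exact ha2
      · exact hb2
    have h3 : Real.sqrt (phiOf Φ 1).re ≤ 1 := Real.sqrt_le_one.mpr h1
    have h4 : Real.sqrt (2 * ((phiOf Φ 1).re - (phiOf Φ (lg g)).re)) ≤ 1 / 10000 := by
      rw [Real.sqrt_le_left (by norm_num)]
      norm_num
      linarith
    calc 2 * Real.sqrt (phiOf Φ 1).re * Real.sqrt (2 * ((phiOf Φ 1).re - (phiOf Φ (lg g)).re))
        ≤ 2 * 1 * (1 / 10000) := by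
          apply mul_le_mul _ h4 (Real.sqrt_nonneg _) (by norm_num)
          linarith
      _ ≤ (15 / 1000 : ℝ) ^ 2 := by norm_num
  have hX := theoremX f hab (psi (phiOf Φ)) (fun S σ _ => fS_psi_nonneg hpd S σ)
    (by
      change (phiOf Φ (lA ∅)).re ≤ 1
      rw [lA_empty]; exact h1)
    (fun ε hε => ui_densities hT hfib Φ ε hε) (15 / 1000) (by norm_num) hAI (2 / 100)
    (by norm_num)
  have h5 : psi (phiOf Φ) {1} = (phiOf Φ (lA {1})).re := rfl
  rw [h5, abs_le] at hX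
  linarith [hX.2]

end Pool.Helper40.Haagerup
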