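import Mathlib

/-!
Definitions for the Haagerup property of a unital C*-algebra with a faithful tracial state.
-/

noncomputable section

open scoped InnerProductSpace ComplexOrder CStarAlgebra
open Filter Topology

namespace Pool.Helper40.Haagerup

universe u

/-- A faithful tracial state on a unital C*-algebra. -/
structure IsFaithfulTracialState {A : Type u} [CStarAlgebra A] [PartialOrder A]
    [StarOrderedRing A] (τ : A →ₚ[ℂ] ℂ) : Prop where
  map_one : τ 1 = 1
  tracial : ∀ a b : A, τ (a * b) = τ (b * a)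
  faithful : ∀ a : A, τ (star a * a) = 0 → a = 0

/-- The image of an element of `A` in the GNS Hilbert space `L²(A, τ)` (the completion of `A`
for the inner product `⟨a, b⟩ = τ (star a * b)`). -/
def toGNS {A : Type u} [CStarAlgebra A] [PartialOrder A] [StarOrderedRing A]
    (τ : A →ₚ[ℂ] ℂ) (a : A) : τ.GNS := ((τ.toPreGNS a : τ.PreGNS) : τ.GNS)

/-- The Haagerup property of `(A, τ)`: there is a net of completely positive contractive maps
`Φ i : A → A` with `τ (Φ i a) ≤ τ a` for `0 ≤ a`, each of which extends to a compact operator on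
the GNS Hilbert space of `τ`, and with `‖Φ i a - a‖_τ → 0` for every `a`. -/
def HaagerupProperty {A : Type u} [CStarAlgebra A] [PartialOrder A] [StarOrderedRing A]
    (τ : A →ₚ[ℂ] ℂ) : Prop :=
  ∃ (ι : Type u) (_ : Preorder ι) (_ : IsDirectedOrder ι) (_ : Nonempty ι) (Φ : ι → A →CP A),
    (∀ i a, ‖Φ i a‖ ≤ ‖a‖) ∧
    (∀ i a, 0 ≤ a → τ (Φ i a) ≤ τ a) ∧
    (∀ i, ∃ K : τ.GNS →L[ℂ] τ.GNS, IsCompactOperator K ∧ ∀ a, K (toGNS τ a) = toGNS τ (Φ i a)) ∧
    (∀ a, Tendsto (fun i => ‖toGNS τ (Φ i a - a)‖) atTop (𝓝 0))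

lemma norm_toGNS_sq {A : Type u} [CStarAlgebra A] [PartialOrder A] [StarOrderedRing A]
    (τ : A →ₚ[ℂ] ℂ) (a : A) : ((‖toGNS τ a‖ : ℂ)) ^ 2 = τ (star a * a) := by
  unfold toGNS
  rw [UniformSpace.Completion.norm_coe]
  exact τ.preGNS_norm_sq (τ.toPreGNS a)

lemma inner_toGNS {A : Type u} [CStarAlgebra A] [PartialOrder A] [StarOrderedRing A]
    (τ : A →ₚ[ℂ] ℂ) (a b : A) : ⟪toGNS τ a, toGNS τ b⟫_ℂ = τ (star a * b) := by
  unfold toGNS
  rw [UniformSpace.Completion.inner_coe]
  rfl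

lemma toGNS_add {A : Type u} [CStarAlgebra A] [PartialOrder A] [StarOrderedRing A]
    (τ : A →ₚ[ℂ] ℂ) (a b : A) : toGNS τ (a + b) = toGNS τ a + toGNS τ b := by
  unfold toGNS
  rw [map_add, UniformSpace.Completion.coe_add]

lemma toGNS_smul {A : Type u} [CStarAlgebra A] [PartialOrder A] [StarOrderedRing A]
    (τ : A →ₚ[ℂ] ℂ) (c : ℂ) (a : A) : toGNS τ (c • a) = c • toGNS τ a := by
  unfold toGNS
  rw [map_smul, UniformSpace.Completion.coe_smul]

lemma denseRange_toGNS {A : Type u} [CStarAlgebra A] [PartialOrder A] [StarOrderedRing A]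
    (τ : A →ₚ[ℂ] ℂ) : DenseRange (toGNS τ) :=
  UniformSpace.Completion.denseRange_coe.comp (Function.Surjective.denseRange
    τ.toPreGNS.surjective) (UniformSpace.Completion.continuous_coe _)

end Pool.Helper40.Haagerup
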