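import Pool.Agent.Helper40.Haagerup.Lamp
import Pool.Agent.Helper40.Haagerup.GroupTrace

/-!
The group von Neumann algebra of `(ℤ/2 ≀ F) × (ℤ/2)^(W)` has the Haagerup property.
-/

noncomputable section

open scoped InnerProductSpace ComplexOrder symmDiff Pointwise
open Filter Topology

namespace Pool.Helper40.Haagerup

section Feat

variable {P R : Type} [DecidableEq P] [DecidableEq R]

/-- coefficient -/
def fcoef (r : ℝ) (n m : ℕ) : ℝ := r ^ n * Real.sqrt (r⁻¹ ^ 2 - 1) ^ m

/-- Feature vector of the kernel `r ^ |A ∆ B|`. -/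
def featVec (r : ℝ) (A : Finset P) (ρ : R) : lp (fun _ : Finset P × R => ℂ) 2 :=
  ∑ D ∈ A.powerset, ((fcoef r A.card D.card : ℝ) : ℂ) • lp.single 2 (D, ρ) (1 : ℂ)

lemma inner_single_one {I : Type} [DecidableEq I] (i j : I) :
    ⟪(lp.single 2 i (1 : ℂ) : lp (fun _ : I => ℂ) 2), lp.single 2 j (1 : ℂ)⟫_ℂ =
      if i = j then 1 else 0 := by
  rw [lp.inner_single_left, lp.single_apply, Pi.single_apply]
  split_ifs <;> simp

lemma inner_featVec (r : ℝ) (hr : 0 < r) (hr1 : r ≤ 1) (A B : Finset P) (ρ ρ' : R) :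
    ⟪featVec r A ρ, featVec r B ρ'⟫_ℂ = if ρ = ρ' then ((r ^ (A ∆ B).card : ℝ) : ℂ) else 0 := by
  unfold featVec
  rw [sum_inner]
  simp only [inner_sum, inner_smul_left, inner_smul_right, inner_single_one, Complex.conj_ofReal,
    Prod.mk.injEq]
  by_cases hρ : ρ = ρ'
  · subst hρ
    simp only [and_true, if_true]
    have h1 : ∀ D ∈ A.powerset, ∑ D' ∈ B.powerset, ((fcoef r A.card D.card : ℝ) : ℂ) *
        (((fcoef r B.card D'.card : ℝ) : ℂ) * if D = D' then 1 else 0) =
        if D ∈ B.powerset then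
          (((fcoef r A.card D.card) * (fcoef r B.card D.card) : ℝ) : ℂ) else 0 := by
      intro D _
      split_ifs with hD
      · rw [Finset.sum_eq_single D]
        · simp
        · intro D' _ hne
          simp [Ne.symm hne]
        · intro h; exact absurd hD h
      · apply Finset.sum_eq_zero
        intro D' hD'
        have : D ≠ D' := by rintro rfl; exact hD hD'
        simp [this]
    have h1' : ∑ D ∈ A.powerset, ∑ D' ∈ B.powerset, ((fcoef r B.card D'.card : ℝ) : ℂ) *
        (((fcoef r A.card D.card : ℝ) : ℂ) * if D = D' then 1 else 0) =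
        ∑ D ∈ A.powerset, ∑ D' ∈ B.powerset, ((fcoef r A.card D.card : ℝ) : ℂ) *
        (((fcoef r B.card D'.card : ℝ) : ℂ) * if D = D' then 1 else 0) := by
      refine Finset.sum_congr rfl fun D _ => Finset.sum_congr rfl fun D' _ => by ring
    have h2 : ∑ D ∈ A.powerset, ∑ D' ∈ B.powerset, ((fcoef r A.card D.card : ℝ) : ℂ) *
        (((fcoef r B.card D'.card : ℝ) : ℂ) * if D = D' then 1 else 0) =
        ((r ^ (A ∆ B).card : ℝ) : ℂ) := by
      rw [Finset.sum_congr rfl h1, ← Finset.sum_filter]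
      have h3 : A.powerset.filter (fun D => D ∈ B.powerset) = (A ∩ B).powerset := by
        ext D
        simp only [Finset.mem_filter, Finset.mem_powerset, Finset.subset_inter_iff]
      rw [h3, ← Complex.ofReal_sum]
      congr 1
      have ht : 0 ≤ r⁻¹ ^ 2 - 1 := by
        have : 1 ≤ r⁻¹ := (one_le_inv₀ hr).mpr hr1
        nlinarith
      have h4 : ∀ D ∈ (A ∩ B).powerset, fcoef r A.card D.card * fcoef r B.card D.card =
          r ^ A.card * r ^ B.card * ((r⁻¹ ^ 2 - 1) ^ D.card * 1 ^ ((A ∩ B).card - D.card)) := by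
        intro D _
        unfold fcoef
        rw [one_pow, mul_one]
        have : Real.sqrt (r⁻¹ ^ 2 - 1) ^ D.card * Real.sqrt (r⁻¹ ^ 2 - 1) ^ D.card =
            (r⁻¹ ^ 2 - 1) ^ D.card := by
          rw [← mul_pow, Real.mul_self_sqrt ht]
        rw [← this]; ring
      rw [Finset.sum_congr rfl h4, ← Finset.mul_sum, Finset.sum_pow_mul_eq_add_pow,
        sub_add_cancel]
      have h5 : A.card + B.card = (A ∆ B).card + 2 * (A ∩ B).card := by
        have e1 : (A ∆ B).card = (A \ B).card + (B \ A).card := by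
          rw [Finset.symmDiff_def]
          exact Finset.card_union_of_disjoint disjoint_sdiff_sdiff
        have e2 := Finset.card_sdiff_add_card_inter A B
        have e3 := Finset.card_sdiff_add_card_inter B A
        rw [Finset.inter_comm B A] at e3
        omega
      rw [← pow_add, h5, pow_add, ← pow_mul, mul_assoc, ← mul_pow, mul_inv_cancel₀ hr.ne',
        one_pow, mul_one]
    first
      | rw [h2]
      | rw [h1', h2]
  · simp [hρ]

end Feat

section Kernel

variable {α W : Type} [DecidableEq α] [DecidableEq W]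

instance : DecidableEq (Wall α) := Classical.decEq _

/-- The finite set of walls attached to a group element. -/
def Afin (x : Lamp α W) : Finset (Wall α) :=
  (finite_Wset_symmDiff x⁻¹ (1 : Lamp α W)).toFinset

lemma coe_Afin (x : Lamp α W) : (Afin x : Set (Wall α)) = Wset x⁻¹ ∆ Wset (1 : Lamp α W) := by
  simp [Afin]

lemma Afin_symmDiff (x y : Lamp α W) :
    ((Afin x ∆ Afin y : Finset (Wall α)) : Set (Wall α)) = Wset x⁻¹ ∆ Wset y⁻¹ := by
  rw [Finset.coe_symmDiff, coe_Afin, coe_Afin, symmDiff_assoc, ← symmDiff_assoc (Wset 1),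
    symmDiff_comm (Wset (1 : Lamp α W)) (Wset y⁻¹), symmDiff_assoc, symmDiff_self,
    symmDiff_bot]

lemma card_Afin_symmDiff (x y : Lamp α W) :
    (Afin x ∆ Afin y).card = (Wset x⁻¹ ∆ Wset y⁻¹).ncard := by
  rw [← Set.ncard_coe_finset, Afin_symmDiff]

lemma Afin_one : Afin (1 : Lamp α W) = ∅ := by
  rw [← Finset.coe_inj, coe_Afin, inv_one, symmDiff_self]
  simp

/-- The kernel with parameter `r` and finite window `S`. -/
def lampKernel (r : ℝ) (hr : 0 < r) (hr1 : r ≤ 1) (S : Finset W) :
    InvKernel (Lamp α W) (Finset (Wall α) × Finset W) where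
  v x := featVec r (Afin x) (x.S \ S)
  unit x := by
    rw [inner_featVec r hr hr1]
    simp
  inv x y g := by
    rw [inner_featVec r hr hr1, inner_featVec r hr hr1]
    have h1 : (Afin (y * g) ∆ Afin (x * g)).card = (Afin y ∆ Afin x).card := by
      rw [card_Afin_symmDiff, card_Afin_symmDiff, mul_inv_rev, mul_inv_rev, Wset_mul, Wset_mul,
        ← Set.smul_set_symmDiff, Set.ncard_smul_set]
    have h2 : ((y * g).S \ S = (x * g).S \ S) ↔ (y.S \ S = x.S \ S) := by
      simp only [Lamp.mul_S]
      have h3 : ∀ P Q : Finset W, (P ∆ Q) \ S = (P \ S) ∆ (Q \ S) := by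
        intro P Q
        ext z
        simp only [Finset.mem_sdiff, Finset.mem_symmDiff]
        tauto
      rw [h3, h3]
      constructor
      · intro h
        exact symmDiff_left_injective _ h
      · intro h
        rw [h]
    rw [h1]
    simp only [h2]

lemma phi_lampKernel (r : ℝ) (hr : 0 < r) (hr1 : r ≤ 1) (S : Finset W) (x : Lamp α W) :
    (lampKernel r hr hr1 S).phi x =
      if x.S ⊆ S then ((r ^ (Wset x⁻¹ ∆ Wset (1 : Lamp α W)).ncard : ℝ) : ℂ) else 0 := by
  unfold InvKernel.phi lampKernel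
  simp only
  rw [inner_featVec r hr hr1, Afin_one]
  have h1 : (Afin x ∆ (∅ : Finset (Wall α))) = Afin x := symmDiff_bot _
  have h2 : (Afin x).card = (Wset x⁻¹ ∆ Wset (1 : Lamp α W)).ncard := by
    rw [← coe_Afin, Set.ncard_coe_finset]
  rw [h1, h2]
  simp only [Lamp.one_S, Finset.empty_sdiff, Finset.sdiff_eq_empty_iff_subset]

lemma c0_lampKernel [Finite α] (r : ℝ) (hr : 0 < r) (hr1 : r < 1) (S : Finset W) (ε : ℝ)
    (hε : 0 < ε) : {x : Lamp α W | ε ≤ ‖(lampKernel r hr hr1.le S).phi x‖}.Finite := by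
  obtain ⟨n, hn⟩ := exists_pow_lt_of_lt_one hε hr1
  have h1 := (finite_Wset_le (α := α) S n).preimage (f := fun x => x⁻¹) inv_injective.injOn
  apply h1.subset
  intro x hx
  simp only [Set.mem_setOf_eq, phi_lampKernel] at hx
  simp only [Set.mem_preimage, Set.mem_setOf_eq, Lamp.inv_S]
  split_ifs at hx with h
  · refine ⟨h, ?_⟩
    by_contra hcon
    push Not at hcon
    rw [Complex.norm_real, Real.norm_of_nonneg (by positivity)] at hx
    have := pow_le_pow_of_le_one hr.le hr1.le hcon.le
    linarith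
  · simp at hx
    linarith

/-- The group von Neumann algebra of `(ℤ/2 ≀ F) × (ℤ/2)^(W)` has the Haagerup property. -/
theorem haagerup_lamp [Finite α] {H : Type} [NormedAddCommGroup H] [InnerProductSpace ℂ H]
    [CompleteSpace H] (e : HilbertBasis (Lamp α W) ℂ H) : HaagerupProperty (tauN e) := by
  let r : ℕ → ℝ := fun n => 1 - 1 / ((n : ℝ) + 2)
  have hr0 : ∀ n, 0 < r n := by
    intro n
    simp only [r]
    have : (1 : ℝ) / ((n : ℝ) + 2) < 1 := by
      rw [div_lt_one (by positivity)]
      have : (0 : ℝ) ≤ n := n.cast_nonneg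
      linarith
    linarith
  have hr1 : ∀ n, r n < 1 := by
    intro n
    simp only [r]
    have : (0 : ℝ) < 1 / ((n : ℝ) + 2) := by positivity
    linarith
  apply haagerup_of_kernels e (ℕ × Finset W)
    (fun i => lampKernel (r i.1) (hr0 i.1) (hr1 i.1).le i.2)
  · intro i ε hε
    exact c0_lampKernel (r i.1) (hr0 i.1) (hr1 i.1) i.2 ε hε
  · intro x
    simp only [phi_lampKernel]
    have h1 : Tendsto r atTop (𝓝 1) := by
      have h2 : Tendsto (fun n : ℕ => 1 / ((n : ℝ) + 2)) atTop (𝓝 0) := by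
        have := (tendsto_const_div_atTop_nhds_zero_nat (1 : ℝ)).comp (tendsto_add_atTop_nat 2)
        refine this.congr fun n => ?_
        simp
      have h3 := h2.const_sub 1
      rw [sub_zero] at h3
      exact h3
    have h2 : Tendsto (fun n => ((r n ^ (Wset x⁻¹ ∆ Wset (1 : Lamp α W)).ncard : ℝ) : ℂ)) atTop
        (𝓝 1) := by
      have h3 := h1.pow (Wset x⁻¹ ∆ Wset (1 : Lamp α W)).ncard
      rw [one_pow] at h3
      have h4 := (Complex.continuous_ofReal.tendsto 1).comp h3
      simpa [Function.comp_def] using h4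
    have h3 : Tendsto (fun i : ℕ × Finset W =>
        ((r i.1 ^ (Wset x⁻¹ ∆ Wset (1 : Lamp α W)).ncard : ℝ) : ℂ)) atTop (𝓝 1) := by
      have : Tendsto (Prod.fst : ℕ × Finset W → ℕ) atTop atTop := by
        rw [← prod_atTop_atTop_eq]
        exact tendsto_fst
      exact h2.comp this
    refine h3.congr' ?_
    filter_upwards [eventually_ge_atTop ((0, x.S) : ℕ × Finset W)] with i hi
    have : x.S ⊆ i.2 := hi.2
    simp [this]

end Kernel

end Pool.Helper40.Haagerup
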