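import Pool.Agent.Helper40.Haagerup.Contra
import Pool.Agent.Helper40.Haagerup.LampHaag

/-!
Final assembly: a C*-algebra with faithful tracial state with the Haagerup property and a
C*-subalgebra without it.
-/

noncomputable section

open scoped InnerProductSpace ComplexOrder symmDiff Pointwise CStarAlgebra
open Filter Topology TopologicalSpace FreeGroup

namespace Pool.Helper40.Haagerup

set_option maxHeartbeats 400000

section Compact

variable {G : Type} {H : Type} [NormedAddCommGroup H] [InnerProductSpace ℂ H] [CompleteSpace H]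

lemma compact_small (e : HilbertBasis G ℂ H) (L : H →L[ℂ] H) (hL : IsCompactOperator L)
    (ε : ℝ) (hε : 0 < ε) : {x : G | ε ≤ ‖L (e x)‖}.Finite := by
  by_contra hinf
  have hinf' : {x : G | ε ≤ ‖L (e x)‖}.Infinite := hinf
  let x := hinf'.natEmbedding
  have hK := hL.isCompact_closure_image_closedBall (1 : ℝ)
  have hmem : ∀ n, L (e (x n : G)) ∈ closure (L '' Metric.closedBall 0 1) := by
    intro n
    apply subset_closure
    refine ⟨e (x n : G), ?_, rfl⟩
    rw [Metric.mem_closedBall, dist_zero_right, e.orthonormal.1]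
  obtain ⟨a, _, φ, hφ, hlim⟩ := hK.tendsto_subseq hmem
  have h1 : Tendsto (fun n => ‖L (e (x (φ n) : G))‖) atTop (𝓝 ‖a‖) := hlim.norm
  have h2 : ε ≤ ‖a‖ := ge_of_tendsto h1 (Eventually.of_forall fun n => (x (φ n)).2)
  have h3 : Tendsto (fun n => ⟪L (e (x (φ n) : G)), a⟫_ℂ) atTop (𝓝 ⟪a, a⟫_ℂ) :=
    Tendsto.inner hlim tendsto_const_nhds
  have h4 : Tendsto (fun n => ‖⟪L (e (x (φ n) : G)), a⟫_ℂ‖ ^ 2) atTop (𝓝 0) := by
    have h5 := (hasSum_norm_sq e (L.adjoint a)).summable.tendsto_cofinite_zero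
    have h6 : Function.Injective (fun n => (x (φ n) : G)) := fun m n h =>
      hφ.injective (x.injective (Subtype.ext h))
    have h7 := h5.comp (h6.tendsto_cofinite)
    rw [Nat.cofinite_eq_atTop] at h7
    refine h7.congr fun n => ?_
    simp only [Function.comp_apply, ContinuousLinearMap.adjoint_inner_right]
  have h8 := (h3.norm.pow 2)
  have h9 := tendsto_nhds_unique h8 h4
  rw [inner_self_eq_norm_sq_to_K] at h9
  have h10 : ‖a‖ = 0 := by
    have : ‖((‖a‖ : ℝ) : ℂ) ^ 2‖ = 0 := by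
      exact pow_eq_zero_iff (two_ne_zero) |>.mp h9
    rw [norm_pow, Complex.norm_real, norm_norm] at this
    exact pow_eq_zero_iff (two_ne_zero) |>.mp this
  linarith

end Compact

section Restrict

variable {G : Type} [Group G] {H : Type} [NormedAddCommGroup H] [InnerProductSpace ℂ H]
  [CompleteSpace H]

/-- A subalgebra of `B(H)` contained in the group von Neumann algebra, as a subalgebra of it. -/
def subN (e : HilbertBasis G ℂ H) (B : StarSubalgebra ℂ (H →L[ℂ] H)) :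
    StarSubalgebra ℂ (vN e) := B.comap (vN e).subtype

lemma mem_subN (e : HilbertBasis G ℂ H) (B : StarSubalgebra ℂ (H →L[ℂ] H)) (a : vN e) :
    a ∈ subN e B ↔ (a : H →L[ℂ] H) ∈ B := Iff.rfl

lemma isClosed_subN (e : HilbertBasis G ℂ H) (B : StarSubalgebra ℂ (H →L[ℂ] H))
    (hB : IsClosed (B : Set (H →L[ℂ] H))) : IsClosed (subN e B : Set (vN e)) :=
  hB.preimage continuous_subtype_val

/-- inclusion of a concrete algebra into `subN` -/
def convB (e : HilbertBasis G ℂ H) (B : StarSubalgebra ℂ (H →L[ℂ] H)) (hB : B ≤ vN e) :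
    B →ₗ[ℂ] subN e B where
  toFun b := ⟨⟨b, hB b.2⟩, b.2⟩
  map_add' _ _ := rfl
  map_smul' _ _ := rfl

end Restrict

section Core

variable {G : Type} [Group G] {H : Type} [NormedAddCommGroup H] [InnerProductSpace ℂ H]
  [CompleteSpace H]

lemma conj_compact {K₁ H₁ : Type} [NormedAddCommGroup K₁] [InnerProductSpace ℂ K₁]
    [CompleteSpace K₁] [NormedAddCommGroup H₁] [InnerProductSpace ℂ H₁] [CompleteSpace H₁]
    (J : K₁ →L[ℂ] H₁) (K : K₁ →L[ℂ] K₁) (hK : IsCompactOperator K) :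
    IsCompactOperator (J ∘L (K ∘L J.adjoint)) :=
  (hK.comp_clm J.adjoint).clm_comp J

/-- Extracting one map from the Haagerup property. -/
lemma extract {A : Type} [CStarAlgebra A] [PartialOrder A] [StarOrderedRing A]
    (τ : A →ₚ[ℂ] ℂ) (h : HaagerupProperty τ) (b₁ b₂ b₃ : A) (ε : ℝ) (hε : 0 < ε) :
    ∃ Φ : A →CP A, (∀ a, ‖Φ a‖ ≤ ‖a‖) ∧
      (∃ K : τ.GNS →L[ℂ] τ.GNS, IsCompactOperator K ∧ ∀ a, K (toGNS τ a) = toGNS τ (Φ a)) ∧
      ‖toGNS τ (Φ b₁ - b₁)‖ ≤ ε ∧ ‖toGNS τ (Φ b₂ - b₂)‖ ≤ ε ∧ ‖toGNS τ (Φ b₃ - b₃)‖ ≤ ε := by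
  obtain ⟨ι, _, _, _, Φ, hcon, _, hK, hlim⟩ := h
  have hev : ∀ b : A, ∀ᶠ i in atTop, ‖toGNS τ (Φ i b - b)‖ < ε := fun b =>
    (hlim b).eventually (gt_mem_nhds hε)
  obtain ⟨i, hi1, hi2, hi3⟩ := ((hev b₁).and ((hev b₂).and (hev b₃))).exists
  exact ⟨Φ i, hcon i, hK i, hi1.le, hi2.le, hi3.le⟩

/-- Passage to the concrete Hilbert space, abstractly. -/
lemma exists_L {A : Type} [CStarAlgebra A] [PartialOrder A] [StarOrderedRing A]
    (τ : A →ₚ[ℂ] ℂ) (e : HilbertBasis G ℂ H) (π : A →⋆ₐ[ℂ] (H →L[ℂ] H))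
    (hπ : ∀ a b, ⟪toGNS τ a, toGNS τ b⟫_ℂ = ⟪π a (e 1), π b (e 1)⟫_ℂ)
    (K : τ.GNS →L[ℂ] τ.GNS) (hKc : IsCompactOperator K) (Φ : A → A)
    (hK : ∀ a, K (toGNS τ a) = toGNS τ (Φ a)) :
    ∃ L : H →L[ℂ] H, (∀ ε > 0, {x : G | ε ≤ ‖L (e x)‖}.Finite) ∧
      ∀ b, π (Φ b) (e 1) = L (π b (e 1)) := by
  have hnorm : ∀ a, ‖toGNS τ a‖ = ‖π a (e 1)‖ := by
    intro a
    have h1 := hπ a a
    rw [inner_self_eq_norm_sq_to_K, inner_self_eq_norm_sq_to_K] at h1
    have h2 : ‖toGNS τ a‖ ^ 2 = ‖π a (e 1)‖ ^ 2 := by exact_mod_cast h1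
    exact (pow_left_inj₀ (norm_nonneg _) (norm_nonneg _) two_ne_zero).mp h2
  let ev : A →ₗ[ℂ] H := ⟨⟨fun a => π a (e 1), fun a b => by simp⟩, fun c a => by simp⟩
  let J : τ.GNS →L[ℂ] H := ev.extendOfNorm (toGNSₗ τ)
  have hJ : ∀ a, J (toGNS τ a) = π a (e 1) := by
    intro a
    refine LinearMap.extendOfNorm_eq (f := ev) (e := toGNSₗ τ)
      (denseRange_toGNS τ) ⟨1, fun x => ?_⟩ a
    rw [one_mul]
    exact (hnorm x).ge
  have hJin : ∀ u w, ⟪J u, J w⟫_ℂ = ⟪u, w⟫_ℂ := by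
    intro u w
    refine (denseRange_toGNS τ).induction_on₂
      (p := fun u w => ⟪J u, J w⟫_ℂ = ⟪u, w⟫_ℂ) ?_ ?_ u w
    · apply isClosed_eq <;> fun_prop
    · intro a b
      rw [hJ, hJ, hπ]
  have hJad : ∀ u, J.adjoint (J u) = u := by
    intro u
    apply ext_inner_left ℂ
    intro w
    rw [ContinuousLinearMap.adjoint_inner_right, hJin]
  refine ⟨J ∘L (K ∘L J.adjoint), ?_, ?_⟩
  · intro ε hε
    exact compact_small e _ (conj_compact J K hKc) ε hε
  · intro b
    rw [← hJ b, ContinuousLinearMap.comp_apply, ContinuousLinearMap.comp_apply, hJad, hK, hJ]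

/-- the core map of a completely positive map of the subalgebra, abstractly -/
def mkCore {A : Type} [CStarAlgebra A] [PartialOrder A] [StarOrderedRing A]
    (e : HilbertBasis G ℂ H) (π : A →⋆ₐ[ℂ] (H →L[ℂ] H)) (B : StarSubalgebra ℂ (H →L[ℂ] H))
    (conv : B →ₗ[ℂ] A) (hstar : ∀ a b, conv (star a * b) = star (conv a) * conv b)
    (hmem : ∀ a, π a ∈ B) (hπc : ∀ b : B, π (conv b) = b)
    (Φ : A →CP A) (hcon : ∀ a, ‖π (Φ a)‖ ≤ ‖π a‖) (L : H →L[ℂ] H)
    (hsmall : ∀ ε > 0, {x : G | ε ≤ ‖L (e x)‖}.Finite)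
    (hL : ∀ b, π (Φ b) (e 1) = L (π b (e 1))) : CoreMap e B where
  F := ⟨⟨fun b => π (Φ (conv b)), by
    intro a b
    rw [map_add, map_add, map_add]⟩, by
    intro c a
    change π (Φ (conv (c • a))) = c • π (Φ (conv a))
    rw [map_smul, map_smul, map_smul]⟩
  mem := fun b => hmem _
  contr := fun b => by
    have := hcon (conv b)
    rw [hπc] at this
    exact this
  L := L
  hL := fun b => by
    have := hL (conv b)
    rw [hπc] at this
    exact this
  small := hsmall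
  cp := fun k a v => by
    have := cp_sum_nonneg π Φ (fun j => conv (a j)) v
    simp only [← hstar] at this
    exact this

/-- The data extracted from the Haagerup property, abstractly. -/
lemma core_of_haagerup {A : Type} [CStarAlgebra A] [PartialOrder A] [StarOrderedRing A]
    (τ : A →ₚ[ℂ] ℂ) (e : HilbertBasis G ℂ H) (π : A →⋆ₐ[ℂ] (H →L[ℂ] H))
    (hinj : Function.Injective π)
    (hπ : ∀ a, τ a = ⟪e 1, π a (e 1)⟫_ℂ)
    (B : StarSubalgebra ℂ (H →L[ℂ] H))
    (conv : B →ₗ[ℂ] A) (hstar : ∀ a b, conv (star a * b) = star (conv a) * conv b)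
    (hmem : ∀ a, π a ∈ B) (hπc : ∀ b : B, π (conv b) = b)
    (h : HaagerupProperty τ) (b₁ b₂ b₃ : B) (ε : ℝ) (hε : 0 < ε) :
    ∃ Φ : CoreMap e B, ‖(Φ.F b₁ - (b₁ : H →L[ℂ] H)) (e 1)‖ ≤ ε ∧
      ‖(Φ.F b₂ - (b₂ : H →L[ℂ] H)) (e 1)‖ ≤ ε ∧ ‖(Φ.F b₃ - (b₃ : H →L[ℂ] H)) (e 1)‖ ≤ ε := by
  obtain ⟨Φ, hcon, ⟨K, hKc, hK⟩, h1, h2, h3⟩ := extract τ h (conv b₁) (conv b₂) (conv b₃) ε hε
  have hin : ∀ a b, ⟪toGNS τ a, toGNS τ b⟫_ℂ = ⟪π a (e 1), π b (e 1)⟫_ℂ := by
    intro a b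
    rw [inner_toGNS, hπ, _root_.map_mul, map_star, ContinuousLinearMap.mul_apply,
      ContinuousLinearMap.star_eq_adjoint, ContinuousLinearMap.adjoint_inner_right]
  have hnorm : ∀ a, ‖toGNS τ a‖ = ‖π a (e 1)‖ := by
    intro a
    have h1 := hin a a
    rw [inner_self_eq_norm_sq_to_K, inner_self_eq_norm_sq_to_K] at h1
    have h2 : ‖toGNS τ a‖ ^ 2 = ‖π a (e 1)‖ ^ 2 := by exact_mod_cast h1
    exact (pow_left_inj₀ (norm_nonneg _) (norm_nonneg _) two_ne_zero).mp h2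
  obtain ⟨L, hsmall, hL⟩ := exists_L τ e π hin K hKc Φ hK
  have hcon' : ∀ a, ‖π (Φ a)‖ ≤ ‖π a‖ := by
    intro a
    rw [NonUnitalStarAlgHom.norm_map π hinj, NonUnitalStarAlgHom.norm_map π hinj]
    exact hcon a
  rw [hnorm, map_sub, hπc] at h1 h2 h3
  exact ⟨mkCore e π B conv hstar hmem hπc Φ hcon' L hsmall hL, h1, h2, h3⟩

end Core

section Card

variable {H : Type} [NormedAddCommGroup H] [InnerProductSpace ℂ H] [CompleteSpace H]

open Cardinal in
lemma mk_NC_le (e : HilbertBasis (Lamp Bool ℝ) ℂ H) :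
    #(NC e (∅ : Set ℝ)) ≤ 𝔠 := by
  have hinj : Function.Injective (fun (S : NC e (∅ : Set ℝ)) =>
      fun p : Finset (FreeGroup Bool) × FreeGroup Bool => co e (S : H →L[ℂ] H) ⟨p.1, p.2, ∅⟩) := by
    intro S S' h
    apply Subtype.ext
    apply vN_ext S.2.1 S'.2.1
    intro x
    by_cases hx : x.S = ∅
    · have := congrFun h (x.A, x.g)
      simp only at this
      have hx' : x = ⟨x.A, x.g, ∅⟩ := by
        ext1
        · rfl
        · rfl
        · exact hx
      rw [hx']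
      exact this
    · obtain ⟨w, hw⟩ := Finset.nonempty_iff_ne_empty.mpr hx
      rw [supp_of_commute (S.2.2 w (by simp)) x hw, supp_of_commute (S'.2.2 w (by simp)) x hw]
  haveI : Countable (FreeGroup Bool) := by
    have : Function.Injective (FreeGroup.toWord : FreeGroup Bool → List (Bool × Bool)) :=
      FreeGroup.toWord_injective
    exact this.countable
  refine (Cardinal.mk_le_of_injective hinj).trans ?_
  rw [← Cardinal.power_def, Cardinal.mk_complex]
  refine (Cardinal.power_le_power_left Cardinal.continuum_ne_zero Cardinal.mk_le_aleph0).trans ?_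
  rw [Cardinal.continuum_power_aleph0]

open Cardinal in
lemma exists_T (e : HilbertBasis (Lamp Bool ℝ) ℂ H) :
    ∃ T : ℝ → (H →L[ℂ] H), (∀ w, T w ∈ NC e (∅ : Set ℝ)) ∧
      ∀ S ∈ NC e (∅ : Set ℝ), ¬ {w | T w = S}.Countable := by
  have h1 : #(NC e (∅ : Set ℝ) × ℝ) ≤ #ℝ := by
    rw [Cardinal.mk_prod, Cardinal.lift_id, Cardinal.lift_id, Cardinal.mk_real]
    calc #(NC e (∅ : Set ℝ)) * 𝔠 ≤ 𝔠 * 𝔠 := by gcongr; exact mk_NC_le e
      _ = 𝔠 := Cardinal.continuum_mul_self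
  obtain ⟨ι⟩ := Cardinal.le_def _ _ |>.mp h1
  haveI : Nonempty (NC e (∅ : Set ℝ) × ℝ) := ⟨(0, 0)⟩
  have hinv : ∀ p, Function.invFun ι (ι p) = p := Function.leftInverse_invFun ι.injective
  refine ⟨fun w => ((Function.invFun ι w).1 : H →L[ℂ] H), fun w => (Function.invFun ι w).1.2, ?_⟩
  intro S hS hcount
  have h2 : Set.range (fun r : ℝ => ι (⟨S, hS⟩, r)) ⊆
      {w | ((Function.invFun ι w).1 : H →L[ℂ] H) = S} := by
    rintro _ ⟨r, rfl⟩
    simp only [Set.mem_setOf_eq, hinv]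
  have h3 := hcount.mono h2
  have h4 : Function.Injective (fun r : ℝ => ι (⟨S, hS⟩, r)) := by
    intro r r' h
    have := ι.injective h
    simpa using this
  have h5 : Countable ℝ := by
    have := h3.to_subtype
    exact (Equiv.ofInjective _ h4).countable_iff.mpr this
  exact not_countable h5

end Card

/-- **Main theorem.** There is a unital C*-algebra `A` with a faithful tracial state `τ` such that
`(A, τ)` has the Haagerup property, and a C*-subalgebra `B` of `A` such that the restriction of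
`τ` to `B` does not have the Haagerup property. -/
theorem main : Statement := by
  let H := lp (fun _ : Lamp Bool ℝ => ℂ) 2
  let e : HilbertBasis (Lamp Bool ℝ) ℂ H := HilbertBasis.ofRepr (LinearIsometryEquiv.refl ℂ _)
  obtain ⟨T, hT, hfib⟩ := exists_T e
  have hTv : ∀ w, T w ∈ vN e := fun w => (hT w).1
  have hBv : algB e T ≤ vN e := algB_le_vN e hTv
  have hcl : IsClosed (subN e (algB e T) : Set (vN e)) :=
    isClosed_subN e _ (StarSubalgebra.isClosed_topologicalClosure _)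
  refine ⟨vN e, inferInstance, inferInstance, inferInstance, tauN e, subN e (algB e T), hcl,
    isFaithfulTracialState_tauN e, haagerup_lamp e, ?_⟩
  intro hH
  obtain ⟨Φ, h1, h2, h3⟩ := core_of_haagerup
    (restrictFunctional (tauN e) (subN e (algB e T))) e
    ((vN e).subtype.comp (subN e (algB e T)).subtype)
    (Subtype.val_injective.comp Subtype.val_injective) (fun _ => rfl) (algB e T)
    (convB e (algB e T) hBv) (fun _ _ => rfl) (fun a => a.2) (fun _ => rfl) hH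
    (lamB e T (lg (of true))) (lamB e T (lg (of false))) (lamB e T (lA {1}))
    (1 / 200000000) (by norm_num)
  exact no_core_map (a := true) (b := false) (by simp) hT hfib Φ h1 h2 h3

end Pool.Helper40.Haagerup
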