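import Mathlib

/-!
Combinatorics of reduced words in a free group: first and last letters.
-/

noncomputable section

namespace Pool.Helper40.Haagerup

open FreeGroup

variable {α : Type} [DecidableEq α]

/-- Last letter of the reduced word. -/
def lst (g : FreeGroup α) : Option (α × Bool) := g.toWord.getLast?

/-- First letter of the reduced word. -/
def hd (g : FreeGroup α) : Option (α × Bool) := g.toWord.head?

lemma toWord_letter_mul (c : α × Bool) (x : FreeGroup α) :
    (mk [c] * x).toWord = reduce (c :: x.toWord) := by
  rw [toWord_mul, toWord_mk, reduce_singleton]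
  rfl

lemma toWord_letter_mul' (c : α × Bool) (x : FreeGroup α) :
    (mk [c] * x).toWord = match x.toWord with
      | [] => [c]
      | y :: tl => if c.1 = y.1 ∧ c.2 = !y.2 then tl else c :: y :: tl := by
  rw [toWord_letter_mul, reduce.cons, reduce_toWord]
  cases x.toWord <;> rfl

lemma lst_letter_mul (c : α × Bool) (x : FreeGroup α) (h : lst (mk [c] * x) ≠ lst x) :
    x = 1 ∨ x = (mk [c])⁻¹ := by
  unfold lst at h
  rw [toWord_letter_mul'] at h
  rcases hx : x.toWord with _ | ⟨y, tl⟩
  · left; exact toWord_eq_nil_iff.mp hx
  · rw [hx] at h
    simp only at h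
    split_ifs at h with hc
    · rcases tl with _ | ⟨z, tl⟩
      · right
        apply toWord_injective
        rw [hx, toWord_inv, toWord_mk, reduce_singleton]
        obtain ⟨h1, h2⟩ := hc
        simp only [invRev, List.map_cons, List.map_nil, List.reverse_cons, List.reverse_nil,
          List.nil_append, List.cons.injEq, and_true]
        ext
        · exact h1.symm
        · simp [h2]
      · simp at h
    · simp at h

lemma finite_lst_ne (u : FreeGroup α) : {h : FreeGroup α | lst (u * h) ≠ lst h}.Finite := by
  induction u using Quot.inductionOn with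
  | h L =>
  change {h : FreeGroup α | lst (mk L * h) ≠ lst h}.Finite
  induction L with
  | nil =>
    have : (mk [] : FreeGroup α) = 1 := rfl
    simp [this]
  | cons c L ih =>
    have h1 : (mk (c :: L) : FreeGroup α) = mk [c] * mk L := by
      rw [mul_mk]; rfl
    have h2 : {h : FreeGroup α | lst (mk (c :: L) * h) ≠ lst h} ⊆
        {h | lst (mk L * h) ≠ lst h} ∪
          (fun h => mk L * h) ⁻¹' {1, (mk [c])⁻¹} := by
      intro h hh
      simp only [Set.mem_setOf_eq] at hh
      by_cases h3 : lst (mk L * h) = lst h
      · right
        rw [h1, mul_assoc, ← h3] at hh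
        have := lst_letter_mul c _ hh
        simpa using this
      · left; exact h3
    refine (ih.union (Set.Finite.preimage ?_ (Set.toFinite _))).subset h2
    exact (mul_right_injective (mk L)).injOn

lemma isReduced_right {L₁ L₂ : List (α × Bool)} (h : IsReduced (L₁ ++ L₂)) : IsReduced L₂ :=
  List.IsChain.right_of_append h

lemma isReduced_take {L : List (α × Bool)} (h : IsReduced L) (j : ℕ) : IsReduced (L.take j) := by
  have h' : IsReduced (L.take j ++ L.drop j) := by rw [List.take_append_drop]; exact h
  exact List.IsChain.left_of_append h'

lemma isReduced_drop {L : List (α × Bool)} (h : IsReduced L) (j : ℕ) : IsReduced (L.drop j) := by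
  have h' : IsReduced (L.take j ++ L.drop j) := by rw [List.take_append_drop]; exact h
  exact List.IsChain.right_of_append h'

/-- The set of `h` for which the last letter of `h` exists and differs from that of `u * h`. -/
def Dset (u : FreeGroup α) : Set (FreeGroup α) := {h | lst h ≠ none ∧ lst (u * h) ≠ lst h}

lemma Dset_finite (u : FreeGroup α) : (Dset u).Finite :=
  (finite_lst_ne u).subset fun _ h => h.2

lemma le_ncard_Dset (u : FreeGroup α) : u.toWord.length ≤ (Dset u).ncard := by
  classical
  set L := (u⁻¹).toWord with hL
  have hlen : L.length = u.toWord.length := by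
    rw [hL, toWord_inv, invRev_length]
  have hred : IsReduced L := isReduced_toWord
  have hu : u⁻¹ = mk L := by rw [hL, mk_toWord]
  let f : ℕ → FreeGroup α := fun j => mk (L.take (j+1))
  have hf : ∀ j, (f j).toWord = L.take (j+1) := by
    intro j
    simp only [f, toWord_mk]
    exact (isReduced_take hred (j+1)).reduce_eq
  have hinj : Set.InjOn f (Finset.range L.length : Set ℕ) := by
    intro i hi j hj hij
    have h1 := congrArg (fun x => x.toWord.length) hij
    simp only [hf, List.length_take] at h1
    simp only [Finset.coe_range, Set.mem_Iio] at hi hj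
    omega
  have hsub : f '' (Finset.range L.length : Set ℕ) ⊆ Dset u := by
    rintro _ ⟨j, hj, rfl⟩
    simp only [Finset.coe_range, Set.mem_Iio] at hj
    have hlast : lst (f j) = some (L[j]'hj) := by
      unfold lst
      rw [hf, List.take_succ_eq_append_getElem hj, List.getLast?_append]
      simp
    refine ⟨by rw [hlast]; simp, ?_⟩
    rw [hlast]
    have h2 : u * f j = (mk (L.drop (j+1)))⁻¹ := by
      have h3 : mk L = mk (L.take (j+1)) * mk (L.drop (j+1)) := by
        rw [mul_mk, List.take_append_drop]
      have h4 : f j = mk (L.take (j+1)) := rfl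
      rw [← inv_inv u, hu, h3, h4, mul_inv_rev, mul_assoc, inv_mul_cancel, mul_one]
    unfold lst
    rw [h2, toWord_inv, toWord_mk,
      (isReduced_drop hred (j+1)).reduce_eq]
    rcases hd : L.drop (j+1) with _ | ⟨z, tl⟩
    · simp [invRev]
    · intro hcon
      simp only [invRev, List.map_cons, List.reverse_cons, List.getLast?_append,
        List.getLast?_singleton, Option.or_some] at hcon
      have h4 : L = L.take j ++ (L[j]'hj :: z :: tl) := by
        conv_lhs => rw [← List.take_append_drop j L]
        rw [List.drop_eq_getElem_cons hj, hd]
      have h5 : IsReduced (L[j]'hj :: z :: tl) := by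
        rw [h4] at hred
        exact isReduced_right hred
      rw [isReduced_cons_cons] at h5
      have h6 := h5.1
      have h7 := Option.some.inj hcon
      rw [← h7] at h6
      simp at h6
  calc u.toWord.length = (f '' (Finset.range L.length : Set ℕ)).ncard := by
        rw [Set.ncard_image_of_injOn hinj, Set.ncard_coe_finset, Finset.card_range, hlen]
    _ ≤ (Dset u).ncard := Set.ncard_le_ncard hsub (Dset_finite u)

lemma finite_ball [Finite α] (n : ℕ) : {u : FreeGroup α | u.toWord.length ≤ n}.Finite := by
  have h1 : {L : List (α × Bool) | L.length ≤ n}.Finite := List.finite_length_le _ n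
  exact Set.Finite.preimage toWord_injective.injOn h1

/-- First letter sets: `head x ≠ c` iff `head (c⁻¹ x) = c⁻¹`. -/
lemma hd_letter_mul (c : α × Bool) (x : FreeGroup α) :
    hd (mk [(c.1, !c.2)] * x) = some (c.1, !c.2) ↔ hd x ≠ some c := by
  unfold hd
  rw [toWord_letter_mul']
  have hred : IsReduced x.toWord := isReduced_toWord
  rcases hx : x.toWord with _ | ⟨y, tl⟩
  · simp
  · rw [hx] at hred
    simp only [List.head?_cons, ne_eq, Option.some.injEq]
    by_cases hyc : y = c
    · subst hyc
      simp only [true_and, if_true, not_true_eq_false, iff_false]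
      intro hcon
      rcases tl with _ | ⟨z, tl⟩
      · simp at hcon
      · simp only [List.head?_cons, Option.some.injEq] at hcon
        rw [isReduced_cons_cons] at hred
        have := hred.1
        rw [hcon] at this
        simp at this
    · have : ¬ (c.1 = y.1 ∧ (!c.2) = !y.2) := by
        rintro ⟨h1, h2⟩
        apply hyc
        ext
        · exact h1.symm
        · simp at h2; rw [h2]
      rw [if_neg this]
      simp [hyc]

end Pool.Helper40.Haagerup
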