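import Pool.Agent.Helper40.Haagerup.Defs
import Pool.Agent.Helper40.Haagerup.CP

/-!
Closed star subalgebras of a C*-algebra: the induced order and the restriction of positive
functionals.
-/

noncomputable section

open scoped InnerProductSpace ComplexOrder CStarAlgebra
open Filter Topology

namespace Pool.Helper40.Haagerup

universe u

lemma exists_eq_star_mul_self {B : Type*} [CStarAlgebra B] {b : B} (hb : IsSelfAdjoint b)
    (hs : ∀ x ∈ spectrum ℝ b, 0 ≤ x) : ∃ s, b = star s * s := by
  letI := CStarAlgebra.spectralOrder B
  letI := CStarAlgebra.spectralOrderedRing B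
  rw [← CStarAlgebra.nonneg_iff_eq_star_mul_self]
  rwa [StarOrderedRing.nonneg_iff_spectrum_nonneg (R := ℝ) b hb]

/-- The order induced on a closed star subalgebra of a C*-algebra is its C*-algebra order. -/
instance subStarOrderedRing {A : Type u} [CStarAlgebra A] [PartialOrder A] [StarOrderedRing A]
    (B : StarSubalgebra ℂ A) [hB : IsClosed (B : Set A)] : StarOrderedRing B := by
  apply StarOrderedRing.of_nonneg_iff'
  · intro x y hxy z
    change (z : A) + x ≤ z + y
    gcongr
  · intro x
    constructor
    · intro hx
      have hx' : 0 ≤ B.subtype x := hx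
      have hinj : Function.Injective B.subtype := Subtype.val_injective
      have hsa : IsSelfAdjoint x := by
        apply hinj
        rw [map_star]
        exact (IsSelfAdjoint.of_nonneg hx').star_eq
      apply exists_eq_star_mul_self hsa
      rw [← hsa.map_spectrum_real B.subtype hinj]
      rw [← StarOrderedRing.nonneg_iff_spectrum_nonneg (R := ℝ) _ (hsa.map B.subtype)]
      exact hx'
    · rintro ⟨s, rfl⟩
      change (0 : A) ≤ star (s : A) * s
      exact star_mul_self_nonneg _

/-- Restriction of a positive functional to a star subalgebra. -/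
def restrictFunctional {A : Type u} [CStarAlgebra A] [PartialOrder A]
    (τ : A →ₚ[ℂ] ℂ) (B : StarSubalgebra ℂ A) : B →ₚ[ℂ] ℂ where
  toFun b := τ (b : A)
  map_add' x y := by simp
  map_smul' c x := by simp
  monotone' x y hxy := by
    apply OrderHomClass.mono τ
    exact hxy

@[simp] lemma restrictFunctional_apply {A : Type u} [CStarAlgebra A] [PartialOrder A]
    (τ : A →ₚ[ℂ] ℂ) (B : StarSubalgebra ℂ A) (b : B) :
    restrictFunctional τ B b = τ (b : A) := rfl

/-- The statement to be proved. -/
def Statement : Prop :=
  ∃ (A : Type) (_ : CStarAlgebra A) (_ : PartialOrder A) (_ : StarOrderedRing A)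
    (τ : A →ₚ[ℂ] ℂ) (B : StarSubalgebra ℂ A) (_ : IsClosed (B : Set A)),
    IsFaithfulTracialState τ ∧ HaagerupProperty τ ∧
      ¬ HaagerupProperty (restrictFunctional τ B)

end Pool.Helper40.Haagerup
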