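import Pool.Agent.Helper40.Haagerup.Basis
import Pool.Agent.Helper40.Haagerup.Sub

/-!
Ampliation, diagonal operators, and positive definite multipliers of the group von Neumann
algebra.
-/

noncomputable section

open scoped InnerProductSpace ComplexOrder CStarAlgebra
open Filter Topology

namespace Pool.Helper40.Haagerup

section Amp

variable {H : Type*} [NormedAddCommGroup H] [InnerProductSpace ℂ H]
variable {D : Type*}

lemma amp_mem (T : H →L[ℂ] H) (f : lp (fun _ : D => H) 2) :
    Memℓp (fun d => T (f d)) 2 := by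
  have h1 : Memℓp (fun d => (‖T‖ : ℂ) • f d) 2 := (lp.memℓp ((‖T‖ : ℂ) • f))
  apply h1.mono'
  intro d
  rw [norm_smul]
  simpa using T.le_opNorm (f d)

/-- Ampliation of an operator. -/
def ampFun (T : H →L[ℂ] H) : lp (fun _ : D => H) 2 →L[ℂ] lp (fun _ : D => H) 2 :=
  LinearMap.mkContinuous
    { toFun := fun f => ⟨fun d => T (f d), amp_mem T f⟩
      map_add' := by
        intro f g
        apply lp.ext
        funext d
        simp
      map_smul' := by
        intro c f
        apply lp.ext
        funext d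
        simp } ‖T‖ (by
      intro f
      have h1 : ‖(⟨fun d => T (f d), amp_mem T f⟩ : lp (fun _ : D => H) 2)‖ ≤
          ‖(‖T‖ : ℂ) • f‖ := by
        apply lp.norm_mono (by norm_num)
        intro d
        rw [lp.coeFn_smul, Pi.smul_apply, norm_smul]
        simpa using T.le_opNorm (f d)
      rw [norm_smul] at h1
      simpa using h1)

@[simp] lemma ampFun_apply (T : H →L[ℂ] H) (f : lp (fun _ : D => H) 2) (d : D) :
    ampFun T f d = T (f d) := rfl

lemma norm_ampFun_le (T : H →L[ℂ] H) : ‖ampFun (D := D) T‖ ≤ ‖T‖ :=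
  LinearMap.mkContinuous_norm_le _ (norm_nonneg _) _

variable [CompleteSpace H]

/-- Ampliation as a star homomorphism. -/
def amp (D : Type*) (H : Type*) [NormedAddCommGroup H] [InnerProductSpace ℂ H] [CompleteSpace H] :
    (H →L[ℂ] H) →⋆ₐ[ℂ] (lp (fun _ : D => H) 2 →L[ℂ] lp (fun _ : D => H) 2) where
  toFun := ampFun
  map_one' := by
    ext f
    rfl
  map_zero' := by
    ext f
    rfl
  map_mul' S T := by
    ext f
    rfl
  map_add' S T := by
    ext f
    rfl
  commutes' c := by
    ext f
    rfl
  map_star' T := by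
    rw [ContinuousLinearMap.star_eq_adjoint, ContinuousLinearMap.star_eq_adjoint]
    rw [ContinuousLinearMap.eq_adjoint_iff]
    intro f g
    rw [lp.inner_eq_tsum, lp.inner_eq_tsum]
    congr 1
    funext d
    simp [ContinuousLinearMap.adjoint_inner_left]

@[simp] lemma amp_apply (T : H →L[ℂ] H) (f : lp (fun _ : D => H) 2) (d : D) :
    amp D H T f d = T (f d) := rfl

end Amp

section Diag

variable {G : Type*}

lemma diagLp_mem {c : G → ℂ} {C : ℝ} (hc : ∀ x, ‖c x‖ ≤ C) (f : lp (fun _ : G => ℂ) 2) :
    Memℓp (fun d => c d * f d) 2 := by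
  have h1 : Memℓp (fun d => (C : ℂ) • f d) 2 := (lp.memℓp ((C : ℂ) • f))
  apply h1.mono'
  intro d
  rw [norm_smul, norm_mul]
  gcongr
  rw [Complex.norm_real]
  exact (hc d).trans (le_abs_self C)

/-- Multiplication operator on `ℓ²`. -/
def diagLp (c : G → ℂ) (C : ℝ) (hc : ∀ x, ‖c x‖ ≤ C) :
    lp (fun _ : G => ℂ) 2 →L[ℂ] lp (fun _ : G => ℂ) 2 :=
  LinearMap.mkContinuous
    { toFun := fun f => ⟨fun d => c d * f d, diagLp_mem hc f⟩
      map_add' := by
        intro f g
        apply lp.ext
        funext d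
        simp [mul_add]
      map_smul' := by
        intro a f
        apply lp.ext
        funext d
        simp only [lp.coeFn_smul, Pi.smul_apply, smul_eq_mul, RingHom.id_apply]
        ring } C (by
      intro f
      have h1 : ‖(⟨fun d => c d * f d, diagLp_mem hc f⟩ : lp (fun _ : G => ℂ) 2)‖ ≤
          ‖(C : ℂ) • f‖ := by
        apply lp.norm_mono (by norm_num)
        intro d
        rw [lp.coeFn_smul, Pi.smul_apply, norm_smul, norm_mul]
        gcongr
        rw [Complex.norm_real]
        exact (hc d).trans (le_abs_self C)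
      rw [norm_smul, Complex.norm_real] at h1
      by_cases hf : f = 0
      · subst hf
        simpa using h1
      have hf' : 0 < ‖f‖ := norm_pos_iff.mpr hf
      have hne : Nonempty G := by
        by_contra hG
        rw [not_nonempty_iff] at hG
        exact hf (lp.eq_zero' f)
      have hC : 0 ≤ C := (norm_nonneg _).trans (hc hne.some)
      rw [Real.norm_of_nonneg hC] at h1
      exact h1)

lemma diagLp_apply (c : G → ℂ) (C : ℝ) (hc : ∀ x, ‖c x‖ ≤ C) (f : lp (fun _ : G => ℂ) 2) (x : G) :
    diagLp c C hc f x = c x * f x := rfl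

lemma norm_diagLp_le (c : G → ℂ) (C : ℝ) (hC : 0 ≤ C) (hc : ∀ x, ‖c x‖ ≤ C) :
    ‖diagLp c C hc‖ ≤ C := LinearMap.mkContinuous_norm_le _ hC _

variable {H : Type*} [NormedAddCommGroup H] [InnerProductSpace ℂ H]

/-- Diagonal operator with respect to a Hilbert basis. -/
def diag (e : HilbertBasis G ℂ H) (c : G → ℂ) (C : ℝ) (hc : ∀ x, ‖c x‖ ≤ C) : H →L[ℂ] H :=
  (e.repr.symm : lp (fun _ : G => ℂ) 2 →L[ℂ] H) ∘L diagLp c C hc ∘L
    (e.repr : H →L[ℂ] lp (fun _ : G => ℂ) 2)

lemma norm_diag_le (e : HilbertBasis G ℂ H) (c : G → ℂ) (C : ℝ) (hC : 0 ≤ C)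
    (hc : ∀ x, ‖c x‖ ≤ C) : ‖diag e c C hc‖ ≤ C := by
  apply ContinuousLinearMap.opNorm_le_bound _ hC
  intro u
  unfold diag
  simp only [ContinuousLinearMap.comp_apply]
  have h1 := (diagLp c C hc).le_opNorm (e.repr u)
  have h2 := norm_diagLp_le c C hC hc
  calc ‖e.repr.symm (diagLp c C hc (e.repr u))‖ = ‖diagLp c C hc (e.repr u)‖ := by simp
    _ ≤ ‖diagLp c C hc‖ * ‖e.repr u‖ := h1
    _ ≤ C * ‖u‖ := by
        rw [e.repr.norm_map]
        gcongr

lemma inner_diag (e : HilbertBasis G ℂ H) (c : G → ℂ) (C : ℝ) (hc : ∀ x, ‖c x‖ ≤ C) (u : H)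
    (x : G) : ⟪e x, diag e c C hc u⟫_ℂ = c x * ⟪e x, u⟫_ℂ := by
  rw [← e.repr_apply_apply, ← e.repr_apply_apply]
  unfold diag
  simp only [ContinuousLinearMap.comp_apply]
  change (e.repr (e.repr.symm (diagLp c C hc (e.repr u)))) x = _
  rw [LinearIsometryEquiv.apply_symm_apply]
  rfl

lemma diag_apply (e : HilbertBasis G ℂ H) (c : G → ℂ) (C : ℝ) (hc : ∀ x, ‖c x‖ ≤ C)
    (x : G) : diag e c C hc (e x) = c x • e x := by
  classical
  apply vec_ext e
  intro y
  rw [inner_diag, inner_smul_right]
  have := orthonormal_iff_ite.mp e.orthonormal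
  rw [this]
  split_ifs with h
  · rw [h]
  · simp

lemma rankOne_compact (u w : H) :
    IsCompactOperator ((innerSL ℂ u).smulRight w : H →L[ℂ] H) := by
  have h1 : IsCompactOperator (innerSL ℂ u : H →L[ℂ] ℂ) :=
    isCompactOperator_of_locallyCompactSpace_dom (innerSL ℂ u : H →L[ℂ] ℂ)
  have h2 := h1.clm_comp (ContinuousLinearMap.toSpanSingleton ℂ w)
  exact h2

variable [CompleteSpace H]

lemma isCompact_diag (e : HilbertBasis G ℂ H) (c : G → ℂ) (C : ℝ) (hC : 0 ≤ C)
    (hc : ∀ x, ‖c x‖ ≤ C) (h0 : ∀ ε > 0, {x | ε ≤ ‖c x‖}.Finite) :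
    IsCompactOperator (diag e c C hc) := by
  classical
  -- finite rank truncations
  let F : Finset G → (H →L[ℂ] H) := fun s => ∑ x ∈ s, (c x) • ((innerSL ℂ (e x)).smulRight (e x))
  have hF : ∀ s, IsCompactOperator (F s) := by
    intro s
    induction s using Finset.induction_on with
    | empty => simpa [F] using isCompactOperator_zero
    | insert a s ha ih =>
      have : F (insert a s) = (c a) • ((innerSL ℂ (e a)).smulRight (e a)) + F s := by
        simp [F, Finset.sum_insert ha]
      rw [this]
      exact ((rankOne_compact (e a) (e a)).smul (c a)).add ih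
  have hlim : Tendsto F atTop (𝓝 (diag e c C hc)) := by
    rw [Metric.tendsto_atTop]
    intro ε hε
    refine ⟨(h0 (ε/2) (by positivity)).toFinset, fun s hs => ?_⟩
    have hc' : ∀ x, ‖(if x ∈ s then 0 else c x)‖ ≤ ε/2 := by
      intro x
      split_ifs with hx
      · simp; positivity
      · by_contra hcon
        push Not at hcon
        apply hx
        apply hs
        simp [hcon.le]
    have h1 : diag e c C hc - F s = diag e (fun x => if x ∈ s then 0 else c x) (ε/2) hc' := by
      apply clm_ext e
      intro x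
      rw [ContinuousLinearMap.sub_apply, diag_apply, diag_apply]
      have h2 : F s (e x) = if x ∈ s then c x • e x else 0 := by
        simp only [F, ContinuousLinearMap.sum_apply, ContinuousLinearMap.smul_apply,
          ContinuousLinearMap.smulRight_apply, innerSL_apply_apply]
        have := orthonormal_iff_ite.mp e.orthonormal
        simp only [this]
        split_ifs with hx
        · rw [Finset.sum_eq_single x]
          · simp
          · intro y _ hy
            simp [hy]
          · intro h; exact absurd hx h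
        · apply Finset.sum_eq_zero
          intro y hy
          have : y ≠ x := by rintro rfl; exact hx hy
          simp [this]
      rw [h2]
      split_ifs <;> simp
    rw [dist_eq_norm, ← norm_neg, neg_sub, h1]
    have := norm_diag_le e (fun x => if x ∈ s then 0 else c x) (ε/2) (by positivity) hc'
    linarith
  exact isCompactOperator_of_tendsto hlim (Eventually.of_forall hF)

end Diag

end Pool.Helper40.Haagerup
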