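import Pool.Agent.Helper40.Haagerup.Free
import Pool.Agent.Helper40.Haagerup.Multiplier

/-!
Spectral gap for the action of a free group on finite nonempty subsets of itself.
-/

noncomputable section

open scoped InnerProductSpace Pointwise
open FreeGroup

namespace Pool.Helper40.Haagerup

variable {α : Type} [DecidableEq α]
variable {K : Type} [NormedAddCommGroup K] [InnerProductSpace ℂ K] [CompleteSpace K]

/-- translation operator on `ℓ²(finite subsets)` -/
def UK (f : HilbertBasis (Finset (FreeGroup α)) ℂ K) (g : FreeGroup α) : K →ₗᵢ[ℂ] K :=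
  isoOf f (v := fun A => f (g • A)) (f.orthonormal.comp _ (MulAction.injective g))

lemma UK_apply (f : HilbertBasis (Finset (FreeGroup α)) ℂ K) (g : FreeGroup α)
    (A : Finset (FreeGroup α)) : UK f g (f A) = f (g • A) :=
  isoOf_apply f (v := fun A => f (g • A)) (f.orthonormal.comp _ (MulAction.injective g)) A

/-- The weight of `A` inside `Z`. -/
def wt (Z : FreeGroup α → Prop) [DecidablePred Z] (A : Finset (FreeGroup α)) : ℝ :=
  ((A.filter Z).card : ℝ) / A.card

omit [DecidableEq α] in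
lemma wt_nonneg (Z : FreeGroup α → Prop) [DecidablePred Z] (A : Finset (FreeGroup α)) :
    0 ≤ wt Z A := by unfold wt; positivity

omit [DecidableEq α] in
lemma wt_le_one (Z : FreeGroup α → Prop) [DecidablePred Z] (A : Finset (FreeGroup α)) :
    wt Z A ≤ 1 := by
  unfold wt
  apply div_le_one_of_le₀ _ (by positivity)
  exact_mod_cast Finset.card_filter_le _ _

omit [DecidableEq α] in
lemma norm_sqrt_wt (Z : FreeGroup α → Prop) [DecidablePred Z] (A : Finset (FreeGroup α)) :
    ‖((Real.sqrt (wt Z A) : ℝ) : ℂ)‖ ≤ 1 := by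
  rw [Complex.norm_real, Real.norm_of_nonneg (Real.sqrt_nonneg _)]
  exact Real.sqrt_le_one.mpr (wt_le_one Z A)

/-- The diagonal operator with weights `√(|A ∩ Z| / |A|)`. -/
def DZ (f : HilbertBasis (Finset (FreeGroup α)) ℂ K) (Z : FreeGroup α → Prop)
    [DecidablePred Z] : K →L[ℂ] K :=
  diag f (fun A => ((Real.sqrt (wt Z A) : ℝ) : ℂ)) 1 (norm_sqrt_wt Z)

lemma norm_DZ_apply_le (f : HilbertBasis (Finset (FreeGroup α)) ℂ K) (Z : FreeGroup α → Prop)
    [DecidablePred Z] (v : K) : ‖DZ f Z v‖ ≤ ‖v‖ := by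
  have h1 := (DZ f Z).le_opNorm v
  have h2 : ‖DZ f Z‖ ≤ 1 := norm_diag_le f _ 1 zero_le_one _
  calc ‖DZ f Z v‖ ≤ ‖DZ f Z‖ * ‖v‖ := h1
    _ ≤ 1 * ‖v‖ := by gcongr
    _ = ‖v‖ := one_mul _

lemma hasSum_DZ (f : HilbertBasis (Finset (FreeGroup α)) ℂ K) (Z : FreeGroup α → Prop)
    [DecidablePred Z] (v : K) :
    HasSum (fun A => wt Z A * ‖⟪f A, v⟫_ℂ‖ ^ 2) (‖DZ f Z v‖ ^ 2) := by
  have h := hasSum_norm_sq f (DZ f Z v)
  convert h using 1
  funext A
  unfold DZ
  rw [inner_diag, norm_mul, mul_pow, Complex.norm_real,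
    Real.norm_of_nonneg (Real.sqrt_nonneg _), Real.sq_sqrt (wt_nonneg Z A)]

lemma wt_smul (Z Z' : FreeGroup α → Prop) [DecidablePred Z] [DecidablePred Z']
    (g : FreeGroup α) (h : ∀ x, Z' (g * x) ↔ Z x) (A : Finset (FreeGroup α)) :
    wt Z' (g • A) = wt Z A := by
  unfold wt
  rw [Finset.card_smul_finset]
  congr 2
  have : (g • A).filter Z' = g • (A.filter Z) := by
    ext x
    simp only [Finset.mem_filter, ← Finset.inv_smul_mem_iff, smul_eq_mul]
    rw [← h (g⁻¹ * x), mul_inv_cancel_left]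
  rw [this, Finset.card_smul_finset]

lemma norm_DZ_UK (f : HilbertBasis (Finset (FreeGroup α)) ℂ K) (Z Z' : FreeGroup α → Prop)
    [DecidablePred Z] [DecidablePred Z'] (g : FreeGroup α) (h : ∀ x, Z' (g * x) ↔ Z x) (v : K) :
    ‖DZ f Z' (UK f g v)‖ = ‖DZ f Z v‖ := by
  have h1 := hasSum_DZ f Z' (UK f g v)
  have h2 := hasSum_DZ f Z v
  have h3 := (MulAction.toPerm g : Equiv.Perm (Finset (FreeGroup α))).hasSum_iff.mpr h1
  have h4 : (fun A => wt Z' A * ‖⟪f A, UK f g v⟫_ℂ‖ ^ 2) ∘
      (MulAction.toPerm g : Equiv.Perm (Finset (FreeGroup α))) =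
      fun A => wt Z A * ‖⟪f A, v⟫_ℂ‖ ^ 2 := by
    funext A
    simp only [Function.comp_apply, MulAction.toPerm_apply]
    rw [wt_smul Z Z' g h A, ← UK_apply, LinearIsometry.inner_map_map]
  rw [h4] at h3
  have h5 := h3.unique h2
  exact (pow_left_inj₀ (norm_nonneg _) (norm_nonneg _) two_ne_zero).mp h5

lemma DZ_add_compl (f : HilbertBasis (Finset (FreeGroup α)) ℂ K) (Z : FreeGroup α → Prop)
    [DecidablePred Z] (v : K) :
    ‖DZ f Z v‖ ^ 2 + ‖DZ f (fun x => ¬ Z x) v‖ ^ 2 = ‖DZ f (fun _ => True) v‖ ^ 2 := by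
  have h1 := (hasSum_DZ f Z v).add (hasSum_DZ f (fun x => ¬ Z x) v)
  have h2 := hasSum_DZ f (fun _ => True) v
  refine h1.unique ?_
  convert h2 using 1
  funext A
  rw [← add_mul]
  congr 1
  unfold wt
  rw [← add_div]
  congr 1
  have h3 := Finset.card_filter_add_card_filter_not (s := A) Z
  simp only [Finset.filter_true]
  exact_mod_cast h3

lemma DZ_four (f : HilbertBasis (Finset (FreeGroup α)) ℂ K) (Z1 Z2 Z3 Z4 : FreeGroup α → Prop)
    [DecidablePred Z1] [DecidablePred Z2] [DecidablePred Z3] [DecidablePred Z4] (v : K)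
    (h12 : ∀ x, Z1 x → ¬ Z2 x) (h13 : ∀ x, Z1 x → ¬ Z3 x) (h14 : ∀ x, Z1 x → ¬ Z4 x)
    (h23 : ∀ x, Z2 x → ¬ Z3 x) (h24 : ∀ x, Z2 x → ¬ Z4 x) (h34 : ∀ x, Z3 x → ¬ Z4 x) :
    ‖DZ f Z1 v‖ ^ 2 + ‖DZ f Z2 v‖ ^ 2 + ‖DZ f Z3 v‖ ^ 2 + ‖DZ f Z4 v‖ ^ 2 ≤
      ‖DZ f (fun _ => True) v‖ ^ 2 := by
  have h1 := (((hasSum_DZ f Z1 v).add (hasSum_DZ f Z2 v)).add (hasSum_DZ f Z3 v)).add
    (hasSum_DZ f Z4 v)
  have h2 := hasSum_DZ f (fun _ => True) v
  refine hasSum_le (fun A => ?_) h1 h2
  rw [← add_mul, ← add_mul, ← add_mul]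
  apply mul_le_mul_of_nonneg_right _ (by positivity)
  unfold wt
  rw [← add_div, ← add_div, ← add_div]
  apply div_le_div_of_nonneg_right _ (by positivity)
  classical
  have h3 : (A.filter Z1).card + (A.filter Z2).card + (A.filter Z3).card +
      (A.filter Z4).card ≤ (A.filter (fun _ => True)).card := by
    rw [← Finset.card_union_of_disjoint, ← Finset.card_union_of_disjoint,
      ← Finset.card_union_of_disjoint]
    · apply Finset.card_le_card
      intro x
      simp only [Finset.mem_union, Finset.mem_filter, and_true]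
      tauto
    · rw [Finset.disjoint_left]
      intro x
      simp only [Finset.mem_union, Finset.mem_filter]
      have a1 := h14 x
      have a2 := h24 x
      have a3 := h34 x
      tauto
    · rw [Finset.disjoint_left]
      intro x
      simp only [Finset.mem_union, Finset.mem_filter]
      have a1 := h13 x
      have a2 := h23 x
      tauto
    · rw [Finset.disjoint_left]
      intro x
      simp only [Finset.mem_filter]
      have a1 := h12 x
      tauto
  exact_mod_cast h3

/-- Spectral gap: an almost invariant vector is almost a multiple of `f ∅`. -/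
theorem spectral_gap (f : HilbertBasis (Finset (FreeGroup α)) ℂ K) {a b : α} (hab : a ≠ b)
    (v : K) (η : ℝ) (ha : ‖UK f (of a) v - v‖ ≤ η) (hb : ‖UK f (of b) v - v‖ ≤ η) :
    ‖v - ⟪f ∅, v⟫_ℂ • f ∅‖ ≤ 5 * η := by
  have hη : 0 ≤ η := (norm_nonneg _).trans ha
  have hD : DZ f (fun _ => True) v = v - ⟪f ∅, v⟫_ℂ • f ∅ := by
    apply vec_ext f
    intro A
    unfold DZ
    rw [inner_diag, inner_sub_right, inner_smul_right,
      orthonormal_iff_ite.mp f.orthonormal A ∅]
    split_ifs with h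
    · subst h
      simp [wt]
    · have h1 : (A.card : ℝ) ≠ 0 := by
        rw [Ne, Nat.cast_eq_zero, Finset.card_eq_zero]; exact h
      have : wt (fun _ => True) A = 1 := by
        unfold wt
        simp only [Finset.filter_true]
        exact div_self h1
      rw [this]; simp
  rw [← hD]
  have key : ∀ c : α, ‖UK f (of c) v - v‖ ≤ η →
      ‖DZ f (fun _ => True) v‖ ^ 2 ≤ ‖DZ f (fun x => hd x = some (c, true)) v‖ ^ 2 +
        (‖DZ f (fun x => hd x = some (c, false)) v‖ + η) ^ 2 := by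
    intro c hc
    rw [← DZ_add_compl f (fun x => hd x = some (c, true)) v]
    gcongr
    have h1 : ‖DZ f (fun x => ¬ hd x = some (c, true)) (UK f (of c) v)‖ =
        ‖DZ f (fun x => hd x = some (c, false)) v‖ := by
      apply norm_DZ_UK
      intro x
      have h2 := hd_letter_mul (c, true) (of c * x)
      have h3 : (mk [(c, false)] : FreeGroup α) * (of c * x) = x := by
        have : (mk [(c, false)] : FreeGroup α) = (of c)⁻¹ := rfl
        rw [this, inv_mul_cancel_left]
      simp only [Bool.not_true] at h2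
      rw [h3] at h2
      exact h2.symm
    rw [← h1]
    have h2 : DZ f (fun x => ¬ hd x = some (c, true)) v =
        DZ f (fun x => ¬ hd x = some (c, true)) (UK f (of c) v) -
        DZ f (fun x => ¬ hd x = some (c, true)) (UK f (of c) v - v) := by
      rw [map_sub]; abel
    rw [h2]
    refine (norm_sub_le _ _).trans ?_
    gcongr
    exact (norm_DZ_apply_le f _ _).trans hc
  have ka := key a ha
  have kb := key b hb
  have hneg : ∀ c d : α × Bool, c ≠ d → ∀ x : FreeGroup α, hd x = some c → ¬ hd x = some d := by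
    intro c d hcd x h1 h2
    rw [h1] at h2
    exact hcd (Option.some.inj h2)
  have h4 := DZ_four f (fun x => hd x = some (a, true)) (fun x => hd x = some (a, false))
    (fun x => hd x = some (b, true)) (fun x => hd x = some (b, false)) v
    (hneg _ _ (by simp)) (hneg _ _ (by simp [hab])) (hneg _ _ (by simp [hab]))
    (hneg _ _ (by simp [hab])) (hneg _ _ (by simp [hab])) (hneg _ _ (by simp))
  set m := ‖DZ f (fun _ => True) v‖
  set p := ‖DZ f (fun x => hd x = some (a, false)) v‖
  set q := ‖DZ f (fun x => hd x = some (b, false)) v‖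
  set p' := ‖DZ f (fun x => hd x = some (a, true)) v‖
  set q' := ‖DZ f (fun x => hd x = some (b, true)) v‖
  have hm : 0 ≤ m := norm_nonneg _
  have hp : 0 ≤ p := norm_nonneg _
  have hq : 0 ≤ q := norm_nonneg _
  have hp' : 0 ≤ p' := norm_nonneg _
  have hq' : 0 ≤ q' := norm_nonneg _
  have hpm : p ≤ m := by
    apply le_of_sq_le_sq _ hm
    nlinarith
  have hqm : q ≤ m := by
    apply le_of_sq_le_sq _ hm
    nlinarith
  by_contra hcon
  push Not at hcon
  nlinarith [mul_nonneg hη (sub_nonneg.mpr hpm), mul_nonneg hη (sub_nonneg.mpr hqm),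
    mul_nonneg hη hη, mul_nonneg hη hm]

end Pool.Helper40.Haagerup
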