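import Pool.Agent.Helper40.Haagerup.Free

/-!
The group `(ℤ/2 ≀ F) × (ℤ/2)^(W)` and its wall structure.
-/

noncomputable section

open scoped Pointwise symmDiff
open FreeGroup

namespace Pool.Helper40.Haagerup

/-- Elements of `(ℤ/2 ≀ F) × (ℤ/2)^(W)`. -/
@[ext] structure Lamp (α W : Type) where
  A : Finset (FreeGroup α)
  g : FreeGroup α
  S : Finset W

variable {α W : Type} [DecidableEq α] [DecidableEq W]

namespace Lamp

instance : Mul (Lamp α W) := ⟨fun x y => ⟨x.A ∆ (x.g • y.A), x.g * y.g, x.S ∆ y.S⟩⟩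
instance : One (Lamp α W) := ⟨⟨∅, 1, ∅⟩⟩
instance : Inv (Lamp α W) := ⟨fun x => ⟨x.g⁻¹ • x.A, x.g⁻¹, x.S⟩⟩

@[simp] lemma mul_A (x y : Lamp α W) : (x * y).A = x.A ∆ (x.g • y.A) := rfl
@[simp] lemma mul_g (x y : Lamp α W) : (x * y).g = x.g * y.g := rfl
@[simp] lemma mul_S (x y : Lamp α W) : (x * y).S = x.S ∆ y.S := rfl
@[simp] lemma one_A : (1 : Lamp α W).A = ∅ := rfl
@[simp] lemma one_g : (1 : Lamp α W).g = 1 := rfl
@[simp] lemma one_S : (1 : Lamp α W).S = ∅ := rfl
@[simp] lemma inv_A (x : Lamp α W) : (x⁻¹).A = x.g⁻¹ • x.A := rfl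
@[simp] lemma inv_g (x : Lamp α W) : (x⁻¹).g = x.g⁻¹ := rfl
@[simp] lemma inv_S (x : Lamp α W) : (x⁻¹).S = x.S := rfl

instance : Group (Lamp α W) :=
  Group.ofLeftAxioms
    (by
      intro x y z
      ext1
      · simp only [mul_A, mul_g, Finset.smul_finset_symmDiff, symmDiff_assoc, mul_smul]
      · simp only [mul_g, mul_assoc]
      · simp only [mul_S, symmDiff_assoc])
    (by
      intro x
      ext1
      · simp only [mul_A, one_A, one_g, one_smul]
        exact bot_symmDiff x.A
      · simp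
      · simp only [mul_S, one_S]
        exact bot_symmDiff x.S)
    (by
      intro x
      ext1
      · simp only [mul_A, inv_A, inv_g, one_A]
        exact symmDiff_self _
      · simp
      · simp only [mul_S, inv_S, one_S]
        exact symmDiff_self _)

end Lamp

/-- Walls. -/
structure Wall (α : Type) where
  h : FreeGroup α
  s : α × Bool
  μ : Finset (FreeGroup α)

/-- The part of the configuration outside the half space. -/
def outside (A : Finset (FreeGroup α)) (h : FreeGroup α) (s : α × Bool) :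
    Finset (FreeGroup α) := A.filter (fun z => lst (z⁻¹ * h) ≠ some s)

omit [DecidableEq W] in
lemma outside_symmDiff (A B : Finset (FreeGroup α)) (h : FreeGroup α) (s : α × Bool) :
    outside (A ∆ B) h s = outside A h s ∆ outside B h s := by
  ext z
  simp only [outside, Finset.mem_filter, Finset.mem_symmDiff]
  tauto

lemma outside_smul (A : Finset (FreeGroup α)) (g h : FreeGroup α) (s : α × Bool) :
    g • outside A h s = outside (g • A) (g * h) s := by
  ext z
  simp only [outside, Finset.mem_filter, ← Finset.inv_smul_mem_iff, smul_eq_mul, mul_inv_rev,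
    inv_inv, mul_assoc]

@[simp] lemma outside_empty (h : FreeGroup α) (s : α × Bool) : outside ∅ h s = ∅ := rfl

instance : SMul (Lamp α W) (Wall α) :=
  ⟨fun y w => ⟨y.g * w.h, w.s, outside y.A (y.g * w.h) w.s ∆ (y.g • w.μ)⟩⟩

lemma smul_wall_def (y : Lamp α W) (w : Wall α) :
    y • w = ⟨y.g * w.h, w.s, outside y.A (y.g * w.h) w.s ∆ (y.g • w.μ)⟩ := rfl

instance : MulAction (Lamp α W) (Wall α) where
  one_smul w := by
    rw [smul_wall_def]
    simp only [Lamp.one_g, Lamp.one_A, one_mul, outside_empty, one_smul]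
    congr 1
    exact bot_symmDiff _
  mul_smul y z w := by
    simp only [smul_wall_def, Lamp.mul_g, Lamp.mul_A, mul_assoc, outside_symmDiff,
      Finset.smul_finset_symmDiff, outside_smul, mul_smul, symmDiff_assoc]

/-- The set of walls attached to a group element. -/
def Wset (x : Lamp α W) : Set (Wall α) :=
  {w | lst (x.g⁻¹ * w.h) = some w.s ∧ w.μ = outside x.A w.h w.s}

lemma smul_mem_Wset (y x : Lamp α W) (w : Wall α) : y • w ∈ Wset (y * x) ↔ w ∈ Wset x := by
  simp only [Wset, Set.mem_setOf_eq, smul_wall_def, Lamp.mul_g, Lamp.mul_A, mul_inv_rev,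
    mul_assoc, inv_mul_cancel_left, outside_symmDiff, ← outside_smul]
  constructor
  · rintro ⟨h1, h2⟩
    refine ⟨h1, ?_⟩
    have h3 := symmDiff_right_injective _ h2
    exact MulAction.injective y.g h3
  · rintro ⟨h1, h2⟩
    exact ⟨h1, by rw [h2]⟩

lemma Wset_mul (y x : Lamp α W) : Wset (y * x) = y • Wset x := by
  ext w
  rw [Set.mem_smul_set_iff_inv_smul_mem]
  rw [← smul_mem_Wset y x (y⁻¹ • w), smul_inv_smul]

/-- separating half spaces -/
lemma finite_sep (g z : FreeGroup α) :
    {w : FreeGroup α × (α × Bool) | lst (g⁻¹ * w.1) = some w.2 ∧ lst (z⁻¹ * w.1) ≠ some w.2}.Finite := by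
  have h1 := Dset_finite (z⁻¹ * g)
  have h2 : {h : FreeGroup α | g⁻¹ * h ∈ Dset (z⁻¹ * g)}.Finite :=
    Set.Finite.preimage (mul_right_injective g⁻¹).injOn h1
  apply Set.Finite.of_finite_image (f := Prod.fst)
  · apply h2.subset
    rintro _ ⟨⟨h, s⟩, ⟨h3, h4⟩, rfl⟩
    simp only [Set.mem_setOf_eq, Dset]
    simp only at h3 h4
    constructor
    · rw [h3]; simp
    · rw [h3]
      rwa [mul_assoc, mul_inv_cancel_left]
  · rintro ⟨h, s⟩ ⟨h3, h4⟩ ⟨h', s'⟩ ⟨h3', h4'⟩ hh
    simp only at h3 h3' hh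
    subst hh
    rw [h3] at h3'
    simp only [Option.some.injEq] at h3'
    rw [h3']

lemma finite_Wset_diff (x y : Lamp α W) : (Wset x \ Wset y).Finite := by
  have hfin : ({w : FreeGroup α × (α × Bool) | lst (x.g⁻¹ * w.1) = some w.2 ∧
      lst (y.g⁻¹ * w.1) ≠ some w.2} ∪ ⋃ z ∈ x.A ∆ y.A, {w : FreeGroup α × (α × Bool) |
      lst (x.g⁻¹ * w.1) = some w.2 ∧ lst (z⁻¹ * w.1) ≠ some w.2}).Finite := by
    apply (finite_sep x.g y.g).union
    exact Set.Finite.biUnion (Finset.finite_toSet _) fun z _ => finite_sep x.g z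
  apply Set.Finite.of_finite_image (f := fun w : Wall α => (w.h, w.s))
  · apply hfin.subset
    rintro _ ⟨w, ⟨⟨h1, h2⟩, h3⟩, rfl⟩
    by_cases h4 : lst (y.g⁻¹ * w.h) = some w.s
    · right
      have h5 : outside x.A w.h w.s ≠ outside y.A w.h w.s := by
        intro h5
        exact h3 ⟨h4, by rw [h2, h5]⟩
      have h6 : (outside (x.A ∆ y.A) w.h w.s).Nonempty := by
        rw [outside_symmDiff, Finset.nonempty_iff_ne_empty]
        intro h7
        apply h5
        exact symmDiff_eq_bot.mp h7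
      obtain ⟨z, hz⟩ := h6
      simp only [outside, Finset.mem_filter] at hz
      simp only [Set.mem_iUnion, Set.mem_setOf_eq]
      exact ⟨z, hz.1, h1, hz.2⟩
    · left
      exact ⟨h1, h4⟩
  · rintro w ⟨⟨_, h2⟩, _⟩ w' ⟨⟨_, h2'⟩, _⟩ hh
    simp only [Prod.mk.injEq] at hh
    obtain ⟨wh, ws, wμ⟩ := w
    obtain ⟨wh', ws', wμ'⟩ := w'
    simp only at hh h2 h2'
    obtain ⟨rfl, rfl⟩ := hh
    rw [h2, h2']

lemma finite_Wset_symmDiff (x y : Lamp α W) : (Wset x ∆ Wset y).Finite := by
  rw [Set.symmDiff_def]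
  exact (finite_Wset_diff x y).union (finite_Wset_diff y x)

/-- Number of walls separating `x` from `1` bounds word lengths. -/
lemma length_le_of_wall (x : Lamp α W) (z : FreeGroup α) (hz : z = 1 ∨ z ∈ x.A) :
    (z⁻¹ * x.g).toWord.length ≤ (Wset x ∆ Wset (1 : Lamp α W)).ncard := by
  refine (le_ncard_Dset (z⁻¹ * x.g)).trans ?_
  -- injection of `Dset` into the separating walls
  have hs : ∀ h ∈ Dset (z⁻¹ * x.g), ∃ s, lst h = some s := by
    intro h hh
    exact Option.ne_none_iff_exists'.mp hh.1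
  rcases (Dset (z⁻¹ * x.g)).eq_empty_or_nonempty with h0 | ⟨h0, hh0⟩
  · rw [h0]; simp
  haveI : Nonempty (α × Bool) := ⟨(hs h0 hh0).choose⟩
  choose! s hs using hs
  let f : FreeGroup α → Wall α := fun h => ⟨x.g * h, s h, outside x.A (x.g * h) (s h)⟩
  have hinj : Set.InjOn f (Dset (z⁻¹ * x.g)) := by
    intro h _ h' _ hh
    have := congrArg Wall.h hh
    exact mul_right_injective x.g this
  rw [← Set.ncard_image_of_injOn hinj]
  apply Set.ncard_le_ncard _ (finite_Wset_symmDiff x 1)
  rintro _ ⟨h, hh, rfl⟩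
  left
  constructor
  · simp only [f, Wset, Set.mem_setOf_eq, inv_mul_cancel_left, and_true]
    exact hs h hh
  · simp only [f, Wset, Set.mem_setOf_eq, Lamp.one_g, Lamp.one_A, outside_empty, inv_one,
      one_mul, not_and]
    intro h1
    have h2 := hh.2
    rw [hs h hh] at h2
    rcases hz with rfl | hz
    · rw [inv_one, one_mul] at h2
      exact absurd h1 h2
    · intro h3
      have h4 : z ∈ outside x.A (x.g * h) (s h) := by
        simp only [outside, Finset.mem_filter]
        refine ⟨hz, ?_⟩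
        rwa [← mul_assoc]
      rw [h3] at h4
      simp at h4

lemma finite_Wset_le [Finite α] (S : Finset W) (n : ℕ) :
    {x : Lamp α W | x.S ⊆ S ∧ (Wset x ∆ Wset (1 : Lamp α W)).ncard ≤ n}.Finite := by
  classical
  -- the ball
  set B := (finite_ball (α := α) n).toFinset with hB
  have hB' : ∀ u : FreeGroup α, u ∈ B ↔ u.toWord.length ≤ n := by
    intro u; simp [hB]
  -- configurations live in `B * B⁻¹`-like set
  set C : Finset (FreeGroup α) := Finset.image₂ (fun u v => u * v⁻¹) B B with hC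
  have h1 : {x : Lamp α W | x.S ⊆ S ∧ (Wset x ∆ Wset (1 : Lamp α W)).ncard ≤ n} ⊆
      (fun p : (Finset (FreeGroup α) × FreeGroup α) × Finset W => (⟨p.1.1, p.1.2, p.2⟩ : Lamp α W)) ''
        (((C.powerset ×ˢ B) ×ˢ S.powerset : Finset _) : Set _) := by
    rintro x ⟨hx1, hx2⟩
    refine ⟨((x.A, x.g), x.S), ?_, rfl⟩
    simp only [Finset.coe_product, Set.mem_prod, Finset.mem_coe, Finset.mem_powerset]
    have hg : x.g ∈ B := by
      rw [hB']
      have := length_le_of_wall x 1 (Or.inl rfl)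
      rw [inv_one, one_mul] at this
      omega
    refine ⟨⟨?_, hg⟩, hx1⟩
    intro z hz
    have h2 := length_le_of_wall x z (Or.inr hz)
    rw [hC, Finset.mem_image₂]
    refine ⟨x.g, hg, z⁻¹ * x.g, ?_, by group⟩
    rw [hB']
    omega
  exact Set.Finite.subset (Set.Finite.image _ (Finset.finite_toSet _)) h1

end Pool.Helper40.Haagerup
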