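import Pool.Agent.Helper40.Haagerup.AlgB2
import Pool.Agent.Helper40.Haagerup.AlmostInv

/-!
Strong limits, separation, and finitely supported functionals.
-/

noncomputable section

open scoped InnerProductSpace ComplexOrder symmDiff Pointwise
open Filter Topology TopologicalSpace

namespace Pool.Helper40.Haagerup

section Sep

lemma countable_of_separated {X ι : Type*} [PseudoMetricSpace X] {s : Set X}
    (hs : IsSeparable s) (f : ι → X) (hf : ∀ i, f i ∈ s) {ε : ℝ} (hε : 0 < ε)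
    (h : ∀ i j, i ≠ j → ε ≤ dist (f i) (f j)) : Countable ι := by
  obtain ⟨c, hc, hsc⟩ := hs
  have h1 : ∀ i, ∃ g ∈ c, dist (f i) g < ε / 2 := by
    intro i
    have := hsc (hf i)
    rw [Metric.mem_closure_iff] at this
    exact this (ε/2) (by positivity)
  choose g hg hd using h1
  have hinj : Function.Injective (fun i => (⟨g i, hg i⟩ : c)) := by
    intro i j hij
    by_contra hne
    have h2 := h i j hne
    have h3 : g i = g j := congrArg Subtype.val hij
    have h4 := dist_triangle_right (f i) (f j) (g i)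
    have h5 := hd i
    have h6 := hd j
    rw [← h3] at h6
    linarith
  haveI := hc.to_subtype
  exact hinj.countable

lemma not_countable_bool : ¬ Countable (ℕ → Bool) := by
  intro h
  obtain ⟨f, hf⟩ := exists_surjective_nat (ℕ → Bool)
  obtain ⟨k, hk⟩ := hf (fun n => !(f n n))
  have := congrFun hk k
  simp at this

end Sep

section Strong

variable {G : Type} {H : Type} [NormedAddCommGroup H] [InnerProductSpace ℂ H]
  [CompleteSpace H]

lemma exists_strong_limit (e : HilbertBasis G ℂ H) (T : ℕ → (H →L[ℂ] H)) (hb : ∀ m, ‖T m‖ ≤ 1)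
    (hc : ∀ x, CauchySeq (fun m => T m (e x))) :
    ∃ S : H →L[ℂ] H, ∀ u, Tendsto (fun m => T m u) atTop (𝓝 (S u)) := by
  have hspan : ∀ u ∈ Submodule.span ℂ (Set.range e), CauchySeq (fun m => T m u) := by
    intro u hu
    induction hu using Submodule.span_induction with
    | mem u hu =>
      obtain ⟨x, rfl⟩ := hu
      exact hc x
    | zero => simpa using cauchySeq_const (0 : H)
    | add u w _ _ h1 h2 =>
      simp only [map_add]
      exact h1.add h2
    | smul c u _ h1 =>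
      simp only [map_smul]
      exact (uniformContinuous_const_smul c).comp_cauchySeq h1
  have hdense : Dense (Submodule.span ℂ (Set.range e) : Set H) := by
    rw [Submodule.dense_iff_topologicalClosure_eq_top]
    exact e.dense_span
  have hall : ∀ u, CauchySeq (fun m => T m u) := by
    intro u
    rw [Metric.cauchySeq_iff]
    intro ε hε
    obtain ⟨u', hu', hd⟩ := Metric.mem_closure_iff.mp (hdense u) (ε/4) (by positivity)
    obtain ⟨N, hN⟩ := Metric.cauchySeq_iff.mp (hspan u' hu') (ε/4) (by positivity)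
    refine ⟨N, fun m hm n hn => ?_⟩
    have h1 := hN m hm n hn
    have h2 : ∀ k, dist (T k u) (T k u') ≤ dist u u' := by
      intro k
      rw [dist_eq_norm, dist_eq_norm, ← map_sub]
      calc _ ≤ ‖T k‖ * ‖u - u'‖ := (T k).le_opNorm _
        _ ≤ 1 * ‖u - u'‖ := by gcongr; exact hb k
        _ = _ := one_mul _
    calc dist (T m u) (T n u) ≤ dist (T m u) (T m u') + dist (T m u') (T n u') +
          dist (T n u') (T n u) := dist_triangle4 _ _ _ _
      _ ≤ dist u u' + dist (T m u') (T n u') + dist u u' := by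
          gcongr
          · exact h2 m
          · rw [dist_comm]; exact h2 n
      _ < ε := by linarith
  have hlim : ∀ u, ∃ w, Tendsto (fun m => T m u) atTop (𝓝 w) := fun u =>
    cauchySeq_tendsto_of_complete (hall u)
  choose f hf using hlim
  have hf' : Tendsto (fun n x => T n x) atTop (𝓝 f) := by
    rw [tendsto_pi_nhds]; exact hf
  exact ⟨continuousLinearMapOfTendsto T hf', hf⟩

end Strong

section Functional

variable {G : Type} [Group G] {H : Type} [NormedAddCommGroup H] [InnerProductSpace ℂ H]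
  [CompleteSpace H]

/-- A functional detecting the norm and controlled by the 2-norm on the von Neumann algebra. -/
lemma exists_functional (e : HilbertBasis G ℂ H) {T : H →L[ℂ] H} {ε : ℝ} (hε : 0 ≤ ε)
    (hT : ε < ‖T‖) :
    ∃ M : ℝ, 0 < M ∧ ∃ ℓ : (H →L[ℂ] H) →ₗ[ℂ] ℂ, (∀ S, ‖ℓ S‖ ≤ ‖S‖) ∧
      (∀ S ∈ vN e, ‖ℓ S‖ ≤ M * ‖S (e 1)‖) ∧ ε < ‖ℓ T‖ := by
  obtain ⟨u₀, hu₀, hTu₀⟩ := T.exists_lt_apply_of_lt_opNorm hT
  have hopen : IsOpen {u : H | ‖u‖ < 1 ∧ ε < ‖T u‖} := by
    apply IsOpen.inter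
    · exact isOpen_lt continuous_norm continuous_const
    · exact isOpen_lt continuous_const (T.continuous.norm)
  have hdense : Dense (Submodule.span ℂ (Set.range e) : Set H) := by
    rw [Submodule.dense_iff_topologicalClosure_eq_top]
    exact e.dense_span
  obtain ⟨u, ⟨hu1, hu2⟩, hu3⟩ := hdense.inter_open_nonempty _ hopen ⟨u₀, hu₀, hTu₀⟩
  have hM : ∃ M : ℝ, 0 < M ∧ ∀ S ∈ vN e, ‖S u‖ ≤ M * ‖S (e 1)‖ := by
    clear hu1 hu2
    induction hu3 using Submodule.span_induction with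
    | mem u hu =>
      obtain ⟨x, rfl⟩ := hu
      exact ⟨1, one_pos, fun S hS => by rw [norm_apply_basis hS, one_mul]⟩
    | zero => exact ⟨1, one_pos, fun S _ => by simp⟩
    | add u w _ _ h1 h2 =>
      obtain ⟨M1, hM1, h1⟩ := h1
      obtain ⟨M2, hM2, h2⟩ := h2
      refine ⟨M1 + M2, add_pos hM1 hM2, fun S hS => ?_⟩
      rw [map_add, add_mul]
      exact (norm_add_le _ _).trans (add_le_add (h1 S hS) (h2 S hS))
    | smul c u _ h1 =>
      obtain ⟨M1, hM1, h1⟩ := h1
      refine ⟨(‖c‖ + 1) * M1, by positivity, fun S hS => ?_⟩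
      rw [map_smul, norm_smul]
      calc ‖c‖ * ‖S u‖ ≤ ‖c‖ * (M1 * ‖S (e 1)‖) := by gcongr; exact h1 S hS
        _ ≤ (‖c‖ + 1) * (M1 * ‖S (e 1)‖) := by
            apply mul_le_mul_of_nonneg_right (by linarith)
            positivity
        _ = _ := by ring
  obtain ⟨M, hM0, hM⟩ := hM
  have hTu : 0 < ‖T u‖ := lt_of_le_of_lt hε hu2
  set w : H := ((‖T u‖⁻¹ : ℝ) : ℂ) • T u with hw
  have hwn : ‖w‖ = 1 := by
    rw [hw, norm_smul, Complex.norm_real, norm_inv, norm_norm, inv_mul_cancel₀ hTu.ne']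
  refine ⟨M, hM0, ⟨⟨fun S => ⟪w, S u⟫_ℂ, ?_⟩, ?_⟩, ?_, ?_, ?_⟩
  · intro S S'; simp [inner_add_right]
  · intro c S; simp [inner_smul_right]
  · intro S
    calc ‖⟪w, S u⟫_ℂ‖ ≤ ‖w‖ * ‖S u‖ := norm_inner_le_norm _ _
      _ = ‖S u‖ := by rw [hwn, one_mul]
      _ ≤ ‖S‖ * ‖u‖ := S.le_opNorm u
      _ ≤ ‖S‖ * 1 := by gcongr
      _ = ‖S‖ := mul_one _
  · intro S hS
    calc ‖⟪w, S u⟫_ℂ‖ ≤ ‖w‖ * ‖S u‖ := norm_inner_le_norm _ _
      _ = ‖S u‖ := by rw [hwn, one_mul]
      _ ≤ _ := hM S hS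
  · change ε < ‖⟪w, T u⟫_ℂ‖
    have : ⟪w, T u⟫_ℂ = (‖T u‖ : ℂ) := by
      rw [hw, inner_smul_left, Complex.conj_ofReal, inner_self_eq_norm_sq_to_K]
      push_cast
      have : ((‖T u‖ : ℝ) : ℂ) ≠ 0 := by exact_mod_cast hTu.ne'
      change ((‖T u‖ : ℝ) : ℂ)⁻¹ * ((‖T u‖ : ℝ) : ℂ) ^ 2 = _
      field_simp
    rw [this, Complex.norm_real, norm_norm]
    exact hu2

end Functional

end Pool.Helper40.Haagerup
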