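import Pool.Agent.Helper40.Haagerup.Limits

/-!
Uniform integrability of completely positive compact maps on the algebra `B`.
-/

noncomputable section

open scoped InnerProductSpace ComplexOrder symmDiff Pointwise
open Filter Topology TopologicalSpace

namespace Pool.Helper40.Haagerup

/-- A completely positive contraction of a concrete algebra which extends to a compact operator
on the Hilbert space. -/
structure CoreMap {G : Type} [Group G] {H : Type} [NormedAddCommGroup H] [InnerProductSpace ℂ H]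
    [CompleteSpace H] (e : HilbertBasis G ℂ H) (B : StarSubalgebra ℂ (H →L[ℂ] H)) where
  F : B →ₗ[ℂ] (H →L[ℂ] H)
  mem : ∀ b, F b ∈ B
  contr : ∀ b : B, ‖F b‖ ≤ ‖(b : H →L[ℂ] H)‖
  L : H →L[ℂ] H
  hL : ∀ b : B, F b (e 1) = L ((b : H →L[ℂ] H) (e 1))
  small : ∀ ε > 0, {x : G | ε ≤ ‖L (e x)‖}.Finite
  cp : ∀ (k : ℕ) (a : Fin k → B) (v : Fin k → H),
    0 ≤ ∑ i, ∑ j, ⟪v i, F (star (a i) * a j) (v j)⟫_ℂ

section General

variable {G : Type} {H : Type} [NormedAddCommGroup H] [InnerProductSpace ℂ H]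

lemma hasSum_L (e : HilbertBasis G ℂ H) (L : H →L[ℂ] H) (u : H) :
    HasSum (fun x => ⟪e x, u⟫_ℂ • L (e x)) (L u) := by
  have h := (e.hasSum_repr u).mapL L
  simpa [e.repr_apply_apply] using h

lemma L_eq_zero (e : HilbertBasis G ℂ H) (L : H →L[ℂ] H) (u : H)
    (h : ∀ x, ⟪e x, u⟫_ℂ ≠ 0 → L (e x) = 0) : L u = 0 := by
  refine (hasSum_L e L u).unique ?_
  convert hasSum_zero using 1
  funext x
  by_cases h1 : ⟪e x, u⟫_ℂ = 0
  · rw [h1, zero_smul]
  · rw [h x h1, smul_zero]

end General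

variable {α W : Type} [DecidableEq α] [DecidableEq W]
variable {H : Type} [NormedAddCommGroup H] [InnerProductSpace ℂ H] [CompleteSpace H]
variable {e : HilbertBasis (Lamp α W) ℂ H} {T : W → (H →L[ℂ] H)}

lemma exists_countable (hT : ∀ w, T w ∈ vN e) (Φ : CoreMap e (algB e T)) :
    ∃ C : Set W, C.Countable ∧ (∀ x : Lamp α W, ¬ ((x.S : Set W) ⊆ C) → Φ.L (e x) = 0) ∧
      ∀ b, Φ.F b ∈ NC e C := by
  set Y : Set (Lamp α W) := {x | Φ.L (e x) ≠ 0} with hY
  have hYc : Y.Countable := by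
    have : Y ⊆ ⋃ n : ℕ, {x | 1 / ((n : ℝ) + 1) ≤ ‖Φ.L (e x)‖} := by
      intro x hx
      obtain ⟨n, hn⟩ := exists_nat_one_div_lt (norm_pos_iff.mpr hx)
      exact Set.mem_iUnion.mpr ⟨n, hn.le⟩
    refine Set.Countable.mono this (Set.countable_iUnion fun n => ?_)
    exact (Φ.small _ (by positivity)).countable
  have hsupp : ∀ y : Lamp α W, {z | ⟪e z, Φ.L (e y)⟫_ℂ ≠ 0}.Countable := by
    intro y
    have h1 := (hasSum_norm_sq e (Φ.L (e y))).summable.countable_support
    apply h1.mono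
    intro z hz
    simp only [Function.mem_support]
    simp only [Set.mem_setOf_eq] at hz
    positivity
  set C : Set W := (⋃ y ∈ Y, (y.S : Set W)) ∪
    ⋃ y ∈ Y, ⋃ z ∈ {z | ⟪e z, Φ.L (e y)⟫_ℂ ≠ 0}, (z.S : Set W) with hC
  refine ⟨C, ?_, ?_, ?_⟩
  · apply Set.Countable.union
    · exact hYc.biUnion fun y _ => (Finset.countable_toSet _)
    · exact hYc.biUnion fun y _ => (hsupp y).biUnion fun z _ => (Finset.countable_toSet _)
  · intro x hx
    by_contra hne
    apply hx
    intro w hw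
    left
    exact Set.mem_biUnion (show x ∈ Y from hne) hw
  · intro b
    have hmem : Φ.F b ∈ vN e := algB_le_vN e hT (Φ.mem b)
    refine ⟨hmem, fun w hw => ?_⟩
    apply commute_of_supp hmem
    intro z hz
    unfold co
    rw [Φ.hL b]
    have h1 := (hasSum_L e Φ.L ((b : H →L[ℂ] H) (e 1))).mapL (innerSL ℂ (e z))
    simp only [innerSL_apply_apply] at h1
    refine h1.unique ?_
    convert hasSum_zero using 1
    funext x
    rw [inner_smul_right]
    by_cases h2 : ⟪e z, Φ.L (e x)⟫_ℂ = 0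
    · rw [h2, mul_zero]
    · exfalso
      apply hw
      right
      have hx : x ∈ Y := by
        intro h3; rw [h3] at h2; simp at h2
      exact Set.mem_biUnion hx (Set.mem_biUnion (show z ∈ {z | ⟪e z, Φ.L (e x)⟫_ℂ ≠ 0} from h2) hz)

/-- span of the lamp unitaries -/
def spanA (e : HilbertBasis (Lamp α W) ℂ H) : Submodule ℂ (H →L[ℂ] H) :=
  Submodule.span ℂ (Set.range fun A : Finset (FreeGroup α) => lam e (lA A))

lemma spanA_mul {S R : H →L[ℂ] H} (hS : S ∈ spanA e) (hR : R ∈ spanA e) :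
    S * R ∈ spanA e ∧ S * R = R * S := by
  unfold spanA at hS hR
  induction hS using Submodule.span_induction with
  | mem S hS =>
    obtain ⟨A, rfl⟩ := hS
    induction hR using Submodule.span_induction with
    | mem R hR =>
      obtain ⟨B, rfl⟩ := hR
      simp only
      rw [← lam_mul, ← lam_mul, lA_mul, lA_mul, symmDiff_comm B A]
      exact ⟨Submodule.subset_span ⟨_, rfl⟩, rfl⟩
    | zero => simp
    | add R R' _ _ h1 h2 =>
      rw [mul_add, add_mul, h1.2, h2.2]
      refine ⟨?_, rfl⟩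
      rw [← h1.2, ← h2.2]
      exact add_mem h1.1 h2.1
    | smul c R _ h1 =>
      rw [mul_smul_comm, smul_mul_assoc, h1.2]
      refine ⟨?_, rfl⟩
      rw [← h1.2]
      exact Submodule.smul_mem _ _ h1.1
  | zero => simp
  | add S S' _ _ h1 h2 =>
    rw [mul_add, add_mul, h1.2, h2.2]
    refine ⟨?_, rfl⟩
    rw [← h1.2, ← h2.2]
    exact add_mem h1.1 h2.1
  | smul c S _ h1 =>
    rw [mul_smul_comm, smul_mul_assoc, h1.2]
    refine ⟨?_, rfl⟩
    rw [← h1.2]
    exact Submodule.smul_mem _ _ h1.1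

lemma spanA_le_NC : (spanA e : Set (H →L[ℂ] H)) ⊆ NC e (∅ : Set W) := by
  intro S hS
  have h1 : spanA e ≤ Subalgebra.toSubmodule (NC e (∅ : Set W)).toSubalgebra := by
    unfold spanA
    rw [Submodule.span_le]
    rintro _ ⟨A, rfl⟩
    apply lam_mem_NC
    simp [lA]
  exact h1 hS

lemma spanA_le_algB : (spanA e : Set (H →L[ℂ] H)) ⊆ algB e T := by
  intro S hS
  have h1 : spanA e ≤ Subalgebra.toSubmodule (algB e T).toSubalgebra := by
    unfold spanA
    rw [Submodule.span_le]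
    rintro _ ⟨A, rfl⟩
    exact lam_mem_algB e T _
  exact h1 hS

/-- Projections in the span of the lamp unitaries. -/
def IsPr (e : HilbertBasis (Lamp α W) ℂ H) (E : H →L[ℂ] H) : Prop :=
  E ∈ spanA e ∧ E * E = E ∧ star E = E

lemma IsPr.norm_le {E : H →L[ℂ] H} (h : IsPr e E) : ‖E‖ ≤ 1 := by
  have h1 : ‖star E * E‖ = ‖E‖ * ‖E‖ := CStarRing.norm_star_mul_self
  rw [h.2.2, h.2.1] at h1
  by_contra hcon
  push Not at hcon
  nlinarith

/-- The recursion for the masks. -/
def mask (E : ℕ → (H →L[ℂ] H)) (a : ℕ → Bool) : ℕ → (H →L[ℂ] H)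
  | 0 => 0
  | m + 1 => mask E a m * (1 - E m) + if a m then E m else 0

lemma isPr_zero : IsPr e (0 : H →L[ℂ] H) := ⟨zero_mem _, by simp, by simp⟩

lemma isPr_mask {E : ℕ → (H →L[ℂ] H)} (hE : ∀ m, IsPr e (E m)) (a : ℕ → Bool) (m : ℕ) :
    IsPr e (mask E a m) := by
  induction m with
  | zero => exact isPr_zero
  | succ m ih =>
    obtain ⟨h1, h2, h3⟩ := ih
    obtain ⟨g1, g2, g3⟩ := hE m
    have hc := (spanA_mul h1 g1).2
    have key : mask E a (m+1) = mask E a m * (1 - E m) + if a m then E m else 0 := rfl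
    rw [key]
    set P := mask E a m
    set Q := E m
    have e1 : P * (1 - Q) = P - P * Q := by rw [mul_sub, mul_one]
    have e2 : (P - P * Q) * (P - P * Q) = P - P * Q := by
      have : P * Q * P = P * Q := by rw [mul_assoc, ← hc, ← mul_assoc, h2]
      have h4 : P * Q * (P * Q) = P * Q := by
        rw [← mul_assoc, this, mul_assoc, g2]
      have h5 : P * (P * Q) = P * Q := by rw [← mul_assoc, h2]
      rw [sub_mul, mul_sub, mul_sub, h2, this, h4, h5]
      abel
    have e3 : (P - P * Q) * Q = 0 := by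
      rw [sub_mul, mul_assoc, g2, sub_self]
    have e4 : Q * (P - P * Q) = 0 := by
      rw [mul_sub, ← mul_assoc, ← hc, mul_assoc, g2, sub_self]
    have e5 : star (P - P * Q) = P - P * Q := by
      rw [star_sub, star_mul, h3, g3, ← hc]
    have e6 : P - P * Q ∈ spanA e := sub_mem h1 (spanA_mul h1 g1).1
    rw [e1]
    by_cases ha : a m = true
    · rw [if_pos ha]
      refine ⟨add_mem e6 g1, ?_, ?_⟩
      · rw [mul_add, add_mul, add_mul, e2, e3, e4, g2]
        abel
      · rw [star_add, e5, g3]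
    · rw [if_neg ha, add_zero]
      exact ⟨e6, e2, e5⟩

lemma mask_step {E : ℕ → (H →L[ℂ] H)} (hE : ∀ m, IsPr e (E m)) (a : ℕ → Bool) (m : ℕ) (u : H) :
    ‖(mask E a (m+1) - mask E a m) u‖ ≤ 2 * ‖E m u‖ := by
  have h1 : mask E a (m+1) - mask E a m = (if a m then E m else 0) - mask E a m * E m := by
    change mask E a m * (1 - E m) + (if a m then E m else 0) - mask E a m = _
    rw [mul_sub, mul_one]; abel
  rw [h1, ContinuousLinearMap.sub_apply]
  refine (norm_sub_le _ _).trans ?_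
  have h2 : ‖(if a m = true then E m else 0) u‖ ≤ ‖E m u‖ := by
    split_ifs
    · exact le_refl _
    · simp
  have h3 : ‖(mask E a m * E m) u‖ ≤ ‖E m u‖ := by
    rw [ContinuousLinearMap.mul_apply]
    calc _ ≤ ‖mask E a m‖ * ‖E m u‖ := (mask E a m).le_opNorm _
      _ ≤ 1 * ‖E m u‖ := by gcongr; exact (isPr_mask hE a m).norm_le
      _ = _ := one_mul _
  linarith

lemma mask_dist {E : ℕ → (H →L[ℂ] H)} (hE : ∀ m, IsPr e (E m)) {δ : ℕ → ℝ}
    (hδ : ∀ m, ‖E m (e 1)‖ ≤ δ m) (hδ2 : ∀ m, δ (m+1) ≤ δ m / 2)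
    (a : ℕ → Bool) (m k : ℕ) (hk : m ≤ k) :
    ‖(mask E a k - mask E a m) (e 1)‖ ≤ 4 * (δ m - δ k) := by
  induction k, hk using Nat.le_induction with
  | base => simp
  | succ k hk ih =>
    have h1 := mask_step hE a k (e 1)
    have h2 : mask E a (k+1) - mask E a m = (mask E a (k+1) - mask E a k) +
        (mask E a k - mask E a m) := by abel
    rw [h2, ContinuousLinearMap.add_apply]
    refine (norm_add_le _ _).trans ?_
    have h3 := hδ k
    have h4 := hδ2 k
    linarith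

lemma mask_limit {E : ℕ → (H →L[ℂ] H)} (hE : ∀ m, IsPr e (E m)) {δ : ℕ → ℝ}
    (hδ : ∀ m, ‖E m (e 1)‖ ≤ δ m) (hδ2 : ∀ m, δ (m+1) ≤ δ m / 2) (a : ℕ → Bool) :
    ∃ S ∈ NC e (∅ : Set W), ∀ m, ‖(S - mask E a m) (e 1)‖ ≤ 4 * δ m := by
  have hδ0 : ∀ m, 0 ≤ δ m := fun m => (norm_nonneg _).trans (hδ m)
  have hpow : ∀ m, δ m ≤ δ 0 * (1/2) ^ m := by
    intro m
    induction m with
    | zero => simp
    | succ m ih =>
      have := hδ2 m
      rw [pow_succ]
      linarith
  have hlim0 : Tendsto (fun m => 4 * (δ 0 * (1/2 : ℝ) ^ m)) atTop (𝓝 0) := by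
    have := tendsto_pow_atTop_nhds_zero_of_lt_one (r := (1/2 : ℝ)) (by norm_num) (by norm_num)
    simpa using (this.const_mul (δ 0)).const_mul 4
  have hmem : ∀ m, mask E a m ∈ NC e (∅ : Set W) := fun m =>
    spanA_le_NC (isPr_mask hE a m).1
  have hdist : ∀ m k, m ≤ k → ∀ x, ‖mask E a k (e x) - mask E a m (e x)‖ ≤
      4 * (δ 0 * (1/2) ^ m) := by
    intro m k hk x
    rw [← ContinuousLinearMap.sub_apply, norm_apply_basis (sub_mem (hmem k).1 (hmem m).1)]
    have h1 := mask_dist hE hδ hδ2 a m k hk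
    have h2 := hδ0 k
    have h3 := hpow m
    linarith
  have hc : ∀ x, CauchySeq (fun m => mask E a m (e x)) := by
    intro x
    apply cauchySeq_of_le_tendsto_0 (fun m => 2 * (4 * (δ 0 * (1/2) ^ m)))
    · intro n m N hn hm
      rw [dist_eq_norm]
      have h1 := hdist N n hn x
      have h2 := hdist N m hm x
      have h3 : mask E a n (e x) - mask E a m (e x) =
          (mask E a n (e x) - mask E a N (e x)) - (mask E a m (e x) - mask E a N (e x)) := by abel
      rw [h3]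
      refine (norm_sub_le _ _).trans ?_
      linarith
    · simpa using hlim0.const_mul 2
  obtain ⟨S, hS⟩ := exists_strong_limit e (mask E a) (fun m => (isPr_mask hE a m).norm_le) hc
  refine ⟨S, ⟨?_, ?_⟩, ?_⟩
  · intro x y g
    have h1 : Tendsto (fun m => ⟪e (y * g), mask E a m (e (x * g))⟫_ℂ) atTop
        (𝓝 ⟪e (y * g), S (e (x * g))⟫_ℂ) := tendsto_const_nhds.inner (hS _)
    have h2 : Tendsto (fun m => ⟪e y, mask E a m (e x)⟫_ℂ) atTop
        (𝓝 ⟪e y, S (e x)⟫_ℂ) := tendsto_const_nhds.inner (hS _)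
    have h3 : (fun m => ⟪e (y * g), mask E a m (e (x * g))⟫_ℂ) =
        fun m => ⟪e y, mask E a m (e x)⟫_ℂ := by
      funext m; exact (hmem m).1 x y g
    rw [h3] at h1
    exact tendsto_nhds_unique h1 h2
  · intro w hw
    ext u
    have h1 : Tendsto (fun m => Uw e w (mask E a m u)) atTop (𝓝 (Uw e w (S u))) :=
      ((Uw e w).continuous.tendsto _).comp (hS u)
    have h2 : Tendsto (fun m => mask E a m (Uw e w u)) atTop (𝓝 (S (Uw e w u))) := hS _
    have h3 : (fun m => Uw e w (mask E a m u)) = fun m => mask E a m (Uw e w u) := by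
      funext m
      exact congrArg (fun T => T u) ((hmem m).2 w hw)
    rw [h3] at h1
    exact tendsto_nhds_unique h1 h2
  · intro m
    have h1 : Tendsto (fun k => ‖(mask E a k - mask E a m) (e 1)‖) atTop
        (𝓝 ‖(S - mask E a m) (e 1)‖) := by
      simp only [ContinuousLinearMap.sub_apply]
      exact ((hS (e 1)).sub_const _).norm
    apply le_of_tendsto h1
    filter_upwards [eventually_ge_atTop m] with k hk
    have h2 := mask_dist hE hδ hδ2 a m k hk
    have h3 := hδ0 k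
    linarith

lemma mask_eq_of_agree {E : ℕ → (H →L[ℂ] H)} {a b : ℕ → Bool} {n : ℕ}
    (h : ∀ m < n, a m = b m) : mask E a n = mask E b n := by
  induction n with
  | zero => rfl
  | succ n ih =>
    change mask E a n * (1 - E n) + (if a n then E n else 0) =
      mask E b n * (1 - E n) + (if b n then E n else 0)
    rw [ih (fun m hm => h m (Nat.lt_succ_of_lt hm)), h n (Nat.lt_succ_self n)]

/-- Uniform integrability of a compact completely positive map on `B`. -/
theorem uniform_integrability [Countable α] (hT : ∀ w, T w ∈ NC e (∅ : Set W))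
    (hfib : ∀ S ∈ NC e (∅ : Set W), ¬ {w | T w = S}.Countable)
    (Φ : CoreMap e (algB e T)) (ε : ℝ) (hε : 0 < ε) :
    ∃ δ > 0, ∀ E : algB e T, IsPr e (E : H →L[ℂ] H) → ‖(E : H →L[ℂ] H) (e 1)‖ < δ →
      ‖Φ.F E‖ ≤ ε := by
  by_contra hcon
  push Not at hcon
  have hTv : ∀ w, T w ∈ vN e := fun w => (hT w).1
  obtain ⟨C, hCc, hC1, hC2⟩ := exists_countable hTv Φ
  -- choose the data
  have hchoice : ∀ δ : ℝ, ∃ (E : algB e T) (M : ℝ) (ℓ : (H →L[ℂ] H) →ₗ[ℂ] ℂ), 0 < δ →
      (IsPr e (E : H →L[ℂ] H) ∧ ‖(E : H →L[ℂ] H) (e 1)‖ < δ ∧ 0 < M ∧ (∀ S, ‖ℓ S‖ ≤ ‖S‖) ∧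
      (∀ S ∈ vN e, ‖ℓ S‖ ≤ M * ‖S (e 1)‖) ∧ ε < ‖ℓ (Φ.F E)‖) := by
    intro δ
    by_cases hδ : 0 < δ
    · obtain ⟨E, hE1, hE2, hE3⟩ := hcon δ hδ
      obtain ⟨M, hM, ℓ, h1, h2, h3⟩ := exists_functional e hε.le hE3
      exact ⟨E, M, ℓ, fun _ => ⟨hE1, hE2, hM, h1, h2, h3⟩⟩
    · exact ⟨0, 0, 0, fun h => absurd h hδ⟩
  choose E' M' ℓ' hch using hchoice
  set cL : ℝ := ‖Φ.L‖ + 1 with hcL
  have hcL0 : 0 < cL := by positivity
  let δ : ℕ → ℝ := fun n => Nat.rec 1 (fun _ d => min (d / 2) (ε / (16 * cL * (|M' d| + 1)))) n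
  have hδ0 : δ 0 = 1 := rfl
  have hδs : ∀ n, δ (n+1) = min (δ n / 2) (ε / (16 * cL * (|M' (δ n)| + 1))) := fun n => rfl
  have hδpos : ∀ n, 0 < δ n := by
    intro n
    induction n with
    | zero => rw [hδ0]; exact one_pos
    | succ n ih =>
      rw [hδs]
      apply lt_min (by positivity) (by positivity)
  have hδ2 : ∀ n, δ (n+1) ≤ δ n / 2 := fun n => by rw [hδs]; exact min_le_left _ _
  have hδ3 : ∀ n, δ (n+1) ≤ ε / (16 * cL * (|M' (δ n)| + 1)) := fun n => by
    rw [hδs]; exact min_le_right _ _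
  set E : ℕ → (H →L[ℂ] H) := fun n => (E' (δ n) : H →L[ℂ] H) with hEdef
  have hE : ∀ n, IsPr e (E n) := fun n => (hch (δ n) (hδpos n)).1
  have hEδ : ∀ n, ‖E n (e 1)‖ ≤ δ n := fun n => (hch (δ n) (hδpos n)).2.1.le
  -- the limits
  have hlim := fun a : ℕ → Bool => mask_limit hE hEδ hδ2 a
  choose TT hTT1 hTT2 using hlim
  -- choose coordinates
  have hw : ∀ a : ℕ → Bool, ∃ w, w ∉ C ∧ T w = TT a := by
    intro a
    by_contra hno
    push Not at hno
    apply hfib (TT a) (hTT1 a)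
    apply hCc.mono
    intro w hw
    by_contra hwC
    exact hno w hwC hw
  choose wa hwa1 hwa2 using hw
  let R : (ℕ → Bool) → (H →L[ℂ] H) := fun a =>
    (2 : ℂ) • Φ.F ⟨T (wa a) * xw e (wa a), Txw_mem_algB e T (wa a)⟩
  have hRNC : ∀ a, R a ∈ NC e C := fun a => SMulMemClass.smul_mem _ (hC2 _)
  have hRB : ∀ a, R a ∈ algB e T := fun a => SMulMemClass.smul_mem _ (Φ.mem _)
  have hRe : ∀ a, R a (e 1) = Φ.L (TT a (e 1)) := by
    intro a
    change (2 : ℂ) • (Φ.F ⟨T (wa a) * xw e (wa a), Txw_mem_algB e T (wa a)⟩) (e 1) = _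
    rw [Φ.hL]
    simp only [ContinuousLinearMap.mul_apply]
    rw [hwa2 a]
    have h1 : xw e (wa a) (e 1) = (2:ℂ)⁻¹ • (e 1 - e (lS {wa a})) := by
      unfold xw
      simp only [ContinuousLinearMap.smul_apply, ContinuousLinearMap.sub_apply,
        ContinuousLinearMap.one_apply, lam_apply, mul_one]
    rw [h1, map_smul, map_smul, smul_smul, map_sub, map_sub]
    have h2 : Φ.L (TT a (e (lS {wa a}))) = 0 := by
      apply L_eq_zero e
      intro x hx
      apply hC1
      rw [mat_eq_co (hTT1 a).1, lS_inv] at hx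
      intro hxC
      apply hwa1 a
      apply hxC
      by_contra hwx
      apply hx
      apply supp_of_commute ((hTT1 a).2 (wa a) (by simp))
      have : wa a ∉ x.S := hwx
      simp only [Lamp.mul_S, lS, Finset.mem_symmDiff, Finset.mem_singleton]
      right
      exact ⟨trivial, this⟩
    rw [h2, sub_zero]
    norm_num
  -- separation, one sided
  have hsep1 : ∀ a b : ℕ → Bool, ∀ n, (∀ m < n, a m = b m) → a n = true → b n = false →
      ε / 2 ≤ ‖R a - R b‖ := by
    intro a b n hag han hbn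
    obtain ⟨_, _, hMpos, hℓ1, hℓ2, hℓ3⟩ := hch (δ n) (hδpos n)
    set ℓ := ℓ' (δ n)
    set M := M' (δ n)
    have hmask : mask E a (n+1) - mask E b (n+1) = E n := by
      change mask E a n * (1 - E n) + (if a n then E n else 0) -
        (mask E b n * (1 - E n) + (if b n then E n else 0)) = _
      rw [mask_eq_of_agree hag, han, hbn]
      simp
    set D := R a - R b - Φ.F (E' (δ n)) with hD
    have hDv : D ∈ vN e := sub_mem (sub_mem (hRNC a).1 (hRNC b).1) (hC2 _).1
    have hDe : D (e 1) = Φ.L ((TT a - mask E a (n+1)) (e 1) - (TT b - mask E b (n+1)) (e 1)) := by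
      rw [hD, ContinuousLinearMap.sub_apply, ContinuousLinearMap.sub_apply, hRe, hRe, Φ.hL,
        ← map_sub, ← map_sub]
      congr 1
      have : ((E' (δ n) : H →L[ℂ] H)) (e 1) = (mask E a (n+1) - mask E b (n+1)) (e 1) := by
        rw [hmask]
      rw [this]
      simp only [ContinuousLinearMap.sub_apply]
      abel
    have hDn : ‖D (e 1)‖ ≤ cL * (8 * δ (n+1)) := by
      rw [hDe]
      have h1 := hTT2 a (n+1)
      have h2 := hTT2 b (n+1)
      calc _ ≤ ‖Φ.L‖ * ‖(TT a - mask E a (n+1)) (e 1) - (TT b - mask E b (n+1)) (e 1)‖ :=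
            Φ.L.le_opNorm _
        _ ≤ cL * (8 * δ (n+1)) := by
            apply mul_le_mul _ _ (norm_nonneg _) hcL0.le
            · rw [hcL]; linarith
            · refine (norm_sub_le _ _).trans ?_
              linarith
    have h4 : ‖ℓ D‖ ≤ ε / 2 := by
      have h5 := hδ3 n
      rw [le_div_iff₀ (by positivity)] at h5
      calc ‖ℓ D‖ ≤ M * ‖D (e 1)‖ := hℓ2 D hDv
        _ ≤ M * (cL * (8 * δ (n+1))) := by gcongr
        _ ≤ (|M| + 1) * (cL * (8 * δ (n+1))) := by
            apply mul_le_mul_of_nonneg_right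
            · linarith [le_abs_self M]
            · have := hδpos (n+1); positivity
        _ = (δ (n+1) * (16 * cL * (|M| + 1))) / 2 := by ring
        _ ≤ ε / 2 := by gcongr
    have h5 : ℓ (R a - R b) = ℓ (Φ.F (E' (δ n))) + ℓ D := by
      rw [← map_add, hD]
      congr 1
      abel
    calc ε / 2 = ε - ε / 2 := by ring
      _ ≤ ‖ℓ (Φ.F (E' (δ n)))‖ - ‖ℓ D‖ := by linarith
      _ ≤ ‖ℓ (Φ.F (E' (δ n))) + ℓ D‖ := by
          have := norm_sub_norm_le (ℓ (Φ.F (E' (δ n)))) (-(ℓ D))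
          rw [norm_neg, sub_neg_eq_add] at this
          exact this
      _ = ‖ℓ (R a - R b)‖ := by rw [h5]
      _ ≤ ‖R a - R b‖ := hℓ1 _
  have hsep : ∀ a b : ℕ → Bool, a ≠ b → ε / 2 ≤ dist (R a) (R b) := by
    intro a b hab
    have hex : ∃ n, a n ≠ b n := by
      by_contra hno
      push Not at hno
      exact hab (funext hno)
    classical
    set n := Nat.find hex with hn
    have h1 : a n ≠ b n := Nat.find_spec hex
    have h2 : ∀ m < n, a m = b m := fun m hm => by
      have := Nat.find_min hex hm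
      push Not at this
      exact this
    rw [dist_eq_norm]
    rcases Bool.eq_false_or_eq_true (a n) with h3 | h3
    · rcases Bool.eq_false_or_eq_true (b n) with h4 | h4
      · exact absurd (h3.trans h4.symm) h1
      · exact hsep1 a b n h2 h3 h4
    · rcases Bool.eq_false_or_eq_true (b n) with h4 | h4
      · rw [norm_sub_rev]
        exact hsep1 b a n (fun m hm => (h2 m hm).symm) h4 h3
      · exact absurd (h3.trans h4.symm) h1
  apply not_countable_bool
  exact countable_of_separated (isSeparable_algC e (T := T) hCc) R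
    (fun a => mem_closure_algC e hT (hRB a) (hRNC a)) (half_pos hε) hsep

end Pool.Helper40.Haagerup
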